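import Pool.Agent.KB.St

/-!
# Basic lemmas
-/

set_option autoImplicit false

namespace KB

open Function

variable {X V F : Type}

namespace QMap

variable (m : QMap X V F)

/-! ## the structure maps -/

theorem v_s (x : X) : m.v (m.s x) = m.v x :=
  (m.vv _ _).2 ⟨-1, by simp⟩

theorem v_symm (x : X) : m.v (m.s.symm x) = m.v x := by
  have := m.v_s (m.s.symm x)
  rw [← this]; simp

theorem v_pow (k : ℕ) (x : X) : m.v ((m.s ^ k) x) = m.v x :=
  (m.vv _ _).2 ⟨-(k : ℤ), by simp⟩

theorem s_r (x : X) : m.s (m.r x) = m.t (m.s x) := by simp [r]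

theorem r_t (x : X) : m.r (m.t x) = m.t (m.r x) := m.rt x

theorem r_r (x : X) : m.r (m.r x) = x := by
  simp [r, m.tt]

theorem r_ne_t (x : X) : m.r x ≠ m.t x := m.rne x

theorem r_ne (x : X) : m.r x ≠ x := by
  intro h
  have := m.s_r x
  rw [h] at this
  exact m.tne _ this.symm

theorem t_r_ne (x : X) : m.t (m.r x) ≠ x := by
  intro h
  apply m.r_ne_t x
  rw [← h, m.tt, h]

theorem t_inj {x y : X} (h : m.t x = m.t y) : x = y := by
  rw [← m.tt x, h, m.tt]

theorem r_inj {x y : X} (h : m.r x = m.r y) : x = y := by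
  rw [← m.r_r x, h, m.r_r]

/-- `s⁻¹ t x = r (s⁻¹ x)` -/
theorem symm_t (x : X) : m.s.symm (m.t x) = m.r (m.s.symm x) := by simp [r]

theorem f_iff (x y : X) : m.f x = m.f y ↔ (y = x ∨ y = m.t x ∨ y = m.r x ∨ y = m.t (m.r x)) :=
  m.ff x y

theorem f_t (x : X) : m.f (m.t x) = m.f x := ((m.f_iff x _).2 (by tauto)).symm

theorem f_r (x : X) : m.f (m.r x) = m.f x := ((m.f_iff x _).2 (by tauto)).symm

/-! ## `out` -/

variable {m}

section out

variable {O : Set X}

theorem out_of_mem {x : X} (h : x ∈ O) : m.out O x = x := by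
  classical
  have h0 : ∃ k : ℕ, (m.s ^ k) x ∈ O := ⟨0, by simpa using h⟩
  have h1 : Nat.find h0 = 0 := (Nat.find_eq_zero h0).2 (by simpa using h)
  simp only [out, h0, dite_true, h1]
  simp

theorem out_of_notMem {x : X} (h : x ∉ O) (he : ∃ k : ℕ, (m.s ^ k) x ∈ O) :
    m.out O x = m.out O (m.s x) := by
  classical
  have hpow : ∀ k : ℕ, (m.s ^ k) (m.s x) = (m.s ^ (k + 1)) x := by
    intro k; rw [pow_succ, Equiv.Perm.mul_apply]
  have he' : ∃ k : ℕ, (m.s ^ k) (m.s x) ∈ O := by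
    obtain ⟨k, hk⟩ := he
    rcases k with _ | k
    · exact absurd (by simpa using hk) h
    · exact ⟨k, by rw [hpow]; exact hk⟩
  have h1 : Nat.find he = Nat.find he' + 1 := by
    rw [Nat.find_eq_iff]
    constructor
    · rw [← hpow]; exact Nat.find_spec he'
    · intro n hn
      rcases n with _ | n
      · simpa using h
      · rw [← hpow]
        exact Nat.find_min he' (by omega)
  simp only [out, he, he', dite_true]
  rw [hpow, h1]

end out

namespace Ori

variable {O : Set X} (h : m.Ori O)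
include h

theorem t_mem {x : X} (hx : x ∉ O) : m.t x ∈ O := by
  by_contra hc
  exact hx ((h.ot x).2 hc)

theorem t_notMem {x : X} (hx : x ∈ O) : m.t x ∉ O := (h.ot x).1 hx

theorem t_mem_iff (x : X) : m.t x ∈ O ↔ x ∉ O := by
  rw [h.ot x]; tauto

theorem ex_at (a : V) : ∃ b ∈ O, m.v b = a := by
  have h2 := h.deg a
  have : ({x | x ∈ O ∧ m.v x = a}).Nonempty := by
    rw [Set.nonempty_iff_ne_empty]
    intro h0
    rw [h0] at h2
    simp at h2
  obtain ⟨b, hb, hb'⟩ := this
  exact ⟨b, hb, hb'⟩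

theorem pow_ex [Finite X] (x : X) : ∃ k : ℕ, (m.s ^ k) x ∈ O := by
  obtain ⟨b, hb, hv⟩ := h.ex_at (m.v x)
  have hc : m.s.SameCycle x b := (m.vv x b).1 hv.symm
  obtain ⟨n, _, hn⟩ := hc.exists_pow_eq'
  exact ⟨n, by rw [hn]; exact hb⟩

theorem out_mem [Finite X] (x : X) : m.out O x ∈ O := by
  classical
  have he := h.pow_ex x
  simp only [out, he, dite_true]
  exact Nat.find_spec he

omit h in
theorem out_self {x : X} (hx : x ∈ O) : m.out O x = x := out_of_mem hx

theorem out_step [Finite X] {x : X} (hx : x ∉ O) : m.out O x = m.out O (m.s x) :=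
  out_of_notMem hx (h.pow_ex x)

/-- induction towards the next dart of `O` -/
theorem out_induct [Finite X] {P : X → Prop} (h0 : ∀ y ∈ O, P y)
    (h1 : ∀ y, y ∉ O → P (m.s y) → P y) (y : X) : P y := by
  obtain ⟨k, hk⟩ := h.pow_ex y
  induction k generalizing y with
  | zero => exact h0 y (by simpa using hk)
  | succ k ih =>
    by_cases hy : y ∈ O
    · exact h0 y hy
    · apply h1 y hy
      apply ih
      rw [pow_succ, Equiv.Perm.mul_apply] at hk
      exact hk

theorem v_out [Finite X] (x : X) : m.v (m.out O x) = m.v x := by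
  refine h.out_induct (P := fun x => m.v (m.out O x) = m.v x) ?_ ?_ x
  · intro y hy
    rw [out_of_mem hy]
  · intro y hy ih
    rw [h.out_step hy, ih, m.v_s]

theorem sg_mem [Finite X] (b : X) : m.sg O b ∈ O := h.out_mem _

theorem v_sg [Finite X] (b : X) : m.v (m.sg O b) = m.v b := by
  unfold sg
  rw [h.v_out, m.v_s]

/-- all darts between `s b` and `sg b` (exclusive) are not in `O`; if `sg b = b` every dart at the
vertex other than `b` is not in `O` -/
theorem sg_ne [Finite X] {b : X} (hb : b ∈ O) : m.sg O b ≠ b := by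
  intro hs
  -- every dart `y` at the vertex has `out y = b`
  have key : ∀ k : ℕ, m.out O ((m.s ^ k) b) = b := by
    intro k
    induction k with
    | zero => simpa using out_of_mem hb
    | succ k ih =>
      have e : (m.s ^ (k + 1)) b = m.s ((m.s ^ k) b) := by
        rw [pow_succ', Equiv.Perm.mul_apply]
      rw [e]
      by_cases hy : (m.s ^ k) b ∈ O
      · rw [out_of_mem hy] at ih
        rw [ih]; exact hs
      · rw [← h.out_step hy]; exact ih
  have h2 := h.deg (m.v b)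
  obtain ⟨x, y, hxy, hset⟩ := Set.ncard_eq_two.1 h2
  have all : ∀ z, z ∈ O → m.v z = m.v b → z = b := by
    intro z hz hv
    have hc : m.s.SameCycle b z := (m.vv b z).1 hv.symm
    obtain ⟨n, _, hn⟩ := hc.exists_pow_eq'
    have := key n
    rw [hn, out_of_mem hz] at this
    exact this
  have hx : x ∈ ({x, y} : Set X) := by simp
  have hy : y ∈ ({x, y} : Set X) := by simp
  rw [← hset] at hx hy
  exact hxy ((all x hx.1 hx.2).trans (all y hy.1 hy.2).symm)

theorem mem_at [Finite X] {b c : X} (hb : b ∈ O) (hc : c ∈ O) (hv : m.v c = m.v b) :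
    c = b ∨ c = m.sg O b := by
  have h2 := h.deg (m.v b)
  by_contra hcon
  push Not at hcon
  have hsub : ({b, m.sg O b, c} : Set X) ⊆ {x | x ∈ O ∧ m.v x = m.v b} := by
    intro z hz
    simp only [Set.mem_insert_iff, Set.mem_singleton_iff] at hz
    rcases hz with rfl | rfl | rfl
    · exact ⟨hb, rfl⟩
    · exact ⟨h.sg_mem _, h.v_sg _⟩
    · exact ⟨hc, hv⟩
  have h3 : ({b, m.sg O b, c} : Set X).ncard = 3 := by
    rw [Set.ncard_eq_three]
    exact ⟨b, m.sg O b, c, (h.sg_ne hb).symm, hcon.1.symm, hcon.2.symm, rfl⟩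
  have := Set.ncard_le_ncard hsub (Set.toFinite _)
  omega

theorem sg_sg [Finite X] {b : X} (hb : b ∈ O) : m.sg O (m.sg O b) = b := by
  rcases h.mem_at hb (h.sg_mem (m.sg O b)) (by rw [h.v_sg, h.v_sg]) with h1 | h1
  · exact h1
  · exact absurd h1 (h.sg_ne (h.sg_mem b))

theorem sg_inj [Finite X] {b c : X} (hb : b ∈ O) (hc : c ∈ O) (he : m.sg O b = m.sg O c) :
    b = c := by
  rw [← h.sg_sg hb, he, h.sg_sg hc]

/-- the next out-dart at a vertex -/
theorem out_at [Finite X] {b y : X} (hb : b ∈ O) (hv : m.v y = m.v b) :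
    m.out O y = b ∨ m.out O y = m.sg O b :=
  h.mem_at hb (h.out_mem y) (by rw [h.v_out, hv])

/-! ## `ph` -/

omit h in
theorem ph_of_mem {b : X} (hr : m.r b ∈ O) : m.ph O b = m.r b := by
  simp [ph, hr]

omit h in
theorem ph_of_notMem {b : X} (hr : m.r b ∉ O) : m.ph O b = m.t (m.r b) := by
  simp [ph, hr]

theorem ph_mem (b : X) : m.ph O b ∈ O := by
  by_cases hr : m.r b ∈ O
  · rw [ph_of_mem hr]; exact hr
  · rw [ph_of_notMem hr]; exact h.t_mem hr

omit h in
theorem ph_ne (b : X) : m.ph O b ≠ b := by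
  by_cases hr : m.r b ∈ O
  · rw [ph_of_mem hr]; exact m.r_ne b
  · rw [ph_of_notMem hr]; exact m.t_r_ne b

omit h in
theorem f_ph (b : X) : m.f (m.ph O b) = m.f b := by
  by_cases hr : m.r b ∈ O
  · rw [ph_of_mem hr, m.f_r]
  · rw [ph_of_notMem hr, m.f_t, m.f_r]

theorem ph_ph {b : X} (hb : b ∈ O) : m.ph O (m.ph O b) = b := by
  by_cases hr : m.r b ∈ O
  · rw [ph_of_mem hr, ph_of_mem (by rw [m.r_r]; exact hb), m.r_r]
  · rw [ph_of_notMem hr]
    have : m.r (m.t (m.r b)) = m.t b := by rw [m.r_t, m.r_r]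
    rw [ph_of_notMem (by rw [this]; exact h.t_notMem hb), this, m.tt]

/-- the `O`-corners of a face are `b` and `ph b` -/
theorem mem_face {b c : X} (hb : b ∈ O) (hc : c ∈ O) (hf : m.f c = m.f b) :
    c = b ∨ c = m.ph O b := by
  rcases (m.f_iff b c).1 hf.symm with h1 | h1 | h1 | h1
  · exact Or.inl h1
  · exact absurd (h1 ▸ hc) (h.t_notMem hb)
  · right
    rw [ph_of_mem (h1 ▸ hc), h1]
  · right
    have : m.r b ∉ O := by
      intro hr
      exact h.t_notMem hr (h1 ▸ hc)
    rw [ph_of_notMem this, h1]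

/-! ## `w` -/

omit h in
theorem w_of_mem {y : X} (hy : y ∈ O) : m.w O y = y := by simp [w, hy]

omit h in
theorem w_of_notMem {y : X} (hy : y ∉ O) : m.w O y = m.t y := by simp [w, hy]

theorem w_mem (y : X) : m.w O y ∈ O := by
  by_cases hy : y ∈ O
  · rw [w_of_mem hy]; exact hy
  · rw [w_of_notMem hy]; exact h.t_mem hy

theorem w_t (y : X) : m.w O (m.t y) = m.w O y := by
  by_cases hy : y ∈ O
  · rw [w_of_mem hy, w_of_notMem (h.t_notMem hy), m.tt]
  · rw [w_of_notMem hy, w_of_mem (h.t_mem hy)]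

/-- `w (r x) = ph (w x)` -/
theorem w_r (x : X) : m.w O (m.r x) = m.ph O (m.w O x) := by
  by_cases hx : x ∈ O
  · rw [w_of_mem hx]
    by_cases hr : m.r x ∈ O
    · rw [w_of_mem hr, ph_of_mem hr]
    · rw [w_of_notMem hr, ph_of_notMem hr]
  · rw [w_of_notMem hx]
    by_cases hr : m.r x ∈ O
    · have : m.r (m.t x) ∉ O := by rw [m.r_t]; exact h.t_notMem hr
      rw [w_of_mem hr, ph_of_notMem this, m.r_t, m.tt]
    · have : m.r (m.t x) ∈ O := by rw [m.r_t]; exact h.t_mem hr
      rw [w_of_notMem hr, ph_of_mem this, m.r_t]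

/-! ## `pr` -/

omit h in
/-- at the dart after an out-dart `pr` jumps -/
theorem pr_s_of_mem {b : X} (hb : b ∈ O) : m.pr O (m.s b) = m.sg O b := by
  simp [pr, hb]

omit h in
theorem pr_s_of_notMem {y : X} (hy : y ∉ O) : m.pr O (m.s y) = y := by
  simp [pr, hy]

theorem out_pr [Finite X] (x : X) : m.out O (m.pr O x) = m.out O x := by
  have hx : x = m.s (m.s.symm x) := by simp
  by_cases hy : m.s.symm x ∈ O
  · rw [hx, pr_s_of_mem hy, out_of_mem (h.sg_mem _)]
    rfl
  · rw [hx, pr_s_of_notMem hy, h.out_step hy]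

theorem v_pr [Finite X] (x : X) : m.v (m.pr O x) = m.v x := by
  rw [← h.v_out, h.out_pr, h.v_out]

theorem pr_inj [Finite X] : Injective (m.pr O) := by
  intro x y hxy
  have hx : x = m.s (m.s.symm x) := by simp
  have hy : y = m.s (m.s.symm y) := by simp
  by_cases h1 : m.s.symm x ∈ O
  · by_cases h2 : m.s.symm y ∈ O
    · rw [hx, hy, pr_s_of_mem h1, pr_s_of_mem h2] at hxy
      have := h.sg_inj h1 h2 hxy
      rw [hx, hy, this]
    · rw [hx, hy, pr_s_of_mem h1, pr_s_of_notMem h2] at hxy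
      exact absurd (hxy ▸ h.sg_mem _) h2
  · by_cases h2 : m.s.symm y ∈ O
    · rw [hx, hy, pr_s_of_notMem h1, pr_s_of_mem h2] at hxy
      exact absurd (hxy ▸ h.sg_mem _) h1
    · rw [hx, hy, pr_s_of_notMem h1, pr_s_of_notMem h2] at hxy
      rw [hx, hy, hxy]

/-! ## `fn` -/

theorem fn_mem [Finite X] (b : X) : m.fn O b ∈ O := h.out_mem _

theorem v_fn [Finite X] (b : X) : m.v (m.fn O b) = m.v (m.t b) := h.v_out _

end Ori

/-! ## `Sim` -/

section Sim

variable {O : Set X}

theorem Sim.refl (x : X) : m.Sim O x x := fun _ _ _ => Iff.rfl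

theorem Sim.symm {x y : X} (h : m.Sim O x y) : m.Sim O y x := fun g h1 h2 => (h g h1 h2).symm

theorem Sim.trans {x y z : X} (h : m.Sim O x y) (h' : m.Sim O y z) : m.Sim O x z :=
  fun g h1 h2 => (h g h1 h2).trans (h' g h1 h2)

theorem Sim.t (x : X) : m.Sim O (m.t x) x := fun _ h1 _ => h1 x

theorem Sim.pr (z : X) : m.Sim O (m.pr O z) (m.pr O (m.t z)) := fun _ _ h2 => h2 z

/-- use a `Sim`-invariant function with values in any type -/
theorem Sim.apply {x y : X} (h : m.Sim O x y) {β : Type} (g : X → β)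
    (h1 : ∀ y, g (m.t y) = g y) (h2 : ∀ z, g (m.pr O z) = g (m.pr O (m.t z))) : g x = g y := by
  refine (h (fun z => g z = g y) ?_ ?_).2 rfl
  · intro z; rw [h1]
  · intro z; rw [h2]

end Sim

/-! ## `Comp` -/

section Comp

variable {O : Set X}

theorem Comp.refl (x : X) : m.Comp O x x := fun _ _ _ => Iff.rfl

theorem Comp.symm {x y : X} (h : m.Comp O x y) : m.Comp O y x := fun g h1 h2 => (h g h1 h2).symm

theorem Comp.trans {x y z : X} (h : m.Comp O x y) (h' : m.Comp O y z) : m.Comp O x z :=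
  fun g h1 h2 => (h g h1 h2).trans (h' g h1 h2)

theorem Comp.sg {b : X} (hb : b ∈ O) : m.Comp O (m.sg O b) b := fun _ h1 _ => h1 b hb

theorem Comp.ph {b : X} (hb : b ∈ O) : m.Comp O (m.ph O b) b := fun _ _ h2 => h2 b hb

end Comp

/-! ## `Reg` -/

section Reg

variable {O : Set X}

theorem Reg.refl (x : X) : m.Reg O x x := ⟨0, 0, rfl⟩

theorem Reg.symm {x y : X} (h : m.Reg O x y) : m.Reg O y x := by
  obtain ⟨i, j, h⟩ := h
  exact ⟨j, i, h.symm⟩

theorem Reg.trans {x y z : X} (h : m.Reg O x y) (h' : m.Reg O y z) : m.Reg O x z := by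
  obtain ⟨i, j, h⟩ := h
  obtain ⟨k, l, h'⟩ := h'
  refine ⟨k + i, j + l, ?_⟩
  rw [Function.iterate_add_apply, h, ← Function.iterate_add_apply, Nat.add_comm k j,
    Function.iterate_add_apply, h', ← Function.iterate_add_apply]

theorem Reg.fn (x : X) : m.Reg O (m.fn O x) x := ⟨0, 1, rfl⟩

end Reg

end QMap

end KB
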