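import Mathlib

/-!
# Quadrangular maps in which every edge reverses the local orientation

`X` is the set of darts (half edges) of a map on a closed surface.  At every vertex a local
orientation is chosen; `s x` is the next dart at the same vertex in this local orientation, and
`t x` is the other dart of the same edge.  Every edge has signature `-1` (the two local
orientations at its ends disagree along the edge), so a closed walk is one-sided iff its length is
odd.  The corner between the darts `x` and `s x` is also called `x`.  The face of the corner `x`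
has the corners `x`, `t x` (across the edge of `x`), `r x` (across the edge of `s x`) and `t (r x)`,
so all faces are quadrangles.  `v x` is the vertex of the dart `x`, `f x` the face of the corner
`x`.  The Euler characteristic is `|V| - 2|F| + |F| = |V| - |F| = 0`.
-/

set_option autoImplicit false

namespace KB

open Function

/-- quadrangular map with all edges orientation reversing, Euler characteristic `0`, connected -/
structure QMap (X V F : Type) where
  /-- rotation -/
  s : Equiv.Perm X
  /-- reverse dart -/
  t : X → X
  /-- vertex of a dart -/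
  v : X → V
  /-- face of a corner -/
  f : X → F
  tt : ∀ x, t (t x) = x
  tne : ∀ x, t x ≠ x
  rt : ∀ x, s.symm (t (s (t x))) = t (s.symm (t (s x)))
  rne : ∀ x, s.symm (t (s x)) ≠ t x
  vv : ∀ x y, v x = v y ↔ s.SameCycle x y
  ff : ∀ x y, f x = f y ↔
    (y = x ∨ y = t x ∨ y = s.symm (t (s x)) ∨ y = t (s.symm (t (s x))))
  vs : Surjective v
  fs : Surjective f
  conn : ∀ g : X → Prop, (∀ x, g (s x) ↔ g x) → (∀ x, g (t x) ↔ g x) → ∀ x y, g x → g y
  eul : Nat.card V = Nat.card F

variable {X V F : Type}

namespace QMap

variable (m : QMap X V F)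

/-- the corner of the same face across the edge of `s x` -/
def r (x : X) : X := m.s.symm (m.t (m.s x))

/-- first dart of `O` at or after `x` -/
noncomputable def out (O : Set X) (x : X) : X := by
  classical
  exact if h : ∃ k : ℕ, (m.s ^ k) x ∈ O then (m.s ^ (Nat.find h)) x else x

/-- the other out-dart at the vertex -/
noncomputable def sg (O : Set X) (b : X) : X := m.out O (m.s b)

/-- the other `O`-corner of the face -/
noncomputable def ph (O : Set X) (b : X) : X := by
  classical
  exact if m.r b ∈ O then m.r b else m.t (m.r b)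

/-- inverse rotation of the split vertices -/
noncomputable def pr (O : Set X) (x : X) : X := by
  classical
  exact if m.s.symm x ∈ O then m.sg O (m.s.symm x) else m.s.symm x

/-- the dart of the edge of `y` that lies in `O` -/
noncomputable def w (O : Set X) (y : X) : X := by
  classical
  exact if y ∈ O then y else m.t y

/-- next dart of the functional graph of half vertices -/
noncomputable def fn (O : Set X) (b : X) : X := m.out O (m.t b)

/-- `O` is a 2-orientation: one dart of every edge, exactly two darts at every vertex -/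
structure Ori (O : Set X) : Prop where
  ot : ∀ x, x ∈ O ↔ m.t x ∉ O
  deg : ∀ a : V, {x | x ∈ O ∧ m.v x = a}.ncard = 2

/-- equivalence generated by `y ~ t y` and `pr z ~ pr (t z)` -/
def Sim (O : Set X) (x y : X) : Prop :=
  ∀ g : X → Prop, (∀ y, g (m.t y) ↔ g y) →
    (∀ z, g (m.pr O z) ↔ g (m.pr O (m.t z))) → (g x ↔ g y)

/-- same component of the 2-factor of `O`-corners -/
def Comp (O : Set X) (b c : X) : Prop :=
  ∀ g : X → Prop, (∀ b ∈ O, g (m.sg O b) ↔ g b) → (∀ b ∈ O, g (m.ph O b) ↔ g b) → (g b ↔ g c)

/-- same component of the functional graph -/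
def Reg (O : Set X) (b c : X) : Prop := ∃ i j : ℕ, (m.fn O)^[i] b = (m.fn O)^[j] c

/-- periodic darts of the functional graph -/
def per (O : Set X) : Set X := {b | b ∈ O ∧ b ∈ periodicPts (m.fn O)}

/-- reversal of the darts of `Γ` -/
def rev (O Γ : Set X) : Set X := {x | (x ∈ O ∧ x ∉ Γ) ∨ m.t x ∈ Γ}

/-- at every vertex the set `Γ` has as many tails as heads -/
def Bal (Γ : Set X) : Prop :=
  ∀ a : V, {x | x ∈ Γ ∧ m.v x = a}.ncard = {x | x ∈ Γ ∧ m.v (m.t x) = a}.ncard

/-- a transversal of the edges closed under `r` -/
structure Tr (T : Set X) : Prop where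
  tT : ∀ x, x ∈ T ↔ m.t x ∉ T
  rT : ∀ x, m.r x ∈ T ↔ x ∈ T

/-- the two faces at the edge of `x` are joined when the edge is not inside `Y` -/
def J (Y : Set V) (a b : F) : Prop :=
  ∃ x, ¬ (m.v x ∈ Y ∧ m.v (m.t x) ∈ Y) ∧ a = m.f x ∧ b = m.f (m.s.symm x)

/-- number of regions of the complement of the subgraph induced by `Y` -/
noncomputable def R (Y : Set V) : ℕ := Nat.card (Quot (m.J Y))

/-- number of darts (twice the number of edges) inside `Y` -/
noncomputable def d (Y : Set V) : ℕ := {x | m.v x ∈ Y ∧ m.v (m.t x) ∈ Y}.ncard

/-- every nonempty vertex set `Y` has at most `|Y|` regions -/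
def Tough : Prop := ∀ Y : Set V, Y.Nonempty → m.R Y ≤ Y.ncard

/-- proper 2-colouring of the subgraph induced by `K` -/
def Col (K : Set V) : Prop :=
  ∃ c : V → Bool, ∀ x, m.v x ∈ K → m.v (m.t x) ∈ K → c (m.v x) ≠ c (m.v (m.t x))

/-- the vertex graph is bipartite -/
def Bip : Prop := ∃ c : V → Bool, ∀ x, c (m.v x) ≠ c (m.v (m.t x))

/-- `G` lies between the vertex-face graph and the vertex-face graph plus the edges of the map -/
structure Btw (G : SimpleGraph (V ⊕ F)) : Prop where
  vf : ∀ a b, G.Adj (Sum.inl a) (Sum.inr b) ↔ ∃ x, m.v x = a ∧ m.f x = b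
  ff : ∀ a b, ¬ G.Adj (Sum.inr a) (Sum.inr b)
  vv : ∀ a b, G.Adj (Sum.inl a) (Sum.inl b) → ∃ x, m.v x = a ∧ m.v (m.t x) = b

end QMap

/-- 4-connected, as in the frozen statement -/
def FourConn {W : Type} [Fintype W] (G : SimpleGraph W) : Prop :=
  5 ≤ Fintype.card W ∧ ∀ S : Finset W, S.card < 4 → (G.induce ((S : Set W)ᶜ)).Connected

end KB
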