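import Pool.Agent.KB.Basic

/-!
# COL and HOL: a common proper 2-colouring of `sg` and `ph`, and the holonomy of one component
-/

set_option autoImplicit false

namespace KB

open Function

namespace KB_COL

/-- two fixed point free involutions have a common proper 2-colouring -/
theorem two_col {α : Type} [Finite α] (σ π : Equiv.Perm α) (hσ : ∀ x, σ (σ x) = x)
    (hπ : ∀ x, π (π x) = x) (hσn : ∀ x, σ x ≠ x) (hπn : ∀ x, π x ≠ x) :
    ∃ c : α → Bool, ∀ x, c (σ x) ≠ c x ∧ c (π x) ≠ c x := by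
  classical
  set h : Equiv.Perm α := π * σ with hh
  have hσσ : σ * σ = 1 := Equiv.ext hσ
  have hππ : π * π = 1 := Equiv.ext hπ
  have hσi : σ⁻¹ = σ := inv_eq_of_mul_eq_one_left hσσ
  have hπi : π⁻¹ = π := inv_eq_of_mul_eq_one_left hππ
  have hinv : h⁻¹ = σ * π := by rw [hh, mul_inv_rev, hσi, hπi]
  have hconj : ∀ i : ℤ, σ * h ^ i = h ^ (-i) * σ := by
    intro i
    have h1 : σ * h * σ⁻¹ = h⁻¹ := by
      rw [hinv, hh, hσi, mul_assoc, mul_assoc, hσσ, mul_one]
    have h2 : σ * h ^ i * σ⁻¹ = h ^ (-i) := by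
      rw [← conj_zpow, h1, inv_zpow, zpow_neg]
    rw [← h2, hσi, mul_assoc (σ * h ^ i), hσσ, mul_one]
  have hconj' : ∀ (i : ℤ) (x : α), σ ((h ^ i) x) = (h ^ (-i)) (σ x) := by
    intro i x
    have := congrArg (fun p : Equiv.Perm α => p x) (hconj i)
    simpa [Equiv.Perm.mul_apply] using this
  have key : ∀ x, ¬ h.SameCycle x (σ x) := by
    rintro x ⟨i, hi⟩
    rcases Int.even_or_odd' i with ⟨k, rfl | rfl⟩
    · apply hσn ((h ^ k) x)
      rw [hconj' k x, ← hi, ← Equiv.Perm.mul_apply, ← zpow_add]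
      congr 2
      ring
    · apply hπn (σ ((h ^ k) x))
      have e1 : σ ((h ^ k) x) = (h ^ (k + 1)) x := by
        rw [hconj' k x, ← hi, ← Equiv.Perm.mul_apply, ← zpow_add]
        congr 2
        ring
      have e2 : (h ^ (k + 1)) x = π (σ ((h ^ k) x)) := by
        rw [add_comm, zpow_add, zpow_one, Equiv.Perm.mul_apply]
        rfl
      rw [← e2, e1]
  let Q := Quotient (Equiv.Perm.SameCycle.setoid h)
  haveI : Finite Q := Quotient.finite _
  obtain ⟨n, ⟨e⟩⟩ := Finite.exists_equiv_fin Q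
  let mm : α → Fin n := fun x => e (Quotient.mk (Equiv.Perm.SameCycle.setoid h) x)
  have hmm : ∀ x y, mm x = mm y ↔ h.SameCycle x y := by
    intro x y
    constructor
    · intro hxy
      exact Quotient.exact (e.injective hxy)
    · intro hxy
      show e _ = e _
      congr 1
      exact Quotient.sound hxy
  have hne : ∀ x, mm x ≠ mm (σ x) := fun x hx => key x ((hmm _ _).1 hx)
  have hpi : ∀ x, mm (π x) = mm (σ x) := by
    intro x
    rw [hmm]
    refine ⟨-1, ?_⟩
    rw [zpow_neg, zpow_one, hinv, Equiv.Perm.mul_apply, hπ]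
  have hspi : ∀ x, mm (σ (π x)) = mm x := by
    intro x
    rw [hmm]
    refine ⟨1, ?_⟩
    rw [zpow_one, hh, Equiv.Perm.mul_apply, hσ, hπ]
  refine ⟨fun x => decide (mm x < mm (σ x)), fun x => ⟨?_, ?_⟩⟩
  · show decide (mm (σ x) < mm (σ (σ x))) ≠ decide (mm x < mm (σ x))
    rw [hσ]
    rcases lt_or_gt_of_ne (hne x) with h1 | h1
    · simp [h1, h1.le]
    · simp [h1, h1.le]
  · show decide (mm (π x) < mm (σ (π x))) ≠ decide (mm x < mm (σ x))
    rw [hspi, hpi]
    rcases lt_or_gt_of_ne (hne x) with h1 | h1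
    · simp [h1, h1.le]
    · simp [h1, h1.le]

/-- a function with sum zero on a single cycle is a coboundary -/
theorem potential {Ω : Type} [Fintype Ω] (h : Equiv.Perm Ω) (htr : ∀ x y, h.SameCycle x y)
    (θ : Ω → ZMod 2) (hs : ∑ x, θ x = 0) : ∃ G : Ω → ZMod 2, ∀ x, G (h x) = G x + θ x := by
  classical
  by_cases hne : Nonempty Ω
  swap
  · exact ⟨fun _ => 0, fun x => absurd ⟨x⟩ hne⟩
  obtain ⟨b0⟩ := hne
  have hcyc : h.IsCycleOn ((Finset.univ : Finset Ω) : Set Ω) := by
    refine ⟨?_, fun x _ y _ => htr x y⟩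
    simpa using h.bijective
  have hb0 : b0 ∈ (Finset.univ : Finset Ω) := Finset.mem_univ _
  let F : ℕ → ZMod 2 := fun k => ∑ i ∈ Finset.range k, θ ((h ^ i) b0)
  have hFn : F (Finset.univ : Finset Ω).card = 0 := by
    rw [← hs]
    refine Finset.sum_bij (fun i _ => (h ^ i) b0) (fun _ _ => Finset.mem_univ _) ?_ ?_
      (fun _ _ => rfl)
    · intro i hi j hj hij
      have := (hcyc.pow_apply_eq_pow_apply hb0).1 hij
      exact Nat.ModEq.eq_of_lt_of_lt this (Finset.mem_range.1 hi) (Finset.mem_range.1 hj)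
    · intro x hx
      obtain ⟨k, hk, hk'⟩ := hcyc.exists_pow_eq hb0 hx
      exact ⟨k, Finset.mem_range.2 hk, hk'⟩
  have hper : ∀ k, F (k + (Finset.univ : Finset Ω).card) = F k := by
    intro k
    induction k with
    | zero => rw [zero_add, hFn]; simp [F]
    | succ k ih =>
      have e1 : F (k + 1 + (Finset.univ : Finset Ω).card)
          = F (k + (Finset.univ : Finset Ω).card)
            + θ ((h ^ (k + (Finset.univ : Finset Ω).card)) b0) := by
        have : k + 1 + (Finset.univ : Finset Ω).card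
            = k + (Finset.univ : Finset Ω).card + 1 := by ring
        rw [this]
        exact Finset.sum_range_succ _ _
      have e2 : F (k + 1) = F k + θ ((h ^ k) b0) := Finset.sum_range_succ _ _
      have e3 : (h ^ (k + (Finset.univ : Finset Ω).card)) b0 = (h ^ k) b0 := by
        rw [hcyc.pow_apply_eq_pow_apply hb0]
        exact Nat.add_modEq_right
      rw [e1, e2, ih, e3]
  have hperm : ∀ j k, F (k + (Finset.univ : Finset Ω).card * j) = F k := by
    intro j
    induction j with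
    | zero => intro k; simp
    | succ j ih =>
      intro k
      have : k + (Finset.univ : Finset Ω).card * (j + 1)
          = (k + (Finset.univ : Finset Ω).card * j) + (Finset.univ : Finset Ω).card := by ring
      rw [this, hper, ih]
  have hwd : ∀ k l, (h ^ k) b0 = (h ^ l) b0 → F k = F l := by
    have aux : ∀ k l, k ≤ l → (h ^ k) b0 = (h ^ l) b0 → F k = F l := by
      intro k l hkl hx
      have hmod := (hcyc.pow_apply_eq_pow_apply hb0).1 hx
      obtain ⟨j, hj⟩ := (Nat.modEq_iff_dvd' hkl).1 hmod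
      have : l = k + (Finset.univ : Finset Ω).card * j := by omega
      rw [this, hperm]
    intro k l hx
    rcases le_total k l with hkl | hkl
    · exact aux k l hkl hx
    · exact (aux l k hkl hx.symm).symm
  have hex : ∀ x, ∃ k : ℕ, (h ^ k) b0 = x := by
    intro x
    obtain ⟨k, _, hk⟩ := hcyc.exists_pow_eq hb0 (Finset.mem_univ x)
    exact ⟨k, hk⟩
  choose κ hκ using hex
  refine ⟨fun x => F (κ x), fun x => ?_⟩
  have e1 : F (κ (h x)) = F (κ x + 1) := by
    apply hwd
    rw [hκ, pow_succ', Equiv.Perm.mul_apply, hκ]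
  have e2 : F (κ x + 1) = F (κ x) + θ ((h ^ (κ x)) b0) := Finset.sum_range_succ _ _
  show F (κ (h x)) = F (κ x) + θ x
  rw [e1, e2, hκ]

theorem dec_iff (u v : ZMod 2) : (decide (u = 0) = decide (v = 0)) ↔ u = v := by
  revert u v; decide

end KB_COL

open KB_COL

theorem t_COL : S_COL := by
  classical
  intro X V F _ _ _ m O h
  let σ : Equiv.Perm O :=
    { toFun := fun b => ⟨m.sg O b, h.sg_mem _⟩
      invFun := fun b => ⟨m.sg O b, h.sg_mem _⟩
      left_inv := fun b => Subtype.ext (h.sg_sg b.2)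
      right_inv := fun b => Subtype.ext (h.sg_sg b.2) }
  let π : Equiv.Perm O :=
    { toFun := fun b => ⟨m.ph O b, h.ph_mem _⟩
      invFun := fun b => ⟨m.ph O b, h.ph_mem _⟩
      left_inv := fun b => Subtype.ext (h.ph_ph b.2)
      right_inv := fun b => Subtype.ext (h.ph_ph b.2) }
  obtain ⟨c, hc⟩ := two_col σ π (fun b => Subtype.ext (h.sg_sg b.2))
    (fun b => Subtype.ext (h.ph_ph b.2))
    (fun b hb => h.sg_ne b.2 (congrArg Subtype.val hb))
    (fun b hb => QMap.Ori.ph_ne b.1 (congrArg Subtype.val hb))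
  refine ⟨fun x => if hx : x ∈ O then c ⟨x, hx⟩ else false, fun b hb => ?_⟩
  have h1 := (hc ⟨b, hb⟩).1
  have h2 := (hc ⟨b, hb⟩).2
  have e1 : m.sg O b ∈ O := h.sg_mem _
  have e2 : m.ph O b ∈ O := h.ph_mem _
  constructor
  · simp only [e1, hb, dite_true]
    exact h1
  · simp only [e2, hb, dite_true]
    exact h2

theorem t_HOL (hcol : S_COL) : S_HOL := by
  classical
  intro X V F _ _ _ m O T C h hT hCO hsg hph hconn heven
  obtain ⟨c, hc⟩ := hcol X V F m O h
  have hcs : ∀ b ∈ C, c (m.sg O b) = !c b := by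
    intro b hb
    have := (hc b (hCO hb)).1
    revert this
    cases c (m.sg O b) <;> cases c b <;> simp
  have hcp : ∀ b ∈ C, c (m.ph O b) = !c b := by
    intro b hb
    have := (hc b (hCO hb)).2
    revert this
    cases c (m.ph O b) <;> cases c b <;> simp
  haveI : Fintype X := Fintype.ofFinite X
  let Cf : Finset X := C.toFinset
  let S : Finset X := Cf.filter (fun b => c b = false)
  let S' : Finset X := Cf.filter (fun b => c b = true)
  have hS : ∀ b, b ∈ S ↔ b ∈ C ∧ c b = false := by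
    intro b; simp [S, Cf]
  have hS' : ∀ b, b ∈ S' ↔ b ∈ C ∧ c b = true := by
    intro b; simp [S', Cf]
  let hh : Equiv.Perm S :=
    { toFun := fun b => ⟨m.ph O (m.sg O b), by
        have hb := (hS b.1).1 b.2
        rw [hS]
        refine ⟨hph _ (hsg _ hb.1), ?_⟩
        rw [hcp _ (hsg _ hb.1), hcs _ hb.1, hb.2]
        rfl⟩
      invFun := fun b => ⟨m.sg O (m.ph O b), by
        have hb := (hS b.1).1 b.2
        rw [hS]
        refine ⟨hsg _ (hph _ hb.1), ?_⟩
        rw [hcs _ (hph _ hb.1), hcp _ hb.1, hb.2]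
        rfl⟩
      left_inv := fun b => by
        have hb := (hS b.1).1 b.2
        apply Subtype.ext
        show m.sg O (m.ph O (m.ph O (m.sg O b))) = b
        rw [h.ph_ph (h.sg_mem _), h.sg_sg (hCO hb.1)]
      right_inv := fun b => by
        have hb := (hS b.1).1 b.2
        apply Subtype.ext
        show m.ph O (m.sg O (m.sg O (m.ph O b))) = b
        rw [h.sg_sg (h.ph_mem _), h.ph_ph (hCO hb.1)] }
  have hhv : ∀ b : S, (hh b).1 = m.ph O (m.sg O b) := fun b => rfl
  have hhs : ∀ b : S, (hh.symm b).1 = m.sg O (m.ph O b) := fun b => rfl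
  have htr : ∀ x y : S, hh.SameCycle x y := by
    intro x y
    have hx := (hS x.1).1 x.2
    have hy := (hS y.1).1 y.2
    let P : X → Prop := fun z => ∃ w : S, hh.SameCycle x w ∧ (z = w.1 ∨ z = m.sg O w.1)
    have f1 : ∀ b, P b → P (m.sg O b) := by
      rintro b ⟨w, hw, rfl | rfl⟩
      · exact ⟨w, hw, Or.inr rfl⟩
      · refine ⟨w, hw, Or.inl ?_⟩
        exact h.sg_sg (hCO ((hS w.1).1 w.2).1)
    have f2 : ∀ b, P b → P (m.ph O b) := by
      rintro b ⟨w, hw, rfl | rfl⟩
      · refine ⟨hh.symm w, ?_, Or.inr ?_⟩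
        · exact hw.trans ⟨-1, by simp⟩
        · rw [hhs, h.sg_sg (h.ph_mem _)]
      · refine ⟨hh w, ?_, Or.inl ?_⟩
        · exact hw.trans ⟨1, by simp⟩
        · rw [hhv]
    have hP := hconn x.1 hx.1 y.1 hy.1 P
      (fun b hb => ⟨fun hp => by have := f1 _ hp; rwa [h.sg_sg hb] at this, f1 b⟩)
      (fun b hb => ⟨fun hp => by have := f2 _ hp; rwa [h.ph_ph hb] at this, f2 b⟩)
    have hPx : P x.1 := ⟨x, Equiv.Perm.SameCycle.refl _ _, Or.inl rfl⟩
    obtain ⟨w, hw, hyw | hyw⟩ := hP.1 hPx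
    · have : y = w := Subtype.ext hyw
      rw [this]; exact hw
    · exfalso
      have hw' := (hS w.1).1 w.2
      have h1 := hcs w.1 hw'.1
      rw [← hyw, hy.2, hw'.2] at h1
      simp at h1
  let τ : X → ZMod 2 := fun b => if b ∈ T then 1 else 0
  let θ : X → ZMod 2 := fun b => 1 + τ b + τ (m.sg O b)
  have hcard : S'.card = S.card := by
    refine Finset.card_bij (fun b _ => m.sg O b) ?_ ?_ ?_
    · intro b hb
      have hb' := (hS' b).1 hb
      rw [hS]
      exact ⟨hsg _ hb'.1, by rw [hcs _ hb'.1, hb'.2]; rfl⟩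
    · intro a ha b hb hab
      exact h.sg_inj (hCO ((hS' a).1 ha).1) (hCO ((hS' b).1 hb).1) hab
    · intro b hb
      have hb' := (hS b).1 hb
      refine ⟨m.sg O b, ?_, h.sg_sg (hCO hb'.1)⟩
      rw [hS']
      exact ⟨hsg _ hb'.1, by rw [hcs _ hb'.1, hb'.2]; rfl⟩
  have hsum' : ∑ b ∈ S, τ (m.sg O b) = ∑ b ∈ S', τ b := by
    refine Finset.sum_bij (fun b _ => m.sg O b) ?_ ?_ ?_ (fun _ _ => rfl)
    · intro b hb
      have hb' := (hS b).1 hb
      rw [hS']
      exact ⟨hsg _ hb'.1, by rw [hcs _ hb'.1, hb'.2]; rfl⟩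
    · intro a ha b hb hab
      exact h.sg_inj (hCO ((hS a).1 ha).1) (hCO ((hS b).1 hb).1) hab
    · intro b hb
      have hb' := (hS' b).1 hb
      refine ⟨m.sg O b, ?_, h.sg_sg (hCO hb'.1)⟩
      rw [hS]
      exact ⟨hsg _ hb'.1, by rw [hcs _ hb'.1, hb'.2]; rfl⟩
  have hdisj : Disjoint S S' := by
    rw [Finset.disjoint_left]
    intro b hb hb'
    have h1 := ((hS b).1 hb).2
    have h2 := ((hS' b).1 hb').2
    rw [h1] at h2
    exact absurd h2 (by simp)
  have hunion : S ∪ S' = Cf := by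
    ext b
    rw [Finset.mem_union, hS, hS']
    have : b ∈ Cf ↔ b ∈ C := by simp [Cf]
    rw [this]
    cases c b <;> simp
  have hCcard : C.ncard = S.card + S.card := by
    have h1 : C.ncard = Cf.card := by
      rw [Set.ncard_eq_toFinset_card' C]
    rw [h1, ← hunion, Finset.card_union_of_disjoint hdisj, hcard]
  have hTcard : ((C ∩ T).ncard : ZMod 2) = ∑ b ∈ Cf, τ b := by
    have h1 : (C ∩ T).ncard = (Cf.filter (fun b => b ∈ T)).card := by
      rw [Set.ncard_eq_toFinset_card' (C ∩ T)]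
      congr 1
      ext b
      simp [Cf]
    rw [h1, Finset.card_filter]
    push_cast
    rfl
  have hsum : ∑ x : S, θ x.1 = 0 := by
    rw [Finset.sum_coe_sort S (fun b => θ b)]
    have h1 : ∑ b ∈ S, θ b = (S.card : ZMod 2) + ((C ∩ T).ncard : ZMod 2) := by
      rw [hTcard, ← hunion, Finset.sum_union hdisj, ← hsum']
      simp only [θ, Finset.sum_add_distrib]
      simp
      ring
    rw [h1]
    have h2 : C.ncard / 2 = S.card := by omega
    rw [h2] at heven
    rw [← Nat.cast_add]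
    exact (ZMod.natCast_eq_zero_iff_even).2 heven
  obtain ⟨G, hG⟩ := potential hh htr (fun x => θ x.1) hsum
  -- extend
  let g1 : X → ZMod 2 := fun b =>
    if hb : b ∈ S then G ⟨b, hb⟩ else (if hb : m.ph O b ∈ S then G ⟨m.ph O b, hb⟩ else 0)
  have g1S : ∀ b (hb : b ∈ S), g1 b = G ⟨b, hb⟩ := by
    intro b hb
    simp only [g1, hb, dite_true]
  have g1S' : ∀ b (hb : b ∈ C) (hc' : c b = true) (hp : m.ph O b ∈ S),
      g1 b = G ⟨m.ph O b, hp⟩ := by
    intro b hb hc' hp
    have hn : b ∉ S := by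
      rw [hS]; rintro ⟨_, h2⟩; rw [h2] at hc'; exact absurd hc' (by simp)
    simp only [g1, hn, hp, dite_true, dite_false]
  have hph1 : ∀ b ∈ C, g1 (m.ph O b) = g1 b := by
    intro b hb
    cases hcb : c b
    · have hbS : b ∈ S := (hS b).2 ⟨hb, hcb⟩
      have hp : m.ph O (m.ph O b) ∈ S := by rw [h.ph_ph (hCO hb)]; exact hbS
      rw [g1S b hbS, g1S' (m.ph O b) (hph _ hb) (by rw [hcp _ hb, hcb]; rfl) hp]
      congr 1
      exact Subtype.ext (h.ph_ph (hCO hb))
    · have hp : m.ph O b ∈ S := (hS _).2 ⟨hph _ hb, by rw [hcp _ hb, hcb]; rfl⟩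
      rw [g1S' b hb hcb hp, g1S _ hp]
  have hsg0 : ∀ b ∈ S, g1 (m.sg O b) = g1 b + θ b := by
    intro b hbS
    have hb := (hS b).1 hbS
    have hp : m.ph O (m.sg O b) ∈ S := (hh ⟨b, hbS⟩).2
    rw [g1S b hbS, g1S' (m.sg O b) (hsg _ hb.1) (by rw [hcs _ hb.1, hb.2]; rfl) hp]
    exact hG ⟨b, hbS⟩
  have hθ : ∀ b ∈ C, θ (m.sg O b) = θ b := by
    intro b hb
    simp only [θ, h.sg_sg (hCO hb)]
    ring
  have two : ∀ u : ZMod 2, u + u = 0 := by decide
  have hsg1 : ∀ b ∈ C, g1 (m.sg O b) = g1 b + θ b := by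
    intro b hb
    cases hcb : c b
    · exact hsg0 b ((hS b).2 ⟨hb, hcb⟩)
    · have hs : m.sg O b ∈ S := (hS _).2 ⟨hsg _ hb, by rw [hcs _ hb, hcb]; rfl⟩
      have h1 := hsg0 _ hs
      rw [h.sg_sg (hCO hb), hθ b hb] at h1
      rw [h1, add_assoc, two, add_zero]
  have hτ : ∀ b ∈ C, (τ (m.ph O b) = τ b ↔ m.r b ∈ O) := by
    intro b hb
    by_cases hr : m.r b ∈ O
    · rw [QMap.Ori.ph_of_mem hr]
      simp only [τ, hT.rT b, hr]
    · rw [QMap.Ori.ph_of_notMem hr]
      have h1 : m.t (m.r b) ∈ T ↔ b ∉ T := by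
        have := hT.tT (m.r b)
        rw [hT.rT b] at this
        tauto
      by_cases hbT : b ∈ T
      · have h2 : m.t (m.r b) ∉ T := fun hx => (h1.1 hx) hbT
        simp [τ, hbT, h2, hr]
      · have h2 : m.t (m.r b) ∈ T := h1.2 hbT
        simp [τ, hbT, h2, hr]
  refine ⟨fun b => decide (g1 b + τ b = 0), ?_, ?_⟩
  · intro b hb hcon
    have h1 := (dec_iff _ _).1 hcon
    rw [hsg1 b hb] at h1
    simp only [θ] at h1
    have h2 : ∀ u v w : ZMod 2, u + (1 + v + w) + w = u + v → False := by decide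
    exact h2 _ _ _ h1
  · intro b hb
    show (decide (g1 (m.ph O b) + τ (m.ph O b) = 0) = decide (g1 b + τ b = 0)) ↔ m.r b ∈ O
    rw [dec_iff, hph1 b hb, ← hτ b hb]
    exact add_right_inj _

end KB
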