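import Pool.Agent.KB.KB_RL

/-!
# The final steps F1 (bipartite) and F2 (non bipartite)
-/

set_option autoImplicit false

namespace KB

open Function

namespace KB_F

open KB_PC KB_RL

variable {X V F : Type} {m : QMap X V F} {O : Set X}

theorem sim_comp [Finite X] [Finite V] [Finite F] (h : m.Ori O) {b c : X} (hb : b ∈ O)
    (hc : c ∈ O) (hs : m.Sim O b c) : m.Comp O b c := by
  have := t_K2 X V F m O h b c hs
  rwa [QMap.Ori.w_of_mem hb, QMap.Ori.w_of_mem hc] at this

theorem reg_t [Finite X] (h : m.Ori O) (z : X) : m.Reg O (m.out O (m.t z)) (m.out O z) :=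
  by
    have := RI h (QMap.Sim.t (m := m) (O := O) z)
    exact this

/-- a region closed under `sg` at the periodic darts is everything -/
theorem single [Finite X] [Finite V] [Finite F] (h : m.Ori O) {x0 : X} (h0 : x0 ∈ m.per O)
    (h1 : m.Reg O (m.sg O x0) x0) (h2 : m.Reg O (m.sg O (m.fn O x0)) (m.fn O x0)) :
    ∀ c ∈ O, m.Reg O c x0 := by
  have key : ∀ c ∈ O, m.Reg O c x0 → m.Reg O (m.sg O c) c := by
    intro c hc hr
    have hr' : m.Reg O (m.out O c) x0 := by rw [QMap.out_of_mem hc]; exact hr
    obtain ⟨x', hx', hs, hg⟩ : ∃ x', x' ∈ m.per O ∧ m.Sim O c x' ∧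
        m.Reg O (m.sg O x') x' := by
      rcases P4 h x0 h0 c hr' with hs | hs
      · exact ⟨x0, h0, hs, h1⟩
      · exact ⟨m.fn O x0, per_fn h h0, hs, h2⟩
    have hcx : m.Reg O c x' := RI' h hc hx'.1 hs
    rcases t_K1 X V F m O h x' hx'.1 c hc (sim_comp h hc hx'.1 hs).symm with h3 | h3
    · exact ((RI' h (h.sg_mem c) (h.sg_mem x') h3.2).trans hg).trans hcx.symm
    · exact (RI' h (h.sg_mem c) hx'.1 h3.2).trans hcx.symm
  have hg := m.conn (fun y => m.Reg O (m.out O y) x0) ?_ ?_
  · intro c hc
    have := hg x0 c (by rw [QMap.out_of_mem h0.1]; exact QMap.Reg.refl _)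
    rwa [QMap.out_of_mem hc] at this
  · intro y
    by_cases hy : y ∈ O
    · rw [QMap.out_of_mem hy]
      show m.Reg O (m.sg O y) x0 ↔ m.Reg O y x0
      constructor
      · intro hh
        have := key _ (h.sg_mem y) hh
        rw [h.sg_sg hy] at this
        exact this.trans hh
      · intro hh
        exact (key y hy hh).trans hh
    · rw [← h.out_step hy]
  · intro y
    exact ⟨fun hh => (reg_t h y).symm.trans hh, fun hh => (reg_t h y).trans hh⟩

/-- choose a minimal set -/
theorem ex_min (P : Set X → Prop) (f : Set X → ℕ) (hP : ∃ O, P O) :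
    ∃ O, P O ∧ ∀ O', P O' → f O ≤ f O' := by
  classical
  have hex : ∃ n, ∃ O, P O ∧ f O = n := by
    obtain ⟨O, hO⟩ := hP
    exact ⟨f O, O, hO, rfl⟩
  obtain ⟨O, hO, hn⟩ := Nat.find_spec hex
  refine ⟨O, hO, fun O' hO' => ?_⟩
  rw [hn]
  exact Nat.find_min' hex ⟨O', hO', rfl⟩

theorem card_O [Finite X] (h : m.Ori O) : 2 * O.ncard = Nat.card X := by
  have e : (Oᶜ).ncard = O.ncard := by
    symm
    apply Set.ncard_congr (fun x _ => m.t x)
    · intro x hx
      exact h.t_notMem hx
    · intro x y _ _ he
      exact m.t_inj he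
    · intro y hy
      exact ⟨m.t y, h.t_mem hy, m.tt y⟩
  have := Set.ncard_add_ncard_compl O
  omega

theorem even_of_invol [Finite X] (C : Set X) (i : X → X) (h1 : ∀ x ∈ C, i x ∈ C)
    (h2 : ∀ x ∈ C, i (i x) = x) (h3 : ∀ x ∈ C, i x ≠ x) : Even C.ncard := by
  classical
  have := Fintype.ofFinite X
  rw [Set.ncard_eq_toFinset_card' C]
  have hs : ∑ x ∈ C.toFinset, (1 : ZMod 2) = 0 := by
    apply Finset.sum_involution (fun x _ => i x)
    · intro x _
      decide
    · intro x hx _
      exact h3 x (by simpa using hx)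
    · intro x hx
      simpa using h1 x (by simpa using hx)
    · intro x hx
      exact h2 x (by simpa using hx)
  rw [Finset.sum_const, nsmul_eq_mul, mul_one] at hs
  exact (ZMod.natCast_eq_zero_iff_even).1 hs

end KB_F

open KB_F KB_PC KB_RL

theorem t_F1 (hRV : S_RV) (hCOL : S_COL) : S_F1 := by
  intro X V F _ _ _ m hb hex
  obtain ⟨O, h, hmin⟩ := ex_min (fun O => m.Ori O) (fun O => (m.per O).ncard) hex
  refine ⟨O, h, ?_⟩
  have hall : ∀ x ∈ m.per O, m.Reg O (m.sg O x) x := by
    intro x hx
    by_contra hc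
    obtain ⟨O', h', hlt, _⟩ := t_RL hRV X V F m O h x hx hc
    have := hmin O' h'
    omega
  -- the two classes at a vertex differ
  obtain ⟨c0, hc0⟩ := hb
  obtain ⟨c1, hc1⟩ := hCOL X V F m O h
  have hsym : ∀ x, m.v (m.r x) = m.v (m.t (m.s x)) := by
    intro x
    rw [← m.v_s (m.r x), m.s_r]
  have hv : ∀ x, c0 (m.v (m.r x)) ≠ c0 (m.v x) := by
    intro x
    have := hc0 (m.s x)
    rw [m.v_s] at this
    rw [hsym]
    exact this.symm
  have hKG := t_KG X V F m O O (fun b => xor (c1 b) (c0 (m.v b))) h (fun _ hx => hx)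
    (fun b hbO => ⟨fun _ => hbO, fun _ => h.sg_mem b⟩)
    (fun b hbO => ⟨fun _ => hbO, fun _ => h.ph_mem b⟩) ?_ ?_
  · intro b hb c hc
    obtain ⟨n, hx⟩ := ev_per h hb
    set x := (m.fn O)^[n] b with hxd
    have hsing := single h hx (hall x hx) (hall _ (per_fn h hx))
    have hns := hKG x hx.1
    have cls : ∀ e ∈ O, m.Sim O e x ∨ m.Sim O e (m.fn O x) := by
      intro e he
      apply P4 h x hx e
      rw [QMap.out_of_mem he]
      exact hsing e he
    have hsx : m.Sim O (m.sg O x) (m.fn O x) := (cls _ (h.sg_mem x)).resolve_left hns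
    have hall' : ∀ e ∈ O, m.Comp O e x := by
      intro e he
      rcases cls e he with h1 | h1
      · exact sim_comp h he hx.1 h1
      · exact ((sim_comp h he (h.fn_mem x) h1).trans
          (sim_comp h (h.sg_mem x) (h.fn_mem x) hsx).symm).trans (QMap.Comp.sg hx.1)
    exact (hall' b hb).trans (hall' c hc).symm
  · intro b hbO
    have h1 := (hc1 b hbO).1
    simp only [h.v_sg]
    revert h1
    cases c1 (m.sg O b) <;> cases c1 b <;> cases c0 (m.v b) <;> simp
  · intro b hbO
    have h1 := (hc1 b hbO).2
    have h2 := hv b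
    by_cases hr : m.r b ∈ O
    · simp only [hr, iff_true]
      rw [QMap.Ori.ph_of_mem hr] at h1 ⊢
      revert h1 h2
      cases c1 (m.r b) <;> cases c1 b <;> cases c0 (m.v b) <;> cases c0 (m.v (m.r b)) <;> simp
    · simp only [hr, iff_false]
      have h3 := hc0 (m.r b)
      rw [QMap.Ori.ph_of_notMem hr] at h1 ⊢
      revert h1 h2 h3
      cases c1 (m.t (m.r b)) <;> cases c1 b <;> cases c0 (m.v b) <;> cases c0 (m.v (m.r b)) <;>
        cases c0 (m.v (m.t (m.r b))) <;> simp

theorem t_F2 (hRV : S_RV) (hTR : S_TR) (hODD : S_ODD) (hHOL : S_HOL) : S_F2 := by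
  intro X V F _ _ _ m hT hnb hex
  obtain ⟨T, hTr⟩ := hTR X V F m
  -- parity invariant
  have hex' : ∃ O, m.Ori O ∧ ¬ Even (O.ncard / 2 + (O ∩ T).ncard) := by
    obtain ⟨O, h⟩ := hex
    by_cases he : Even (O.ncard / 2 + (O ∩ T).ncard)
    · obtain ⟨Γ, hsub, hodd, hbal⟩ := hODD X V F m O h hT hnb
      obtain ⟨h', hpar⟩ := hRV X V F m O Γ h hsub hbal
      refine ⟨m.rev O Γ, h', ?_⟩
      have e1 := card_O h
      have e2 := card_O h'
      have e3 := hpar T hTr
      have e4 : (m.rev O Γ).ncard = O.ncard := by omega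
      rw [e4]
      rw [Nat.even_iff] at he ⊢
      rw [Nat.odd_iff] at hodd
      omega
    · exact ⟨O, h, he⟩
  obtain ⟨O, ⟨h, hodd⟩, hmin⟩ := ex_min
    (fun O => m.Ori O ∧ ¬ Even (O.ncard / 2 + (O ∩ T).ncard)) (fun O => (m.per O).ncard) hex'
  refine ⟨O, h, ?_⟩
  have hall : ∀ x ∈ m.per O, Even (minimalPeriod (m.fn O) x) → m.Reg O (m.sg O x) x := by
    intro x hx hev
    by_contra hc
    obtain ⟨O', h', hlt, hpar⟩ := t_RL hRV X V F m O h x hx hc
    have e1 := card_O h
    have e2 := card_O h'
    have e3 := hpar T hTr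
    have e4 : O'.ncard = O.ncard := by omega
    have := hmin O' ⟨h', by
      rw [e4]
      rw [Nat.even_iff] at hodd hev ⊢
      omega⟩
    omega
  by_cases hcase : ∃ x0 ∈ m.per O, Even (minimalPeriod (m.fn O) x0)
  · obtain ⟨x0, h0, hev⟩ := hcase
    have hsing := single h h0 (hall x0 h0 hev)
      (hall _ (per_fn h h0) (by rw [minimalPeriod_apply h0.2]; exact hev))
    have cls : ∀ e ∈ O, m.Sim O e x0 ∨ m.Sim O e (m.fn O x0) := by
      intro e he
      apply P4 h x0 h0 e
      rw [QMap.out_of_mem he]
      exact hsing e he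
    have hf0 : m.fn O x0 ∈ O := h.fn_mem x0
    by_cases hcc : m.Comp O (m.fn O x0) x0
    · have hall' : ∀ e ∈ O, m.Comp O e x0 := by
        intro e he
        rcases cls e he with h1 | h1
        · exact sim_comp h he h0.1 h1
        · exact (sim_comp h he hf0 h1).trans hcc
      intro b hb c hc
      exact (hall' b hb).trans (hall' c hc).symm
    · exfalso
      -- the two components
      let C : X → Set X := fun a => {c | c ∈ O ∧ m.Comp O c a}
      have hCs : ∀ a b, b ∈ O → (m.sg O b ∈ C a ↔ b ∈ C a) := by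
        intro a b hb
        constructor
        · rintro ⟨_, h2⟩
          exact ⟨hb, (QMap.Comp.sg hb).symm.trans h2⟩
        · rintro ⟨_, h2⟩
          exact ⟨h.sg_mem b, (QMap.Comp.sg hb).trans h2⟩
      have hCp : ∀ a b, b ∈ O → (m.ph O b ∈ C a ↔ b ∈ C a) := by
        intro a b hb
        constructor
        · rintro ⟨_, h2⟩
          exact ⟨hb, (QMap.Comp.ph hb).symm.trans h2⟩
        · rintro ⟨_, h2⟩
          exact ⟨h.ph_mem b, (QMap.Comp.ph hb).trans h2⟩
      have hev : ∀ a, Even (C a).ncard := by
        intro a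
        apply even_of_invol (C a) (m.sg O)
        · intro x hx
          exact (hCs a x hx.1).2 hx
        · intro x hx
          exact h.sg_sg hx.1
        · intro x hx
          exact h.sg_ne hx.1
      have noteven : ∀ a ∈ O, (∀ b ∈ C a, m.Sim O b a) →
          ¬ Even ((C a).ncard / 2 + (C a ∩ T).ncard) := by
        intro a ha hcl he
        obtain ⟨g, hg1, hg2⟩ := hHOL X V F m O T (C a) h hTr (fun x hx => hx.1)
          (fun b hb => (hCs a b hb.1).2 hb) (fun b hb => (hCp a b hb.1).2 hb)
          (fun b hb c hc => hb.2.trans hc.2.symm) he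
        have := t_KG X V F m O (C a) g h (fun x hx => hx.1) (hCs a) (hCp a) hg1 hg2 a
          ⟨ha, QMap.Comp.refl _⟩
        apply this
        exact hcl _ ((hCs a a ha).2 ⟨ha, QMap.Comp.refl _⟩)
      have n1 := noteven x0 h0.1 (by
        intro b hb
        rcases cls b hb.1 with h1 | h1
        · exact h1
        · exact absurd ((sim_comp h hb.1 hf0 h1).symm.trans hb.2) hcc)
      have n2 := noteven (m.fn O x0) hf0 (by
        intro b hb
        rcases cls b hb.1 with h1 | h1
        · exact absurd (hb.2.symm.trans (sim_comp h hb.1 h0.1 h1)) hcc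
        · exact h1)
      have hun : C x0 ∪ C (m.fn O x0) = O := by
        ext e
        constructor
        · rintro (he | he)
          · exact he.1
          · exact he.1
        · intro he
          rcases cls e he with h1 | h1
          · exact Or.inl ⟨he, sim_comp h he h0.1 h1⟩
          · exact Or.inr ⟨he, sim_comp h he hf0 h1⟩
      have hdis : Disjoint (C x0) (C (m.fn O x0)) := by
        rw [Set.disjoint_left]
        intro e h1 h2
        exact hcc (h2.2.symm.trans h1.2)
      have c1 : O.ncard = (C x0).ncard + (C (m.fn O x0)).ncard := by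
        rw [← Set.ncard_union_eq hdis (Set.toFinite _) (Set.toFinite _), hun]
      have c2 : (O ∩ T).ncard = (C x0 ∩ T).ncard + (C (m.fn O x0) ∩ T).ncard := by
        rw [← Set.ncard_union_eq (hdis.mono Set.inter_subset_left Set.inter_subset_left)
          (Set.toFinite _) (Set.toFinite _), ← Set.union_inter_distrib_right, hun]
      have v1 := hev x0
      have v2 := hev (m.fn O x0)
      rw [Nat.even_iff] at n1 n2 v1 v2 hodd
      omega
  · -- every region is one class
    push Not at hcase
    have one : ∀ x ∈ m.per O, m.Sim O (m.fn O x) x := by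
      intro x hx
      have hodd' := hcase x hx
      rw [Nat.not_even_iff_odd] at hodd'
      have par : ∀ i, (Even i → m.Sim O ((m.fn O)^[i] x) x) ∧
          (Odd i → m.Sim O ((m.fn O)^[i] x) (m.fn O x)) := by
        intro i
        induction i using Nat.strong_induction_on with
        | _ i ih =>
          rcases i with _ | _ | i
          · refine ⟨fun _ => QMap.Sim.refl _, fun hh => ?_⟩
            exact absurd hh (by decide)
          · refine ⟨fun hh => ?_, fun _ => QMap.Sim.refl _⟩
            exact absurd hh (by decide)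
          · have h2 : m.Sim O ((m.fn O)^[i + 1 + 1] x) ((m.fn O)^[i] x) := by
              rw [Function.iterate_succ_apply', Function.iterate_succ_apply']
              exact P2' h _ (per_iter h hx i)
            have hi := ih i (by omega)
            constructor
            · intro hh
              exact h2.trans (hi.1 (by rw [Nat.even_iff] at hh ⊢; omega))
            · intro hh
              exact h2.trans (hi.2 (by rw [Nat.odd_iff] at hh ⊢; omega))
      have := (par _).2 hodd'
      rw [iterate_minimalPeriod] at this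
      exact this.symm
    have regcomp : ∀ b ∈ O, ∀ c ∈ O, m.Reg O b c → m.Comp O b c := by
      intro b hb c hc hr
      obtain ⟨n, hx⟩ := ev_per h hb
      set x := (m.fn O)^[n] b with hxd
      have hbx : m.Reg O b x := ⟨n, 0, rfl⟩
      have cl : ∀ e ∈ O, m.Reg O e x → m.Sim O e x := by
        intro e he hre
        rcases P4 h x hx e (by rw [QMap.out_of_mem he]; exact hre) with h1 | h1
        · exact h1
        · exact h1.trans (one x hx)
      have s1 := cl b hb hbx
      have s2 := cl c hc (hr.symm.trans hbx)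
      exact sim_comp h hb hc (s1.trans s2.symm)
    intro b hb c hc
    have hg := m.conn (fun y => m.Comp O (m.out O y) b) ?_ ?_ b c ?_
    · rw [QMap.out_of_mem hc] at hg
      exact hg.symm
    · intro y
      by_cases hy : y ∈ O
      · rw [QMap.out_of_mem hy]
        show m.Comp O (m.sg O y) b ↔ m.Comp O y b
        exact ⟨fun hh => (QMap.Comp.sg hy).symm.trans hh, fun hh => (QMap.Comp.sg hy).trans hh⟩
      · rw [← h.out_step hy]
    · intro y
      have := regcomp _ (h.out_mem (m.t y)) _ (h.out_mem y) (reg_t h y)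
      exact ⟨fun hh => this.symm.trans hh, fun hh => this.trans hh⟩
    · rw [QMap.out_of_mem hb]
      exact QMap.Comp.refl _

end KB
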