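import Pool.Agent.KB.Defs

/-!
# Interface: the statements of the modules (project MP_b1567b_co, case q = 0)
-/

set_option autoImplicit false

namespace KB

open Function

/-- LA: regions and edges -/
def S_LA : Prop := ∀ (X V F : Type) [Finite X] [Finite V] [Finite F] (m : QMap X V F)
  (Y : Set V), Y.Nonempty → m.d Y ≤ 2 * (m.R Y + Y.ncard)

/-- LA, equality case -/
def S_LE : Prop := ∀ (X V F : Type) [Finite X] [Finite V] [Finite F] (m : QMap X V F)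
  (K : Set V), K.Nonempty → 4 * K.ncard ≤ m.d K → m.R K ≤ K.ncard → m.Col K → m.Bip

/-- 4-connected graphs are tough -/
def S_TC : Prop := ∀ (X V F : Type) [Finite X] [Fintype V] [Fintype F] (m : QMap X V F)
  (G : SimpleGraph (V ⊕ F)), m.Btw G → FourConn G → m.Tough

/-- Hall -/
def S_HALL : Prop := ∀ (X V F : Type) [Finite X] [Finite V] [Finite F] (m : QMap X V F),
  (∀ Y : Set V, Y.Nonempty → m.d Y ≤ 4 * Y.ncard) → ∃ O, m.Ori O

/-- an odd balanced set when the map is not bipartite -/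
def S_ODD : Prop := ∀ (X V F : Type) [Finite X] [Finite V] [Finite F] (m : QMap X V F)
  (O : Set X), m.Ori O → m.Tough → ¬ m.Bip → ∃ Γ : Set X, Γ ⊆ O ∧ Odd Γ.ncard ∧ m.Bal Γ

/-- reversal of a balanced set -/
def S_RV : Prop := ∀ (X V F : Type) [Finite X] [Finite V] [Finite F] (m : QMap X V F)
  (O Γ : Set X), m.Ori O → Γ ⊆ O → m.Bal Γ →
  m.Ori (m.rev O Γ) ∧ ∀ T, m.Tr T → (m.rev O Γ ∩ T).ncard % 2 = ((O ∩ T).ncard + Γ.ncard) % 2

/-- a transversal exists -/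
def S_TR : Prop := ∀ (X V F : Type) [Finite X] [Finite V] [Finite F] (m : QMap X V F),
  ∃ T, m.Tr T

/-- `sg` and `ph` have a common proper 2-colouring -/
def S_COL : Prop := ∀ (X V F : Type) [Finite X] [Finite V] [Finite F] (m : QMap X V F)
  (O : Set X), m.Ori O → ∃ c : X → Bool, ∀ b ∈ O, c (m.sg O b) ≠ c b ∧ c (m.ph O b) ≠ c b

/-- holonomy on one component -/
def S_HOL : Prop := ∀ (X V F : Type) [Finite X] [Finite V] [Finite F] (m : QMap X V F)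
  (O T C : Set X), m.Ori O → m.Tr T → C ⊆ O → (∀ b ∈ C, m.sg O b ∈ C) → (∀ b ∈ C, m.ph O b ∈ C) →
  (∀ b ∈ C, ∀ c ∈ C, m.Comp O b c) → Even (C.ncard / 2 + (C ∩ T).ncard) →
  ∃ g : X → Bool, (∀ b ∈ C, g (m.sg O b) ≠ g b) ∧ (∀ b ∈ C, (g (m.ph O b) = g b ↔ m.r b ∈ O))

/-- one component gives a Hamilton cycle -/
def S_HC : Prop := ∀ (X V F : Type) [Finite X] [Fintype V] [Fintype F] [DecidableEq V]
  [DecidableEq F] (m : QMap X V F) (G : SimpleGraph (V ⊕ F)) (O : Set X),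
  m.Ori O → m.Btw G → 5 ≤ Fintype.card (V ⊕ F) →
  (∀ b ∈ O, ∀ c ∈ O, m.Comp O b c) → G.IsHamiltonian

/-- K2 -/
def S_K2 : Prop := ∀ (X V F : Type) [Finite X] [Finite V] [Finite F] (m : QMap X V F)
  (O : Set X), m.Ori O → ∀ x y, m.Sim O x y → m.Comp O (m.w O x) (m.w O y)

/-- K1 -/
def S_K1 : Prop := ∀ (X V F : Type) [Finite X] [Finite V] [Finite F] (m : QMap X V F)
  (O : Set X), m.Ori O → ∀ b ∈ O, ∀ c ∈ O, m.Comp O b c →
  (m.Sim O c b ∧ m.Sim O (m.sg O c) (m.sg O b)) ∨ (m.Sim O c (m.sg O b) ∧ m.Sim O (m.sg O c) b)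

/-- a function with the local rules extends to a `Sim`-invariant one -/
def S_KG : Prop := ∀ (X V F : Type) [Finite X] [Finite V] [Finite F] (m : QMap X V F)
  (O C : Set X) (g : X → Bool), m.Ori O → C ⊆ O → (∀ b, b ∈ O → (m.sg O b ∈ C ↔ b ∈ C)) →
  (∀ b, b ∈ O → (m.ph O b ∈ C ↔ b ∈ C)) →
  (∀ b ∈ C, g (m.sg O b) ≠ g b) → (∀ b ∈ C, (g (m.ph O b) = g b ↔ m.r b ∈ O)) →
  ∀ b ∈ C, ¬ m.Sim O (m.sg O b) b

/-- classes of `Sim` at non periodic and periodic darts -/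
def S_PC : Prop := ∀ (X V F : Type) [Finite X] [Finite V] [Finite F] (m : QMap X V F)
  (O : Set X), m.Ori O →
  (∀ z, m.out O z ∉ m.per O → m.Sim O (m.pr O z) z) ∧
  (∀ x ∈ m.per O, m.Sim O (m.pr O (m.fn O x)) x ∧ m.Sim O (m.pr O (m.t x)) (m.fn O x) ∧
    m.Sim O (m.fn O (m.fn O x)) x) ∧
  (∀ z, ∀ x ∈ m.per O, m.out O z = m.fn O x → z ≠ m.fn O x → z ≠ m.t x →
    m.Sim O (m.pr O z) z) ∧
  (∀ y, ∀ x ∈ m.per O, m.Reg O (m.out O y) x → m.Sim O y x ∨ m.Sim O y (m.fn O x))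

/-- RL: reversal lemma -/
def S_RL : Prop := ∀ (X V F : Type) [Finite X] [Finite V] [Finite F] (m : QMap X V F)
  (O : Set X), m.Ori O → ∀ x0 ∈ m.per O, ¬ m.Reg O (m.sg O x0) x0 →
  ∃ O', m.Ori O' ∧ (m.per O').ncard < (m.per O).ncard ∧
    ∀ T, m.Tr T → (O' ∩ T).ncard % 2 = ((O ∩ T).ncard + minimalPeriod (m.fn O) x0) % 2

/-- final step, bipartite case -/
def S_F1 : Prop := ∀ (X V F : Type) [Finite X] [Finite V] [Finite F] (m : QMap X V F),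
  m.Bip → (∃ O, m.Ori O) → ∃ O, m.Ori O ∧ ∀ b ∈ O, ∀ c ∈ O, m.Comp O b c

/-- final step, non bipartite case -/
def S_F2 : Prop := ∀ (X V F : Type) [Finite X] [Finite V] [Finite F] (m : QMap X V F),
  m.Tough → ¬ m.Bip → (∃ O, m.Ori O) → ∃ O, m.Ori O ∧ ∀ b ∈ O, ∀ c ∈ O, m.Comp O b c

end KB
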