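import Mathlib
import Pool.Agent.KB.St
import Pool.Agent.KB.Basic

/-!
# Existence of a 2-orientation
-/

set_option autoImplicit false

namespace KB

open Function

namespace KB_HALL

variable {X V F : Type} (m : QMap X V F)

/-- one dart of every edge -/
theorem tr_exists : ∃ T : Set X, ∀ x, x ∈ T ↔ m.t x ∉ T := by
  obtain ⟨g, hg⟩ : ∃ g : F → X, ∀ y, m.f (g y) = y := ⟨surjInv m.fs, surjInv_eq m.fs⟩
  refine ⟨{x | x = g (m.f x) ∨ x = m.r (g (m.f x))}, ?_⟩
  intro x
  have hz : m.f (g (m.f x)) = m.f x := hg _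
  have e : x ∈ {x | x = g (m.f x) ∨ x = m.r (g (m.f x))} ↔
      (x = g (m.f x) ∨ x = m.r (g (m.f x))) := Iff.rfl
  have e' : m.t x ∈ {x | x = g (m.f x) ∨ x = m.r (g (m.f x))} ↔
      (m.t x = g (m.f x) ∨ m.t x = m.r (g (m.f x))) := by
    show (m.t x = g (m.f (m.t x)) ∨ m.t x = m.r (g (m.f (m.t x)))) ↔ _
    rw [m.f_t]
  rw [e, e']
  generalize g (m.f x) = z at hz
  have n1 := m.tne z
  have n2 := m.r_ne_t z
  have n3 := m.r_ne z
  have n4 := m.t_r_ne z
  rcases (m.f_iff z x).1 hz with h | h | h | h
  · subst h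
    simp [n1, n2.symm]
  · subst h
    simp [m.tt, n1, n2.symm]
  · subst h
    have n5 := m.tne (m.r z)
    simp [n5, n4]
  · subst h
    have n5 := m.tne (m.r z)
    simp [m.tt, n5, n4]

include m in
/-- every face has four corners -/
theorem card_X [Finite X] [Finite F] : Nat.card X = 4 * Nat.card F := by
  classical
  have := Fintype.ofFinite X
  have := Fintype.ofFinite F
  rw [Nat.card_eq_fintype_card, Nat.card_eq_fintype_card, ← Finset.card_univ (α := X),
    Finset.card_eq_sum_card_fiberwise (f := m.f) (t := Finset.univ)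
      (fun x _ => Finset.mem_coe.2 (Finset.mem_univ _))]
  rw [Finset.sum_const_nat (m := 4), Finset.card_univ, Nat.mul_comm]
  intro b _
  obtain ⟨z, rfl⟩ := m.fs b
  have n1 := m.tne z
  have n2 := m.r_ne_t z
  have n3 := m.r_ne z
  have n4 := m.t_r_ne z
  have n5 := m.tne (m.r z)
  have n6 : m.t z ≠ m.t (m.r z) := fun h => n3 (m.t_inj h).symm
  have hset : (Finset.univ.filter fun x => m.f x = m.f z) = {z, m.t z, m.r z, m.t (m.r z)} := by
    ext x
    simp only [Finset.mem_filter, Finset.mem_univ, true_and, Finset.mem_insert,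
      Finset.mem_singleton]
    rw [eq_comm, m.f_iff]
  rw [hset]
  rw [Finset.card_insert_of_notMem, Finset.card_insert_of_notMem, Finset.card_insert_of_notMem,
    Finset.card_singleton]
  · simp [n5.symm]
  · simp [n2.symm, n6]
  · simp [n1.symm, n3.symm, n4.symm]

theorem card_T [Finite X] {T : Set X} (hT : ∀ x, x ∈ T ↔ m.t x ∉ T) :
    Nat.card X = 2 * Nat.card T := by
  have e : (T ⊕ T) ≃ X := Equiv.ofBijective
    (Sum.elim (fun x => (x : X)) (fun x => m.t (x : X))) (by
      constructor
      · rintro (x | x) (y | y) h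
        · exact congrArg Sum.inl (Subtype.ext h)
        · exfalso
          have h' : (x : X) = m.t y := h
          exact (hT _).1 y.2 (h' ▸ x.2)
        · exfalso
          have h' : m.t x = (y : X) := h
          exact (hT _).1 x.2 (h'.symm ▸ y.2)
        · exact congrArg Sum.inr (Subtype.ext (m.t_inj h))
      · intro x
        by_cases hx : x ∈ T
        · exact ⟨Sum.inl ⟨x, hx⟩, rfl⟩
        · refine ⟨Sum.inr ⟨m.t x, ?_⟩, m.tt x⟩
          rw [hT, m.tt]
          exact hx)
  rw [← Nat.card_congr e, Nat.card_sum, Nat.two_mul]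

theorem hall_cond [Fintype V] [Finite X] {T : Set X} (hT : ∀ x, x ∈ T ↔ m.t x ∉ T)
    [DecidableEq V] (hY : ∀ Y : Set V, Y.Nonempty → m.d Y ≤ 4 * Y.ncard) (S : Finset T) :
    S.card ≤ (S.biUnion fun x : T =>
      ({m.v x, m.v (m.t x)} : Finset V) ×ˢ (Finset.univ : Finset (Fin 2))).card := by
  classical
  rcases S.eq_empty_or_nonempty with rfl | hne
  · simp
  set Y : Finset V := S.biUnion fun x : T => ({m.v x, m.v (m.t x)} : Finset V) with hYdef
  have h1 : (S.biUnion fun x : T =>
      ({m.v x, m.v (m.t x)} : Finset V) ×ˢ (Finset.univ : Finset (Fin 2))) =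
      Y ×ˢ (Finset.univ : Finset (Fin 2)) := by
    ext ⟨a, i⟩
    simp only [hYdef, Finset.mem_biUnion, Finset.mem_product, Finset.mem_univ, and_true]
  rw [h1, Finset.card_product, Finset.card_univ, Fintype.card_fin]
  obtain ⟨x0, hx0⟩ := hne
  have hYne : (Y : Set V).Nonempty := by
    refine ⟨m.v x0, ?_⟩
    rw [Finset.mem_coe, hYdef, Finset.mem_biUnion]
    exact ⟨x0, hx0, by simp⟩
  have h2 := hY Y hYne
  rw [Set.ncard_coe_finset] at h2
  have h3 : 2 * S.card ≤ m.d Y := by
    have hinj : Injective (Sum.elim (fun x : S => ((x : T) : X))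
        (fun x : S => m.t ((x : T) : X))) := by
      rintro (x | x) (y | y) h
      · exact congrArg Sum.inl (Subtype.ext (Subtype.ext h))
      · exfalso
        have h' : ((x : T) : X) = m.t (y : T) := h
        exact (hT _).1 (y : T).2 (h' ▸ (x : T).2)
      · exfalso
        have h' : m.t (x : T) = ((y : T) : X) := h
        exact (hT _).1 (x : T).2 (h'.symm ▸ (y : T).2)
      · exact congrArg Sum.inr (Subtype.ext (Subtype.ext (m.t_inj h)))
    have h4 : (Set.range (Sum.elim (fun x : S => ((x : T) : X))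
        (fun x : S => m.t ((x : T) : X)))).ncard = 2 * S.card := by
      rw [← Set.image_univ, Set.ncard_image_of_injective _ hinj, Set.ncard_univ, Nat.card_sum,
        Nat.card_eq_fintype_card, Fintype.card_coe, Nat.two_mul]
    rw [← h4]
    refine Set.ncard_le_ncard ?_ (Set.toFinite _)
    rintro _ ⟨x | x, rfl⟩
    · have hx : (x : T) ∈ S := x.2
      constructor
      · rw [Finset.mem_coe, hYdef, Finset.mem_biUnion]
        exact ⟨x, hx, by simp⟩
      · rw [Finset.mem_coe, hYdef, Finset.mem_biUnion]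
        exact ⟨x, hx, by simp⟩
    · have hx : (x : T) ∈ S := x.2
      constructor
      · rw [Finset.mem_coe, hYdef, Finset.mem_biUnion]
        exact ⟨x, hx, by simp⟩
      · rw [Finset.mem_coe, hYdef, Finset.mem_biUnion]
        exact ⟨x, hx, by simp [m.tt]⟩
  omega

end KB_HALL

open KB_HALL in
theorem t_HALL : S_HALL := by
  classical
  intro X V F _ _ _ m hY
  have := Fintype.ofFinite X
  have := Fintype.ofFinite V
  have := Fintype.ofFinite F
  obtain ⟨T, hT⟩ := tr_exists m
  obtain ⟨c, hc, hc'⟩ := (Finset.all_card_le_biUnion_card_iff_exists_injective _).1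
    (hall_cond m hT hY)
  have hcard : Fintype.card T = Fintype.card (V × Fin 2) := by
    have h1 := card_T m hT
    have h2 := card_X m
    have h3 := m.eul
    rw [Fintype.card_prod, Fintype.card_fin, ← Nat.card_eq_fintype_card,
      ← Nat.card_eq_fintype_card]
    omega
  have hbij : Bijective c := (Fintype.bijective_iff_injective_and_card c).2 ⟨hc, hcard⟩
  have hend : ∀ x : T, (c x).1 = m.v x ∨ (c x).1 = m.v (m.t x) := by
    intro x
    have h1 := hc' x
    rw [Finset.mem_product, Finset.mem_insert, Finset.mem_singleton] at h1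
    exact h1.1
  let O : Set X := {x | (∃ h : x ∈ T, (c ⟨x, h⟩).1 = m.v x) ∨
    (∃ h : m.t x ∈ T, (c ⟨m.t x, h⟩).1 ≠ m.v (m.t x))}
  have hO1 : ∀ x (h : x ∈ T), x ∈ O ↔ (c ⟨x, h⟩).1 = m.v x := by
    intro x h
    constructor
    · rintro (⟨_, h2⟩ | ⟨h1, _⟩)
      · exact h2
      · exact absurd h1 ((hT x).1 h)
    · intro h2
      exact Or.inl ⟨h, h2⟩
  have hO2 : ∀ x (h : x ∈ T), m.t x ∈ O ↔ (c ⟨x, h⟩).1 ≠ m.v x := by
    intro x h
    have key : ∀ y, y = x → ∀ h' : y ∈ T, (c ⟨y, h'⟩).1 ≠ m.v y → (c ⟨x, h⟩).1 ≠ m.v x := by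
      intro y hy h' h2
      subst hy
      exact h2
    constructor
    · rintro (⟨h1, _⟩ | ⟨h1, h2⟩)
      · exact absurd h1 ((hT x).1 h)
      · exact key _ (m.tt x) h1 h2
    · intro h2
      refine Or.inr ⟨(m.tt x).symm ▸ h, ?_⟩
      have key2 : ∀ y, y = x → ∀ h' : y ∈ T, (c ⟨y, h'⟩).1 ≠ m.v y := by
        intro y hy h'
        subst hy
        exact h2
      exact key2 _ (m.tt x) _
  refine ⟨O, ?_, ?_⟩
  · intro x
    by_cases hx : x ∈ T
    · rw [hO1 x hx, hO2 x hx, not_not]
    · have hx' : m.t x ∈ T := by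
        rw [hT, m.tt]
        exact hx
      have h1 := hO2 _ hx'
      have h2 := hO1 _ hx'
      rw [m.tt] at h1
      rw [h1, h2]
  · intro a
    -- the dart at `a` of the edge of `x`
    let q : T → X := fun x => if (c x).1 = m.v x then (x : X) else m.t x
    have hq : ∀ x : T, q x ∈ O := by
      intro x
      by_cases h : (c x).1 = m.v x
      · have : q x = x := if_pos h
        rw [this]
        exact (hO1 x x.2).2 h
      · have : q x = m.t x := if_neg h
        rw [this]
        exact (hO2 x x.2).2 h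
    have hqv : ∀ x : T, m.v (q x) = (c x).1 := by
      intro x
      by_cases h : (c x).1 = m.v x
      · have : q x = x := if_pos h
        rw [this, h]
      · have h2 : q x = m.t x := if_neg h
        rw [h2]
        exact ((hend x).resolve_left h).symm
    have hqi : Injective q := by
      intro x y hxy
      have hx : q x = x ∨ q x = m.t x := by
        by_cases h : (c x).1 = m.v x
        · exact Or.inl (if_pos h)
        · exact Or.inr (if_neg h)
      have hy : q y = y ∨ q y = m.t y := by
        by_cases h : (c y).1 = m.v y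
        · exact Or.inl (if_pos h)
        · exact Or.inr (if_neg h)
      rcases hx with hx | hx <;> rcases hy with hy | hy
      · exact Subtype.ext (hx.symm.trans (hxy.trans hy))
      · exfalso
        have h' : (x : X) = m.t y := hx.symm.trans (hxy.trans hy)
        exact (hT _).1 y.2 (h' ▸ x.2)
      · exfalso
        have h' : m.t x = (y : X) := hx.symm.trans (hxy.trans hy)
        exact (hT _).1 x.2 (h'.symm ▸ y.2)
      · exact Subtype.ext (m.t_inj (hx.symm.trans (hxy.trans hy)))
    have hqs : ∀ x ∈ O, ∃ y : T, q y = x := by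
      intro x hx
      by_cases hxT : x ∈ T
      · exact ⟨⟨x, hxT⟩, if_pos ((hO1 x hxT).1 hx)⟩
      · have hx' : m.t x ∈ T := by
          rw [hT, m.tt]
          exact hxT
        refine ⟨⟨m.t x, hx'⟩, ?_⟩
        have h1 := hO2 _ hx'
        rw [m.tt] at h1
        have h2 := h1.1 hx
        have h3 : q ⟨m.t x, hx'⟩ = m.t (m.t x) := if_neg h2
        rw [h3, m.tt]
    obtain ⟨y0, hy0⟩ := hbij.2 (a, 0)
    obtain ⟨y1, hy1⟩ := hbij.2 (a, 1)
    have hset : {x | x ∈ O ∧ m.v x = a} = {q y0, q y1} := by
      ext x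
      constructor
      · rintro ⟨hx, hv⟩
        obtain ⟨y, hy⟩ := hqs x hx
        have h1 : (c y).1 = a := by rw [← hqv y, hy, hv]
        have h2 : (c y).2 = 0 ∨ (c y).2 = 1 := by
          generalize (c y).2 = i
          fin_cases i
          · exact Or.inl rfl
          · exact Or.inr rfl
        rcases h2 with h2 | h2
        · have : y = y0 := hc (by rw [hy0]; exact Prod.ext h1 h2)
          rw [← hy, this]
          exact Or.inl rfl
        · have : y = y1 := hc (by rw [hy1]; exact Prod.ext h1 h2)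
          rw [← hy, this]
          exact Or.inr rfl
      · rintro (rfl | rfl)
        · exact ⟨hq y0, by rw [hqv, hy0]⟩
        · exact ⟨hq y1, by rw [hqv, hy1]⟩
    rw [hset, Set.ncard_pair]
    intro h
    have h1 := hqi h
    rw [h1, hy1] at hy0
    have h2 := congrArg Prod.snd hy0
    exact absurd (show (1 : Fin 2) = 0 from h2) (by decide)

end KB
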