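import Pool.Agent.KB.Basic

/-!
# HC: one component gives a Hamilton cycle
-/

set_option autoImplicit false

namespace KB

open Function

namespace KB_HC

section Seq

variable {α : Type} {G : SimpleGraph α}

theorem ex_walk (w : ℕ → α) (N : ℕ) (hadj : ∀ i, i + 1 < N → G.Adj (w i) (w (i + 1)))
    (k : ℕ) (hk : k < N) :
    ∃ p : G.Walk (w 0) (w k), p.support = (List.range (k + 1)).map w ∧
      p.edges = (List.range k).map (fun i => s(w i, w (i + 1))) := by
  induction k with
  | zero => exact ⟨SimpleGraph.Walk.nil, by simp, by simp⟩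
  | succ k ih =>
    obtain ⟨p, h1, h2⟩ := ih (by omega)
    refine ⟨p.concat (hadj k hk), ?_, ?_⟩
    · rw [SimpleGraph.Walk.support_concat, h1, List.range_succ (n := k + 1), List.map_append]
      simp
    · rw [SimpleGraph.Walk.edges_concat, h2, List.range_succ, List.map_append]
      simp

/-- A cyclic sequence of the vertices gives a Hamilton cycle. -/
theorem isHam [DecidableEq α] [Fintype α] (w : ℕ → α) (N : ℕ) (hN : 3 ≤ N)
    (hadj : ∀ i, i + 1 < N → G.Adj (w i) (w (i + 1))) (hlast : G.Adj (w (N - 1)) (w 0))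
    (hinj : ∀ i < N, ∀ j < N, w i = w j → i = j) (hcard : Fintype.card α = N) :
    G.IsHamiltonian := by
  intro _
  obtain ⟨p, h1, h2⟩ := ex_walk w N hadj (N - 1) (by omega)
  refine ⟨w (N - 1), SimpleGraph.Walk.cons hlast p, ?_⟩
  rw [SimpleGraph.Walk.isHamiltonianCycle_iff_isCycle_and_length_eq,
    SimpleGraph.Walk.cons_isCycle_iff]
  refine ⟨⟨?_, ?_⟩, ?_⟩
  · rw [SimpleGraph.Walk.isPath_def, h1, List.nodup_map_iff_inj_on List.nodup_range]
    intro i hi j hj hij
    rw [List.mem_range] at hi hj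
    exact hinj i (by omega) j (by omega) hij
  · rw [h2]
    intro hmem
    obtain ⟨i, hi, he⟩ := List.mem_map.1 hmem
    rw [List.mem_range] at hi
    rw [Sym2.eq_iff] at he
    rcases he with ⟨h3, h4⟩ | ⟨h3, h4⟩
    · have := hinj i (by omega) (N - 1) (by omega) h3
      omega
    · have := hinj i (by omega) 0 (by omega) h3
      have := hinj (i + 1) (by omega) (N - 1) (by omega) h4
      omega
  · rw [SimpleGraph.Walk.length_cons, ← SimpleGraph.Walk.length_edges, h2, List.length_map,
      List.length_range, hcard]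
    omega

end Seq

section Main

variable {X V F : Type} {m : QMap X V F} {O : Set X}

/-- The composition of the two involutions. -/
noncomputable def hh (m : QMap X V F) (O : Set X) (x : X) : X := m.sg O (m.ph O x)

/-- The alternating sequence. -/
noncomputable def ws (m : QMap X V F) (O : Set X) (b : X) (k : ℕ) : V ⊕ F :=
  if k % 2 = 0 then Sum.inl (m.v ((hh m O)^[k / 2] b)) else Sum.inr (m.f ((hh m O)^[k / 2] b))

end Main

end KB_HC

open KB_HC in
/-- HC: one component gives a Hamilton cycle. -/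
theorem t_HC (h : S_COL) : S_HC := by
  intro X V F _ _ _ _ _ m G O hO hG h5 hC
  obtain ⟨c, hc⟩ := h X V F m O hO
  -- a dart of `O` with colour `false`
  obtain ⟨b0, hb0, hcb0⟩ : ∃ b ∈ O, c b = false := by
    have hne : Nonempty V := by
      by_contra hV
      rw [not_nonempty_iff] at hV
      have hX : IsEmpty X := ⟨fun x => hV.elim (m.v x)⟩
      have hF : IsEmpty F := ⟨fun a => by
        obtain ⟨x, -⟩ := m.fs a
        exact hX.elim x⟩
      rw [Fintype.card_sum, Fintype.card_eq_zero, Fintype.card_eq_zero] at h5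
      omega
    obtain ⟨a⟩ := hne
    obtain ⟨b, hb, -⟩ := hO.ex_at a
    by_cases hcb : c b = false
    · exact ⟨b, hb, hcb⟩
    · refine ⟨m.sg O b, hO.sg_mem b, ?_⟩
      have h1 := (hc b hb).1
      rw [Bool.not_eq_false] at hcb
      rw [hcb] at h1
      exact Bool.eq_false_iff.2 h1
  have hphc : ∀ b ∈ O, c b = false → c (m.ph O b) = true := by
    intro b hb hcb
    have h1 := (hc b hb).2
    rw [hcb] at h1
    exact Bool.eq_true_of_not_eq_false h1
  have hhm : ∀ b ∈ O, c b = false → hh m O b ∈ O ∧ c (hh m O b) = false := by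
    intro b hb hcb
    refine ⟨hO.sg_mem _, ?_⟩
    have h1 := (hc (m.ph O b) (hO.ph_mem b)).1
    rw [hphc b hb hcb] at h1
    exact Bool.eq_false_iff.2 h1
  have hit : ∀ j, (hh m O)^[j] b0 ∈ O ∧ c ((hh m O)^[j] b0) = false := by
    intro j
    induction j with
    | zero => exact ⟨hb0, hcb0⟩
    | succ j ih =>
      rw [Function.iterate_succ_apply']
      exact hhm _ ih.1 ih.2
  have hhinj : ∀ x ∈ O, ∀ y ∈ O, hh m O x = hh m O y → x = y := by
    intro x hx y hy hxy
    have h1 := hO.sg_inj (hO.ph_mem x) (hO.ph_mem y) hxy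
    rw [← hO.ph_ph hx, h1, hO.ph_ph hy]
  -- periodicity
  have hcancel : ∀ i j, (hh m O)^[i] b0 = (hh m O)^[i + j] b0 → (hh m O)^[j] b0 = b0 := by
    intro i
    induction i with
    | zero =>
      intro j hj
      rw [zero_add] at hj
      exact hj.symm
    | succ i ih =>
      intro j hj
      apply ih
      rw [show i + 1 + j = (i + j) + 1 by omega, Function.iterate_succ_apply',
        Function.iterate_succ_apply'] at hj
      exact hhinj _ (hit _).1 _ (hit _).1 hj
  obtain ⟨n0, hn0, hper0⟩ : ∃ n, 0 < n ∧ (hh m O)^[n] b0 = b0 := by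
    obtain ⟨i, j, hij, he⟩ := Finite.exists_ne_map_eq_of_infinite (fun j => (hh m O)^[j] b0)
    rcases lt_or_gt_of_ne hij with h1 | h1
    · refine ⟨j - i, by omega, hcancel i (j - i) ?_⟩
      rw [show i + (j - i) = j by omega]
      exact he
    · refine ⟨i - j, by omega, hcancel j (i - j) ?_⟩
      rw [show j + (i - j) = i by omega]
      exact he.symm
  let n := minimalPeriod (hh m O) b0
  have hpp : b0 ∈ periodicPts (hh m O) := ⟨n0, hn0, hper0⟩
  have hn : 0 < n := minimalPeriod_pos_of_mem_periodicPts hpp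
  have hper : (hh m O)^[n] b0 = b0 := iterate_minimalPeriod
  have hmod : ∀ j, (hh m O)^[j] b0 = (hh m O)^[j % n] b0 := fun j =>
    (iterate_mod_minimalPeriod_eq).symm
  have hinj0 : ∀ i < n, ∀ j < n, (hh m O)^[i] b0 = (hh m O)^[j] b0 → i = j := by
    intro i hi j hj hij
    exact (iterate_eq_iterate_iff_of_lt_minimalPeriod hi hj).1 hij
  -- all elements of `O`
  have hall : ∀ b ∈ O, ∃ j, b = (hh m O)^[j] b0 ∨ b = m.ph O ((hh m O)^[j] b0) := by
    intro b hb
    have h1 := hC b0 hb0 b hb
    refine (h1 (fun x => ∃ j, x = (hh m O)^[j] b0 ∨ x = m.ph O ((hh m O)^[j] b0)) ?_ ?_).1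
      ⟨0, Or.inl rfl⟩
    · have h2 : ∀ b ∈ O, (∃ j, b = (hh m O)^[j] b0 ∨ b = m.ph O ((hh m O)^[j] b0)) →
          ∃ j, m.sg O b = (hh m O)^[j] b0 ∨ m.sg O b = m.ph O ((hh m O)^[j] b0) := by
        rintro b hb ⟨j, rfl | rfl⟩
        · refine ⟨j + (n - 1), Or.inr ?_⟩
          have h3 : (hh m O)^[j] b0 = (hh m O)^[j + (n - 1) + 1] b0 := by
            rw [show j + (n - 1) + 1 = j + n by omega, Function.iterate_add_apply, hper]
          rw [h3, Function.iterate_succ_apply']
          exact hO.sg_sg (hO.ph_mem _)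
        · refine ⟨j + 1, Or.inl ?_⟩
          rw [Function.iterate_succ_apply']
          rfl
      intro b hb
      constructor
      · intro h3
        have h4 := h2 _ (hO.sg_mem b) h3
        rw [hO.sg_sg hb] at h4
        exact h4
      · exact h2 b hb
    · have h2 : ∀ b ∈ O, (∃ j, b = (hh m O)^[j] b0 ∨ b = m.ph O ((hh m O)^[j] b0)) →
          ∃ j, m.ph O b = (hh m O)^[j] b0 ∨ m.ph O b = m.ph O ((hh m O)^[j] b0) := by
        rintro b hb ⟨j, rfl | rfl⟩
        · exact ⟨j, Or.inr rfl⟩
        · exact ⟨j, Or.inl (hO.ph_ph (hit j).1)⟩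
      intro b hb
      constructor
      · intro h3
        have h4 := h2 _ (hO.ph_mem b) h3
        rw [hO.ph_ph hb] at h4
        exact h4
      · exact h2 b hb
  have hvph : ∀ x, m.v (m.ph O x) = m.v (hh m O x) := fun x => (hO.v_sg _).symm
  have hV : ∀ a : V, ∃ j < n, m.v ((hh m O)^[j] b0) = a := by
    intro a
    obtain ⟨b, hb, hba⟩ := hO.ex_at a
    obtain ⟨j, hj | hj⟩ := hall b hb
    · refine ⟨j % n, Nat.mod_lt _ hn, ?_⟩
      rw [← hmod, ← hj, hba]
    · refine ⟨(j + 1) % n, Nat.mod_lt _ hn, ?_⟩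
      rw [← hmod, Function.iterate_succ_apply', ← hvph, ← hj, hba]
  have hF : ∀ a : F, ∃ j < n, m.f ((hh m O)^[j] b0) = a := by
    intro a
    obtain ⟨b, hb, hba⟩ : ∃ b ∈ O, m.f b = a := by
      obtain ⟨x, hx⟩ := m.fs a
      by_cases hxO : x ∈ O
      · exact ⟨x, hxO, hx⟩
      · exact ⟨m.t x, hO.t_mem hxO, by rw [m.f_t, hx]⟩
    obtain ⟨j, hj | hj⟩ := hall b hb
    · refine ⟨j % n, Nat.mod_lt _ hn, ?_⟩
      rw [← hmod, ← hj, hba]
    · refine ⟨j % n, Nat.mod_lt _ hn, ?_⟩
      rw [← hmod, ← QMap.Ori.f_ph (O := O), ← hj, hba]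
  have hVi : ∀ i < n, ∀ j < n, m.v ((hh m O)^[i] b0) = m.v ((hh m O)^[j] b0) → i = j := by
    intro i hi j hj hij
    apply hinj0 i hi j hj
    rcases hO.mem_at (hit j).1 (hit i).1 hij with h1 | h1
    · exact h1
    · exfalso
      have h2 := (hc _ (hit j).1).1
      rw [← h1, (hit i).2, (hit j).2] at h2
      exact h2 rfl
  have hFi : ∀ i < n, ∀ j < n, m.f ((hh m O)^[i] b0) = m.f ((hh m O)^[j] b0) → i = j := by
    intro i hi j hj hij
    apply hinj0 i hi j hj
    rcases hO.mem_face (hit j).1 (hit i).1 hij with h1 | h1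
    · exact h1
    · exfalso
      have h2 := (hc _ (hit j).1).2
      rw [← h1, (hit i).2, (hit j).2] at h2
      exact h2 rfl
  have hcV : Fintype.card V = n := by
    rw [← Fintype.card_fin n]
    symm
    apply Fintype.card_of_bijective (f := fun j : Fin n => m.v ((hh m O)^[(j : ℕ)] b0))
    constructor
    · intro i j hij
      exact Fin.ext (hVi i i.2 j j.2 hij)
    · intro a
      obtain ⟨j, hj, h1⟩ := hV a
      exact ⟨⟨j, hj⟩, h1⟩
  have hcF : Fintype.card F = n := by
    rw [← Fintype.card_fin n]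
    symm
    apply Fintype.card_of_bijective (f := fun j : Fin n => m.f ((hh m O)^[(j : ℕ)] b0))
    constructor
    · intro i j hij
      exact Fin.ext (hFi i i.2 j j.2 hij)
    · intro a
      obtain ⟨j, hj, h1⟩ := hF a
      exact ⟨⟨j, hj⟩, h1⟩
  have hcard : Fintype.card (V ⊕ F) = 2 * n := by
    rw [Fintype.card_sum, hcV, hcF]
    omega
  -- adjacency
  have hA : ∀ j, G.Adj (Sum.inl (m.v ((hh m O)^[j] b0))) (Sum.inr (m.f ((hh m O)^[j] b0))) :=
    fun j => (hG.vf _ _).2 ⟨_, rfl, rfl⟩
  have hB : ∀ j, G.Adj (Sum.inr (m.f ((hh m O)^[j] b0)))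
      (Sum.inl (m.v ((hh m O)^[j + 1] b0))) := by
    intro j
    refine ((hG.vf _ _).2 ⟨m.ph O ((hh m O)^[j] b0), ?_, QMap.Ori.f_ph _⟩).symm
    rw [Function.iterate_succ_apply', hvph]
  refine isHam (ws m O b0) (2 * n) (by omega) ?_ ?_ ?_ hcard
  · intro i hi
    rcases Nat.even_or_odd i with ⟨k, rfl⟩ | ⟨k, rfl⟩
    · unfold ws
      rw [if_pos (by omega), if_neg (by omega), show (k + k) / 2 = k by omega,
        show (k + k + 1) / 2 = k by omega]
      exact hA k
    · unfold ws
      rw [if_neg (by omega), if_pos (by omega), show (2 * k + 1) / 2 = k by omega,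
        show (2 * k + 1 + 1) / 2 = k + 1 by omega]
      exact hB k
  · unfold ws
    rw [if_neg (by omega), if_pos (by omega), show (2 * n - 1) / 2 = n - 1 by omega,
      show 0 / 2 = 0 by omega]
    have h1 := hB (n - 1)
    rw [show n - 1 + 1 = n by omega, hper] at h1
    exact h1
  · intro i hi j hj hij
    unfold ws at hij
    by_cases h1 : i % 2 = 0
    · by_cases h2 : j % 2 = 0
      · rw [if_pos h1, if_pos h2] at hij
        have := hVi (i / 2) (by omega) (j / 2) (by omega) (Sum.inl_injective hij)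
        omega
      · rw [if_pos h1, if_neg h2] at hij
        exact absurd hij Sum.inl_ne_inr
    · by_cases h2 : j % 2 = 0
      · rw [if_neg h1, if_pos h2] at hij
        exact absurd hij Sum.inr_ne_inl
      · rw [if_neg h1, if_neg h2] at hij
        have := hFi (i / 2) (by omega) (j / 2) (by omega) (Sum.inr_injective hij)
        omega

end KB
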