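import Pool.Agent.KB.Basic

/-!
# K1, K2 and the extension rule KG
-/

set_option autoImplicit false

namespace KB

open Function

namespace KB_K

variable {X V F : Type} {m : QMap X V F} {O : Set X}

theorem t_s (x : X) : m.t (m.s x) = m.s (m.r x) := (m.s_r x).symm

theorem step (h : m.Ori O) {c : X} (hc : c ∈ O) :
    (m.r c ∈ O → m.Sim O c (m.ph O c) ∧ m.Sim O (m.sg O c) (m.sg O (m.ph O c))) ∧
    (m.r c ∉ O → m.Sim O c (m.sg O (m.ph O c)) ∧ m.Sim O (m.sg O c) (m.ph O c)) := by
  have h1 : m.Sim O (m.sg O c) (m.pr O (m.s (m.r c))) := by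
    have := QMap.Sim.pr (m := m) (O := O) (m.s c)
    rwa [t_s, QMap.Ori.pr_s_of_mem hc] at this
  have h2 : m.Sim O c (m.pr O (m.s (m.t (m.r c)))) := by
    have := QMap.Sim.pr (m := m) (O := O) (m.s (m.t c))
    rw [t_s, QMap.Ori.pr_s_of_notMem (h.t_notMem hc), m.r_t] at this
    exact (QMap.Sim.t c).symm.trans this
  constructor
  · intro hr
    rw [QMap.Ori.pr_s_of_mem hr] at h1
    rw [QMap.Ori.pr_s_of_notMem (h.t_notMem hr)] at h2
    rw [QMap.Ori.ph_of_mem hr]
    exact ⟨h2.trans (QMap.Sim.t _), h1⟩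
  · intro hr
    rw [QMap.Ori.pr_s_of_notMem hr] at h1
    rw [QMap.Ori.pr_s_of_mem (h.t_mem hr)] at h2
    rw [QMap.Ori.ph_of_notMem hr]
    exact ⟨h2, h1.trans (QMap.Sim.t _).symm⟩

end KB_K

open KB_K

theorem t_K1 : S_K1 := by
  intro X V F _ _ _ m O h b hb c hc hcomp
  have key := hcomp (fun c => c ∈ O → (m.Sim O c b ∧ m.Sim O (m.sg O c) (m.sg O b)) ∨
    (m.Sim O c (m.sg O b) ∧ m.Sim O (m.sg O c) b)) ?_ ?_
  · exact (key.1 (fun _ => Or.inl ⟨QMap.Sim.refl _, QMap.Sim.refl _⟩)) hc
  · intro d hd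
    constructor
    · intro hh _
      have hh' := hh (h.sg_mem d)
      rw [h.sg_sg hd] at hh'
      rcases hh' with h1 | h1
      · exact Or.inr ⟨h1.2, h1.1⟩
      · exact Or.inl ⟨h1.2, h1.1⟩
    · intro hh _
      have hh' := hh hd
      rw [h.sg_sg hd]
      rcases hh' with h1 | h1
      · exact Or.inr ⟨h1.2, h1.1⟩
      · exact Or.inl ⟨h1.2, h1.1⟩
  · intro d hd
    have st := step h hd
    by_cases hr : m.r d ∈ O
    · obtain ⟨s1, s2⟩ := st.1 hr
      constructor
      · intro hh _
        rcases hh (h.ph_mem d) with h1 | h1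
        · exact Or.inl ⟨s1.trans h1.1, s2.trans h1.2⟩
        · exact Or.inr ⟨s1.trans h1.1, s2.trans h1.2⟩
      · intro hh _
        rcases hh hd with h1 | h1
        · exact Or.inl ⟨s1.symm.trans h1.1, s2.symm.trans h1.2⟩
        · exact Or.inr ⟨s1.symm.trans h1.1, s2.symm.trans h1.2⟩
    · obtain ⟨s1, s2⟩ := st.2 hr
      constructor
      · intro hh _
        rcases hh (h.ph_mem d) with h1 | h1
        · exact Or.inr ⟨s1.trans h1.2, s2.trans h1.1⟩
        · exact Or.inl ⟨s1.trans h1.2, s2.trans h1.1⟩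
      · intro hh _
        rcases hh hd with h1 | h1
        · exact Or.inr ⟨s2.symm.trans h1.2, s1.symm.trans h1.1⟩
        · exact Or.inl ⟨s2.symm.trans h1.2, s1.symm.trans h1.1⟩

theorem t_K2 : S_K2 := by
  intro X V F _ _ _ m O h x y hsim g hs hp
  have hw : ∀ x, g (m.w O (m.pr O (m.s x))) ↔ g (m.w O x) := by
    intro x
    by_cases hx : x ∈ O
    · rw [QMap.Ori.pr_s_of_mem hx, QMap.Ori.w_of_mem (h.sg_mem x), QMap.Ori.w_of_mem hx]
      exact hs x hx
    · rw [QMap.Ori.pr_s_of_notMem hx]
  refine hsim (fun y => g (m.w O y)) ?_ ?_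
  · intro y
    simp only [h.w_t]
  · intro z
    have hz : z = m.s (m.s.symm z) := by simp
    rw [hz, t_s, hw, hw, h.w_r]
    exact (hp _ (h.w_mem _)).symm

theorem t_KG : S_KG := by
  classical
  intro X V F _ _ _ m O C g h hCO hsC hpC hs hp b hb hsim
  let g' : X → Bool := fun y => if m.w O y ∈ C then g (m.w O y) else false
  have key := hsim.apply g' ?_ ?_
  · have e1 : m.w O (m.sg O b) = m.sg O b := QMap.Ori.w_of_mem (h.sg_mem b)
    have e2 : m.w O b = b := QMap.Ori.w_of_mem (hCO hb)
    simp only [g', e1, e2, (hsC b (hCO hb)).2 hb, hb, if_true] at key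
    exact hs b hb key
  · intro y
    simp only [g', h.w_t]
  · intro z
    have hz : z = m.s (m.s.symm z) := by simp
    set x := m.s.symm z with hx
    rw [hz, t_s]
    have hb' : m.w O x ∈ O := h.w_mem x
    have hwr := h.w_r x
    by_cases hC : m.w O x ∈ C
    · have hpm : m.ph O (m.w O x) ∈ C := (hpC _ hb').2 hC
      have hsm : m.sg O (m.w O x) ∈ C := (hsC _ hb').2 hC
      have hspm : m.sg O (m.ph O (m.w O x)) ∈ C := (hsC _ (hCO hpm)).2 hpm
      have n1 := hs _ hC
      have n2 := hs _ hpm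
      have n3 := hp _ hC
      by_cases hxO : x ∈ O
      · have e : m.w O x = x := QMap.Ori.w_of_mem hxO
        rw [e] at hC hpm hsm hspm n1 n2 n3 hwr
        by_cases hrx : m.r x ∈ O
        · have e2 : m.w O (m.r x) = m.r x := QMap.Ori.w_of_mem hrx
          rw [e2] at hwr
          simp only [g', QMap.Ori.pr_s_of_mem hxO, QMap.Ori.pr_s_of_mem hrx,
            QMap.Ori.w_of_mem (h.sg_mem x), QMap.Ori.w_of_mem (h.sg_mem (m.r x)), hsm, if_true]
          rw [hwr, if_pos hspm]
          have := n3.2 hrx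
          revert n1 n2 this
          cases g (m.sg O x) <;> cases g x <;> cases g (m.ph O x) <;>
            cases g (m.sg O (m.ph O x)) <;> simp
        · have n3' : g (m.ph O x) ≠ g x := fun hh => hrx (n3.1 hh)
          simp only [g', QMap.Ori.pr_s_of_mem hxO, QMap.Ori.pr_s_of_notMem hrx,
            QMap.Ori.w_of_mem (h.sg_mem x), hsm, if_true]
          rw [hwr, if_pos hpm]
          revert n1 n3'
          cases g (m.sg O x) <;> cases g x <;> cases g (m.ph O x) <;> simp
      · have e : m.w O x = m.t x := QMap.Ori.w_of_notMem hxO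
        by_cases hrx : m.r x ∈ O
        · have e2 : m.w O (m.r x) = m.r x := QMap.Ori.w_of_mem hrx
          have n3' : g (m.ph O (m.w O x)) ≠ g (m.w O x) := by
            intro hh
            have := n3.1 hh
            rw [e, m.r_t] at this
            exact h.t_notMem hrx this
          rw [e2] at hwr
          simp only [g', QMap.Ori.pr_s_of_notMem hxO, QMap.Ori.pr_s_of_mem hrx,
            QMap.Ori.w_of_mem (h.sg_mem (m.r x)), hC, if_true]
          rw [hwr, if_pos hspm]
          revert n2 n3'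
          cases g (m.w O x) <;> cases g (m.ph O (m.w O x)) <;>
            cases g (m.sg O (m.ph O (m.w O x))) <;> simp
        · have n3' : g (m.ph O (m.w O x)) = g (m.w O x) := by
            apply n3.2
            rw [e, m.r_t]
            exact h.t_mem hrx
          simp only [g', QMap.Ori.pr_s_of_notMem hxO, QMap.Ori.pr_s_of_notMem hrx, hC, if_true]
          rw [hwr, if_pos hpm, n3']
    · have hpm : m.ph O (m.w O x) ∉ C := fun hh => hC ((hpC _ hb').1 hh)
      have hA : ∀ y, m.w O y ∉ C → g' (m.pr O (m.s y)) = false := by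
        intro y hy
        have hyO := h.w_mem y
        by_cases hyy : y ∈ O
        · have e : m.w O y = y := QMap.Ori.w_of_mem hyy
          rw [e] at hy
          simp only [g', QMap.Ori.pr_s_of_mem hyy, QMap.Ori.w_of_mem (h.sg_mem y)]
          rw [if_neg]
          intro hh
          exact hy ((hsC y hyy).1 hh)
        · simp only [g', QMap.Ori.pr_s_of_notMem hyy]
          rw [if_neg hy]
      rw [hA x hC, hA (m.r x) (by rw [hwr]; exact hpm)]

end KB
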