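import Pool.Agent.KB.St

/-!
# LA and LE: linear algebra over `ZMod 2` (project MP_b1567b_co)
-/

set_option autoImplicit false

namespace KB
namespace KB_LA

open Function Finset

variable {X V F : Type}

section basic

variable (m : QMap X V F)

theorem f_t (x : X) : m.f (m.t x) = m.f x := by
  rw [m.ff]
  right; left
  rw [m.tt]

theorem f_r (x : X) : m.f (m.s.symm (m.t (m.s x))) = m.f x :=
  ((m.ff x _).2 (Or.inr (Or.inr (Or.inl rfl)))).symm

theorem f_st (x : X) : m.f (m.s.symm (m.t x)) = m.f (m.s.symm x) := by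
  have h := f_r m (m.s.symm x)
  rwa [Equiv.apply_symm_apply] at h

theorem v_s (x : X) : m.v (m.s x) = m.v x :=
  ((m.vv x (m.s x)).2 ⟨1, by simp⟩).symm

theorem t_inj {x y : X} (h : m.t x = m.t y) : x = y := by
  have h2 := congrArg m.t h
  rwa [m.tt, m.tt] at h2

theorem rx_ne (x : X) : m.s.symm (m.t (m.s x)) ≠ x := by
  intro h
  have h2 := congrArg m.s h
  rw [Equiv.apply_symm_apply] at h2
  exact m.tne _ h2

/-- every face has four corners -/
theorem face4 [Fintype X] [DecidableEq F] (φ : F) :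
    (univ.filter (fun x => m.f x = φ)).card = 4 := by
  classical
  obtain ⟨b, rfl⟩ := m.fs φ
  have h : univ.filter (fun x => m.f x = m.f b) =
      {b, m.t b, m.s.symm (m.t (m.s b)), m.t (m.s.symm (m.t (m.s b)))} := by
    ext x
    simp only [mem_filter, mem_univ, true_and, mem_insert, mem_singleton]
    rw [eq_comm, m.ff]
  rw [h]
  have h1 : b ≠ m.t b := fun h => m.tne b h.symm
  have h2 : b ≠ m.s.symm (m.t (m.s b)) := fun h => rx_ne m b h.symm
  have h3 : b ≠ m.t (m.s.symm (m.t (m.s b))) := by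
    intro h
    have h' := congrArg m.t h
    rw [m.tt] at h'
    exact m.rne b h'.symm
  have h4 : m.t b ≠ m.s.symm (m.t (m.s b)) := fun h => m.rne b h.symm
  have h5 : m.t b ≠ m.t (m.s.symm (m.t (m.s b))) := fun h => h2 (t_inj m h)
  have h6 : m.s.symm (m.t (m.s b)) ≠ m.t (m.s.symm (m.t (m.s b))) := fun h => m.tne _ h.symm
  rw [card_insert_of_notMem (by simp [h1, h2, h3]), card_insert_of_notMem (by simp [h4, h5]),
    card_insert_of_notMem (by simp [h6]), card_singleton]

include m in
theorem cardX [Fintype X] [Fintype F] : Fintype.card X = 4 * Fintype.card F := by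
  classical
  have h := Finset.card_eq_sum_card_fiberwise (s := (univ : Finset X)) (t := (univ : Finset F))
    (f := m.f) (fun x _ => by simp)
  rw [Finset.card_univ] at h
  rw [h, Finset.sum_congr rfl (fun φ _ => face4 m φ)]
  simp [mul_comm]

include m in
theorem cardV [Fintype V] [Fintype F] : Fintype.card V = Fintype.card F := by
  rw [← Nat.card_eq_fintype_card, ← Nat.card_eq_fintype_card, m.eul]

theorem exT [Finite X] : ∃ T : Set X, ∀ x, x ∈ T ↔ m.t x ∉ T := by
  obtain ⟨n, ⟨e⟩⟩ := Finite.exists_equiv_fin X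
  refine ⟨{x | e x < e (m.t x)}, fun x => ?_⟩
  simp only [Set.mem_ofPred_eq, m.tt, not_lt]
  refine ⟨le_of_lt, fun h => lt_of_le_of_ne h fun h' => ?_⟩
  exact m.tne x (e.injective h').symm

variable {m}

/-- a `t`-invariant set has half of its elements in `T` -/
theorem half [Fintype X] [DecidableEq X] {T : Set X} [DecidablePred (· ∈ T)]
    (hT : ∀ x, x ∈ T ↔ m.t x ∉ T) (A : Finset X) (hA : ∀ x ∈ A, m.t x ∈ A) :
    A.card = 2 * (A.filter (· ∈ T)).card := by
  have h1 := Finset.card_filter_add_card_filter_not (s := A) (fun x => x ∈ T)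
  have h2 : (A.filter (· ∈ T)).card = (A.filter (fun x => ¬ x ∈ T)).card := by
    refine Finset.card_nbij' m.t m.t ?_ ?_ ?_ ?_
    · intro x hx
      simp only [coe_filter, Set.mem_ofPred_eq] at hx ⊢
      exact ⟨hA x hx.1, (hT x).1 hx.2⟩
    · intro x hx
      simp only [coe_filter, Set.mem_ofPred_eq] at hx ⊢
      refine ⟨hA x hx.1, ?_⟩
      rw [hT, m.tt]
      exact hx.2
    · intro x _
      exact m.tt x
    · intro x _
      exact m.tt x
  omega

theorem sum_T [Fintype X] {T : Set X} [DecidablePred (· ∈ T)]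
    (hT : ∀ x, x ∈ T ↔ m.t x ∉ T) (g : X → ZMod 2) :
    ∑ x ∈ univ.filter (· ∈ T), (g x + g (m.t x)) = ∑ x, g x := by
  rw [Finset.sum_add_distrib]
  have h : ∑ x ∈ univ.filter (· ∈ T), g (m.t x) = ∑ x ∈ univ.filter (fun x => ¬ x ∈ T), g x := by
    refine Finset.sum_nbij' m.t m.t ?_ ?_ ?_ ?_ ?_
    · intro x hx
      simp only [mem_filter, mem_univ, true_and] at hx ⊢
      exact (hT x).1 hx
    · intro x hx
      simp only [mem_filter, mem_univ, true_and] at hx ⊢
      rw [hT, m.tt]
      exact hx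
    · intro x _
      exact m.tt x
    · intro x _
      exact m.tt x
    · intro x _
      rfl
  rw [h, Finset.sum_filter_add_sum_filter_not]

variable (m)

/-- incidence of a face and an edge -/
noncomputable def c (φ : F) (x : X) : ZMod 2 := by
  classical
  exact (if m.f x = φ then 1 else 0) + (if m.f (m.s.symm x) = φ then 1 else 0)

theorem c_t (φ : F) (x : X) : c m φ (m.t x) = c m φ x := by
  unfold c
  rw [f_t, f_st]

theorem sum_c [Fintype X] {T : Set X} [DecidablePred (· ∈ T)]
    (hT : ∀ x, x ∈ T ↔ m.t x ∉ T) (β : V → ZMod 2) (φ : F) :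
    ∑ x ∈ univ.filter (· ∈ T), c m φ x * (β (m.v x) + β (m.v (m.t x))) = 0 := by
  classical
  have h1 : ∑ x ∈ univ.filter (· ∈ T), c m φ x * (β (m.v x) + β (m.v (m.t x))) =
      ∑ x ∈ univ.filter (· ∈ T), ((fun x => c m φ x * β (m.v x)) x +
        (fun x => c m φ x * β (m.v x)) (m.t x)) := by
    refine Finset.sum_congr rfl fun x _ => ?_
    simp only [c_t]
    ring
  rw [h1, sum_T hT]
  have h2 : ∑ x, c m φ x * β (m.v x) = ∑ x, (if m.f x = φ then 1 else 0) * β (m.v x) +
      ∑ x, (if m.f (m.s.symm x) = φ then 1 else 0) * β (m.v x) := by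
    rw [← Finset.sum_add_distrib]
    refine Finset.sum_congr rfl fun x _ => ?_
    unfold c
    ring
  have h3 : ∑ x, (if m.f (m.s.symm x) = φ then (1 : ZMod 2) else 0) * β (m.v x) =
      ∑ x, (if m.f x = φ then 1 else 0) * β (m.v x) := by
    rw [← Equiv.sum_comp m.s]
    refine Finset.sum_congr rfl fun x _ => ?_
    rw [Equiv.symm_apply_apply, v_s]
  rw [h2, h3]
  exact CharTwo.add_self_eq_zero _

theorem cast_even (n k : ℕ) (h : n = 2 * k) : (n : ZMod 2) = 0 := by
  rw [h, Nat.cast_mul]
  have : ((2 : ℕ) : ZMod 2) = 0 := by decide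
  rw [this, zero_mul]

theorem sum_c1 [Fintype X] {T : Set X} [DecidablePred (· ∈ T)]
    (hT : ∀ x, x ∈ T ↔ m.t x ∉ T) (φ : F) :
    ∑ x ∈ univ.filter (· ∈ T), c m φ x = 0 := by
  classical
  have h0 : ∑ x ∈ univ.filter (· ∈ T), c m φ x =
      ∑ x ∈ univ.filter (· ∈ T), (if m.f x = φ then (1 : ZMod 2) else 0) +
      ∑ x ∈ univ.filter (· ∈ T), (if m.f (m.s.symm x) = φ then (1 : ZMod 2) else 0) := by
    rw [← Finset.sum_add_distrib]
    rfl
  have hA := face4 m φ
  have hA2 := half hT (univ.filter (fun x => m.f x = φ)) (fun x hx => by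
    simp only [mem_filter, mem_univ, true_and] at hx ⊢
    rw [f_t, hx])
  have hB2 := half hT (univ.filter (fun x => m.f (m.s.symm x) = φ)) (fun x hx => by
    simp only [mem_filter, mem_univ, true_and] at hx ⊢
    rw [f_st, hx])
  have hB : (univ.filter (fun x => m.f (m.s.symm x) = φ)).card = 4 := by
    rw [← hA]
    refine Finset.card_nbij' m.s.symm m.s ?_ ?_ ?_ ?_
    · intro x hx
      simpa using hx
    · intro x hx
      simpa using hx
    · intro x _
      simp
    · intro x _
      simp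
  rw [h0, Finset.sum_boole, Finset.sum_boole, Finset.filter_filter, Finset.filter_filter]
  have e1 : (univ.filter (fun x => x ∈ T ∧ m.f x = φ)).card = 2 := by
    rw [Finset.filter_filter] at hA2
    have : (univ.filter (fun x => x ∈ T ∧ m.f x = φ)) =
        (univ.filter (fun x => m.f x = φ ∧ x ∈ T)) := by
      ext x
      simp [and_comm]
    rw [this]
    omega
  have e2 : (univ.filter (fun x => x ∈ T ∧ m.f (m.s.symm x) = φ)).card = 2 := by
    rw [Finset.filter_filter] at hB2
    have : (univ.filter (fun x => x ∈ T ∧ m.f (m.s.symm x) = φ)) =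
        (univ.filter (fun x => m.f (m.s.symm x) = φ ∧ x ∈ T)) := by
      ext x
      simp [and_comm]
    rw [this]
    omega
  rw [e1, e2]
  decide

end basic

section main

variable (m : QMap X V F) (T : Set X) (Y : Set V)

/-- edges not inside `Y` -/
abbrev E : Type := {x : X // x ∈ T ∧ ¬ (m.v x ∈ Y ∧ m.v (m.t x) ∈ Y)}

/-- the incidence matrix -/
noncomputable def M : Matrix F (E m T Y) (ZMod 2) := Matrix.of fun φ x => c m φ x.1

/-- extension by zero -/
noncomputable def ext0 (β : {a : V // a ∉ Y} → ZMod 2) (a : V) : ZMod 2 := by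
  classical
  exact if h : a ∉ Y then β ⟨a, h⟩ else 0

/-- coboundary -/
noncomputable def δ : ({a : V // a ∉ Y} → ZMod 2) →ₗ[ZMod 2] (E m T Y → ZMod 2) where
  toFun β := fun x => ext0 Y β (m.v x.1) + ext0 Y β (m.v (m.t x.1))
  map_add' β γ := by
    have h : ∀ a, ext0 Y (β + γ) a = ext0 Y β a + ext0 Y γ a := by
      intro a
      unfold ext0
      by_cases ha : a ∉ Y
      · simp [ha]
      · simp [ha]
    funext x
    simp only [h, Pi.add_apply]
    ring
  map_smul' k β := by
    have h : ∀ a, ext0 Y (k • β) a = k * ext0 Y β a := by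
      intro a
      unfold ext0
      by_cases ha : a ∉ Y
      · simp [ha]
      · simp [ha]
    funext x
    simp only [h, Pi.smul_apply, smul_eq_mul, RingHom.id_apply]
    ring

variable {m T Y}

theorem sum_E [Fintype X] [DecidablePred (· ∈ T)] [Fintype (E m T Y)] (g : X → ZMod 2)
    (hg : ∀ x ∈ T, m.v x ∈ Y → m.v (m.t x) ∈ Y → g x = 0) :
    ∑ x : E m T Y, g x.1 = ∑ x ∈ univ.filter (· ∈ T), g x := by
  classical
  have h1 : ∑ x ∈ univ.filter (· ∈ T), g x =
      ∑ x ∈ univ.filter (fun x => x ∈ T ∧ ¬ (m.v x ∈ Y ∧ m.v (m.t x) ∈ Y)), g x := by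
    symm
    refine Finset.sum_subset ?_ ?_
    · intro x hx
      simp only [mem_filter, mem_univ, true_and] at hx ⊢
      exact hx.1
    · intro x hx hx'
      simp only [mem_filter, mem_univ, true_and] at hx hx'
      have : m.v x ∈ Y ∧ m.v (m.t x) ∈ Y := by
        by_contra hc
        exact hx' ⟨hx, hc⟩
      exact hg x hx this.1 this.2
  rw [h1]
  exact (Finset.sum_subtype _ (fun x => by simp) g).symm

/-- the coboundary is injective -/
theorem δ_inj (hT : ∀ x, x ∈ T ↔ m.t x ∉ T) (hY : Y.Nonempty) :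
    Function.Injective (δ m T Y) := by
  classical
  rw [← LinearMap.ker_eq_bot, LinearMap.ker_eq_bot']
  intro β hβ
  have hY0 : ∀ a ∈ Y, ext0 Y β a = 0 := by
    intro a ha
    unfold ext0
    simp [ha]
  have key0 : ∀ x ∈ T, ext0 Y β (m.v x) = ext0 Y β (m.v (m.t x)) := by
    intro x hx
    by_cases hc : m.v x ∈ Y ∧ m.v (m.t x) ∈ Y
    · rw [hY0 _ hc.1, hY0 _ hc.2]
    · have h := congrFun hβ ⟨x, hx, hc⟩
      change ext0 Y β (m.v x) + ext0 Y β (m.v (m.t x)) = 0 at h
      exact CharTwo.add_eq_zero.1 h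
  have key : ∀ x, ext0 Y β (m.v x) = ext0 Y β (m.v (m.t x)) := by
    intro x
    by_cases hx : x ∈ T
    · exact key0 x hx
    · have hx' : m.t x ∈ T := by
        by_contra hc
        exact hx ((hT x).2 hc)
      have h := key0 _ hx'
      rw [m.tt] at h
      exact h.symm
  obtain ⟨y, hy⟩ := hY
  obtain ⟨y0, rfl⟩ := m.vs y
  have h0 : ∀ x, ext0 Y β (m.v x) = 0 := by
    intro x
    refine m.conn (fun x => ext0 Y β (m.v x) = 0) (fun x => ?_) (fun x => ?_) y0 x (hY0 _ hy)
    · rw [v_s]
    · rw [key x]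
  funext a
  obtain ⟨x, hx⟩ := m.vs a.1
  have h := h0 x
  rw [hx] at h
  unfold ext0 at h
  simpa [a.2] using h

theorem range_le [Fintype X] [Fintype (E m T Y)] (hT : ∀ x, x ∈ T ↔ m.t x ∉ T) :
    LinearMap.range (δ m T Y) ≤ LinearMap.ker (M m T Y).mulVecLin := by
  classical
  rintro _ ⟨β, rfl⟩
  rw [LinearMap.mem_ker]
  funext φ
  change ∑ x : E m T Y, c m φ x.1 * (ext0 Y β (m.v x.1) + ext0 Y β (m.v (m.t x.1))) = 0
  rw [sum_E (m := m) (T := T) (Y := Y)
    (fun x => c m φ x * (ext0 Y β (m.v x) + ext0 Y β (m.v (m.t x)))) ?_]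
  · exact sum_c m hT _ φ
  · intro x _ h1 h2
    have hY0 : ∀ a ∈ Y, ext0 Y β a = 0 := by
      intro a ha
      unfold ext0
      simp [ha]
    simp only [hY0 _ h1, hY0 _ h2, add_zero, mul_zero]

/-- functions on the faces with trivial coboundary are constant on the regions -/
theorem ker_le [Finite X] [Fintype F] [Fintype (E m T Y)] (hT : ∀ x, x ∈ T ↔ m.t x ∉ T) :
    Module.finrank (ZMod 2) (LinearMap.ker (M m T Y).transpose.mulVecLin) ≤ m.R Y := by
  classical
  have : Finite (Quot (m.J Y)) := Finite.of_surjective (Quot.mk _) Quot.mk_surjective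
  have : Fintype (Quot (m.J Y)) := Fintype.ofFinite _
  have key0 : ∀ h ∈ LinearMap.ker (M m T Y).transpose.mulVecLin, ∀ x ∈ T,
      ¬ (m.v x ∈ Y ∧ m.v (m.t x) ∈ Y) → h (m.f x) = h (m.f (m.s.symm x)) := by
    intro h hh x hx hc
    rw [LinearMap.mem_ker] at hh
    have h1 := congrFun hh ⟨x, hx, hc⟩
    change ∑ φ : F, c m φ x * h φ = 0 at h1
    unfold c at h1
    simp only [add_mul, ite_mul, one_mul, zero_mul, Finset.sum_add_distrib,
      Finset.sum_ite_eq, Finset.mem_univ, if_true] at h1
    exact CharTwo.add_eq_zero.1 h1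
  have key : ∀ h ∈ LinearMap.ker (M m T Y).transpose.mulVecLin, ∀ a b, m.J Y a b → h a = h b := by
    rintro h hh a b ⟨x, hc, rfl, rfl⟩
    by_cases hx : x ∈ T
    · exact key0 h hh x hx hc
    · have hx' : m.t x ∈ T := by
        by_contra hc
        exact hx ((hT x).2 hc)
      have h1 := key0 h hh (m.t x) hx' (by
        rw [m.tt]
        exact fun hd => hc ⟨hd.2, hd.1⟩)
      rwa [f_t, f_st] at h1
  let Λ : (Quot (m.J Y) → ZMod 2) →ₗ[ZMod 2] (F → ZMod 2) :=
    { toFun := fun g φ => g (Quot.mk _ φ)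
      map_add' := fun _ _ => rfl
      map_smul' := fun _ _ => rfl }
  have hle : LinearMap.ker (M m T Y).transpose.mulVecLin ≤ LinearMap.range Λ := by
    intro h hh
    exact ⟨Quot.lift h (key h hh), rfl⟩
  refine (Submodule.finrank_mono hle).trans ?_
  refine (LinearMap.finrank_range_le Λ).trans ?_
  rw [Module.finrank_fintype_fun_eq_card]
  unfold QMap.R
  rw [Nat.card_eq_fintype_card]

/-- number of edges not inside `Y` -/
theorem cardE [Fintype X] [Fintype F] [Fintype (E m T Y)] (hT : ∀ x, x ∈ T ↔ m.t x ∉ T) :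
    2 * Fintype.card (E m T Y) + m.d Y = 4 * Fintype.card F := by
  classical
  rw [← cardX m]
  have h1 : Fintype.card (E m T Y) = ((univ.filter (fun x => ¬ (m.v x ∈ Y ∧ m.v (m.t x) ∈ Y))).filter
      (· ∈ T)).card := by
    rw [Finset.filter_filter]
    refine Fintype.card_of_subtype _ fun x => ?_
    simp only [mem_filter, mem_univ, true_and]
    exact and_comm
  have h2 : m.d Y = (univ.filter (fun x => m.v x ∈ Y ∧ m.v (m.t x) ∈ Y)).card := by
    unfold QMap.d
    rw [← Set.ncard_coe_finset]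
    congr 1
    ext x
    simp
  have h3 := half (m := m) hT (univ.filter (fun x => ¬ (m.v x ∈ Y ∧ m.v (m.t x) ∈ Y)))
    (fun x hx => by
      simp only [mem_filter, mem_univ, true_and] at hx ⊢
      rw [m.tt]
      exact fun hd => hx ⟨hd.2, hd.1⟩)
  have h4 := Finset.card_filter_add_card_filter_not (s := (univ : Finset X))
    (fun x => m.v x ∈ Y ∧ m.v (m.t x) ∈ Y)
  rw [Finset.card_univ] at h4
  rw [h1, h2]
  omega

theorem ranks [Fintype X] [Fintype V] [Fintype F] [Fintype (E m T Y)]
    (hT : ∀ x, x ∈ T ↔ m.t x ∉ T) (hY : Y.Nonempty) :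
    Module.finrank (ZMod 2) (LinearMap.range (δ m T Y)) + Y.ncard = Fintype.card V ∧
    Module.finrank (ZMod 2) (LinearMap.ker (M m T Y).mulVecLin) + Fintype.card F ≤
      Fintype.card (E m T Y) + m.R Y := by
  classical
  constructor
  · rw [LinearMap.finrank_range_of_inj (δ_inj hT hY), Module.finrank_fintype_fun_eq_card]
    have h : Yᶜ.ncard = Fintype.card {a : V // a ∉ Y} := by
      rw [← Nat.card_coe_set_eq, Nat.card_eq_fintype_card]
      exact Fintype.card_congr (Equiv.refl _)
    rw [← h, add_comm, Set.ncard_add_ncard_compl, Nat.card_eq_fintype_card]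
  · have h1 := LinearMap.finrank_range_add_finrank_ker (M m T Y).mulVecLin
    have h2 := LinearMap.finrank_range_add_finrank_ker (M m T Y).transpose.mulVecLin
    have h3 : (M m T Y).transpose.rank = (M m T Y).rank := Matrix.rank_transpose _
    unfold Matrix.rank at h3
    rw [Module.finrank_fintype_fun_eq_card] at h1 h2
    have h4 := ker_le (m := m) (T := T) (Y := Y) hT
    omega

end main

end KB_LA

/-- LA -/
theorem t_LA : S_LA := by
  classical
  intro X V F _ _ _ m Y hY
  have := Fintype.ofFinite X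
  have := Fintype.ofFinite V
  have := Fintype.ofFinite F
  obtain ⟨T, hT⟩ := KB_LA.exT m
  have : Fintype (KB_LA.E m T Y) := Fintype.ofFinite _
  obtain ⟨h1, h2⟩ := KB_LA.ranks (m := m) (T := T) (Y := Y) hT hY
  have h3 := Submodule.finrank_mono (KB_LA.range_le (m := m) (T := T) (Y := Y) hT)
  have h4 := KB_LA.cardE (m := m) (T := T) (Y := Y) hT
  have h5 := KB_LA.cardV m
  omega

/-- LE -/
theorem t_LE : S_LE := by
  classical
  intro X V F _ _ _ m K hK hd hR hcol
  have := Fintype.ofFinite X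
  have := Fintype.ofFinite V
  have := Fintype.ofFinite F
  obtain ⟨T, hT⟩ := KB_LA.exT m
  have : Fintype (KB_LA.E m T K) := Fintype.ofFinite _
  obtain ⟨h1, h2⟩ := KB_LA.ranks (m := m) (T := T) (Y := K) hT hK
  have h3 := Submodule.finrank_mono (KB_LA.range_le (m := m) (T := T) (Y := K) hT)
  have h4 := KB_LA.cardE (m := m) (T := T) (Y := K) hT
  have h5 := KB_LA.cardV m
  have heq : LinearMap.range (KB_LA.δ m T K) = LinearMap.ker (KB_LA.M m T K).mulVecLin :=
    Submodule.eq_of_le_of_finrank_eq (KB_LA.range_le (m := m) (T := T) (Y := K) hT) (by omega)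
  obtain ⟨col, hcol⟩ := hcol
  -- the colouring of `K` extended by zero
  let γ : V → ZMod 2 := fun a => if a ∈ K then (if col a then 1 else 0) else 0
  let α : KB_LA.E m T K → ZMod 2 := fun x => 1 + (γ (m.v x.1) + γ (m.v (m.t x.1)))
  have hα : α ∈ LinearMap.ker (KB_LA.M m T K).mulVecLin := by
    rw [LinearMap.mem_ker]
    funext φ
    change ∑ x : KB_LA.E m T K, KB_LA.c m φ x.1 * (1 + (γ (m.v x.1) + γ (m.v (m.t x.1)))) = 0
    rw [KB_LA.sum_E (m := m) (T := T) (Y := K)
      (fun x => KB_LA.c m φ x * (1 + (γ (m.v x) + γ (m.v (m.t x))))) ?_]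
    · simp only [mul_add, mul_one, Finset.sum_add_distrib]
      have e1 := KB_LA.sum_c1 m hT φ
      have e2 := KB_LA.sum_c m hT γ φ
      simp only [mul_add, Finset.sum_add_distrib] at e2
      rw [e1, e2, add_zero]
    · intro x _ hx1 hx2
      have hne := hcol x hx1 hx2
      have : (1 : ZMod 2) + (γ (m.v x) + γ (m.v (m.t x))) = 0 := by
        simp only [γ, hx1, hx2, if_true]
        cases h7 : col (m.v x) <;> cases h8 : col (m.v (m.t x))
        · rw [h7, h8] at hne
          exact absurd rfl hne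
        · simp
          decide
        · simp
          decide
        · rw [h7, h8] at hne
          exact absurd rfl hne
      simp only [this, mul_zero]
  rw [← heq] at hα
  obtain ⟨β, hβ⟩ := hα
  have key0 : ∀ x ∈ T, γ (m.v x) + KB_LA.ext0 K β (m.v x) ≠
      γ (m.v (m.t x)) + KB_LA.ext0 K β (m.v (m.t x)) := by
    intro x hx
    by_cases hc : m.v x ∈ K ∧ m.v (m.t x) ∈ K
    · have hne := hcol x hc.1 hc.2
      have z1 : KB_LA.ext0 K β (m.v x) = 0 := by
        unfold KB_LA.ext0
        simp [hc.1]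
      have z2 : KB_LA.ext0 K β (m.v (m.t x)) = 0 := by
        unfold KB_LA.ext0
        simp [hc.2]
      rw [z1, z2, add_zero, add_zero]
      simp only [γ, hc.1, hc.2, if_true]
      cases h7 : col (m.v x) <;> cases h8 : col (m.v (m.t x))
      · rw [h7, h8] at hne
        exact absurd rfl hne
      · simp
      · simp
      · rw [h7, h8] at hne
        exact absurd rfl hne
    · have h := congrFun hβ ⟨x, hx, hc⟩
      change KB_LA.ext0 K β (m.v x) + KB_LA.ext0 K β (m.v (m.t x)) =
        1 + (γ (m.v x) + γ (m.v (m.t x))) at h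
      intro hcon
      generalize KB_LA.ext0 K β (m.v x) = a at h hcon
      generalize KB_LA.ext0 K β (m.v (m.t x)) = b at h hcon
      generalize γ (m.v x) = c at h hcon
      generalize γ (m.v (m.t x)) = d at h hcon
      revert a b c d
      decide
  have key : ∀ x, γ (m.v x) + KB_LA.ext0 K β (m.v x) ≠
      γ (m.v (m.t x)) + KB_LA.ext0 K β (m.v (m.t x)) := by
    intro x
    by_cases hx : x ∈ T
    · exact key0 x hx
    · have hx' : m.t x ∈ T := by
        by_contra hc
        exact hx ((hT x).2 hc)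
      have h := key0 _ hx'
      rw [m.tt] at h
      exact h.symm
  refine ⟨fun a => decide (γ a + KB_LA.ext0 K β a = 0), fun x hx => ?_⟩
  have hk := key x
  beta_reduce at hx
  generalize γ (m.v x) + KB_LA.ext0 K β (m.v x) = a at hk hx
  generalize γ (m.v (m.t x)) + KB_LA.ext0 K β (m.v (m.t x)) = b at hk hx
  revert a b
  decide

end KB
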