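import Pool.Agent.KB.St

/-!
# ODD: an odd balanced set when the map is not bipartite
-/

set_option autoImplicit false

namespace KB

namespace KB_ODD

variable {X V F : Type}

/-- a directed walk of length `n` from `u` to `w` -/
def Wk (m : QMap X V F) (O : Set X) : ℕ → V → V → Prop
  | 0, u, w => u = w
  | n + 1, u, w => ∃ x, x ∈ O ∧ m.v x = u ∧ Wk m O n (m.v (m.t x)) w

theorem wk_add (m : QMap X V F) (O : Set X) : ∀ (n k : ℕ) (u w z : V),
    Wk m O n u w → Wk m O k w z → Wk m O (n + k) u z := by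
  intro n
  induction n with
  | zero =>
    intro k u w z h1 h2
    have e : u = w := h1
    subst e
    rw [Nat.zero_add]
    exact h2
  | succ n ih =>
    intro k u w z h1 h2
    obtain ⟨x, hx, hu, hr⟩ := h1
    have e : n + 1 + k = (n + k) + 1 := by omega
    rw [e]
    exact ⟨x, hx, hu, ih k _ w z hr h2⟩

theorem wk_one (m : QMap X V F) (O : Set X) (x : X) (hx : x ∈ O) :
    Wk m O 1 (m.v x) (m.v (m.t x)) := ⟨x, hx, rfl, rfl⟩

theorem wk_seq (m : QMap X V F) (O : Set X) (x0 : X) : ∀ (n : ℕ) (u w : V),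
    Wk m O n u w → ∃ (b : ℕ → X) (a : ℕ → V), a 0 = u ∧ a n = w ∧
      ∀ i, i < n → b i ∈ O ∧ m.v (b i) = a i ∧ m.v (m.t (b i)) = a (i + 1) := by
  intro n
  induction n with
  | zero =>
    intro u w h
    exact ⟨fun _ => x0, fun _ => u, rfl, h, fun i hi => absurd hi (Nat.not_lt_zero i)⟩
  | succ n ih =>
    intro u w h
    obtain ⟨x, hx, hu, hr⟩ := h
    obtain ⟨b, a, ha0, han, hb⟩ := ih _ _ hr
    refine ⟨fun i => Nat.casesOn i x b, fun i => Nat.casesOn i u a, rfl, han, ?_⟩
    intro i hi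
    cases i with
    | zero => exact ⟨hx, hu, ha0.symm⟩
    | succ i => exact hb i (by omega)

theorem wk_seg (m : QMap X V F) (O : Set X) (n : ℕ) (b : ℕ → X) (a : ℕ → V)
    (hb : ∀ i, i < n → b i ∈ O ∧ m.v (b i) = a i ∧ m.v (m.t (b i)) = a (i + 1)) :
    ∀ k i : ℕ, i + k ≤ n → Wk m O k (a i) (a (i + k)) := by
  intro k
  induction k with
  | zero => intro i _; exact rfl
  | succ k ih =>
    intro i hi
    obtain ⟨h1, h2, h3⟩ := hb i (by omega)
    refine ⟨b i, h1, h2, ?_⟩
    rw [h3]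
    have e : i + (k + 1) = i + 1 + k := by omega
    rw [e]
    exact ih (i + 1) (by omega)

/-- a shortest odd closed directed walk gives the balanced set -/
theorem odd_set [Finite X] (m : QMap X V F) (O : Set X)
    (h : ∃ n u, Odd n ∧ Wk m O n u u) :
    ∃ Γ : Set X, Γ ⊆ O ∧ Odd Γ.ncard ∧ m.Bal Γ := by
  classical
  have hn : ∃ n, Odd n ∧ ∃ u, Wk m O n u u := by
    obtain ⟨n, u, h1, h2⟩ := h
    exact ⟨n, h1, u, h2⟩
  obtain ⟨hodd, u, hu⟩ := Nat.find_spec hn
  have hmin : ∀ k, k < Nat.find hn → ¬ (Odd k ∧ ∃ u, Wk m O k u u) :=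
    fun k hk => Nat.find_min hn hk
  generalize Nat.find hn = n at hodd hu hmin
  have hpos : 0 < n := by
    rcases hodd with ⟨k, hk⟩
    omega
  have hx0 : ∃ x0 : X, True := by
    cases n with
    | zero => exact absurd hpos (Nat.lt_irrefl 0)
    | succ n =>
      obtain ⟨x, _⟩ := hu
      exact ⟨x, trivial⟩
  obtain ⟨x0, _⟩ := hx0
  obtain ⟨b, a, ha0, han, hb⟩ := wk_seq m O x0 n u u hu
  -- injectivity
  have hlt : ∀ i j, i < j → j < n → b i ≠ b j := by
    intro i j hij hj e
    have hi := hb i (by omega)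
    have hj' := hb j hj
    have ea : a i = a j := by rw [← hi.2.1, ← hj'.2.1, e]
    have w1 := wk_seg m O n b a hb (j - i) i (by omega)
    have e1 : i + (j - i) = j := by omega
    rw [e1, ← ea] at w1
    have w2 := wk_seg m O n b a hb (n - j) j (by omega)
    have e2 : j + (n - j) = n := by omega
    rw [e2, ← ea] at w2
    have w3 := wk_seg m O n b a hb i 0 (by omega)
    rw [Nat.zero_add, ha0] at w3
    rw [han] at w2
    have w4 := wk_add m O i (n - j) u (a i) u w3 w2
    rcases Nat.even_or_odd (j - i) with he | ho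
    · have ho : Odd (i + (n - j)) := by
        rcases hodd with ⟨p, hp⟩
        rcases he with ⟨q, hq⟩
        refine ⟨p - q, ?_⟩
        omega
      exact hmin (i + (n - j)) (by omega) ⟨ho, u, w4⟩
    · exact hmin (j - i) (by omega) ⟨ho, a i, w1⟩
  have hinj : ∀ i j, i < n → j < n → b i = b j → i = j := by
    intro i j hi hj e
    rcases lt_trichotomy i j with h | h | h
    · exact absurd e (hlt i j h hj)
    · exact h
    · exact absurd e.symm (hlt j i h hi)
  have key : ∀ p : X → Prop, {x | x ∈ b '' {i | i < n} ∧ p x}.ncard =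
      ∑ i ∈ Finset.range n, if p (b i) then 1 else 0 := by
    intro p
    rw [← Finset.card_filter]
    have e : {x | x ∈ b '' {i | i < n} ∧ p x} =
        b '' (((Finset.range n).filter (fun i => p (b i)) : Finset ℕ) : Set ℕ) := by
      ext x
      constructor
      · rintro ⟨⟨i, hi, rfl⟩, hp⟩
        refine ⟨i, ?_, rfl⟩
        rw [Finset.mem_coe, Finset.mem_filter, Finset.mem_range]
        exact ⟨hi, hp⟩
      · rintro ⟨i, hi, rfl⟩
        rw [Finset.mem_coe, Finset.mem_filter, Finset.mem_range] at hi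
        exact ⟨⟨i, hi.1, rfl⟩, hi.2⟩
    rw [e, Set.InjOn.ncard_image, Set.ncard_coe_finset]
    intro i hi j hj hij
    rw [Finset.mem_coe, Finset.mem_filter, Finset.mem_range] at hi hj
    exact hinj i j hi.1 hj.1 hij
  refine ⟨b '' {i | i < n}, ?_, ?_, ?_⟩
  · rintro x ⟨i, hi, rfl⟩
    exact (hb i hi).1
  · have h1 := key (fun _ => True)
    have e : {x | x ∈ b '' {i | i < n} ∧ True} = b '' {i | i < n} := by
      ext x
      simp
    rw [e] at h1
    rw [h1]
    simpa using hodd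
  · intro a0
    rw [key (fun x => m.v x = a0), key (fun x => m.v (m.t x) = a0)]
    have s1 : (∑ i ∈ Finset.range n, if m.v (b i) = a0 then 1 else 0) =
        ∑ i ∈ Finset.range n, if a i = a0 then 1 else 0 := by
      refine Finset.sum_congr rfl ?_
      intro i hi
      rw [(hb i (Finset.mem_range.mp hi)).2.1]
    have s2 : (∑ i ∈ Finset.range n, if m.v (m.t (b i)) = a0 then 1 else 0) =
        ∑ i ∈ Finset.range n, if a (i + 1) = a0 then 1 else 0 := by
      refine Finset.sum_congr rfl ?_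
      intro i hi
      rw [(hb i (Finset.mem_range.mp hi)).2.2]
    rw [s1, s2]
    have t1 := Finset.sum_range_succ (fun i => if a i = a0 then 1 else 0) n
    have t2 := Finset.sum_range_succ' (fun i => if a i = a0 then 1 else 0) n
    rw [t1] at t2
    have t3 : (if a n = a0 then 1 else 0) = (if a 0 = a0 then 1 else 0) := by
      rw [han, ha0]
    rw [t3] at t2
    exact (Nat.add_right_cancel t2).symm ▸ rfl

/-- the darts inside a closed set -/
theorem d_closed [Finite X] [Finite V] (m : QMap X V F) (O : Set X) (hO : m.Ori O)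
    (K : Set V) (hK : ∀ b, b ∈ O → m.v b ∈ K → m.v (m.t b) ∈ K) :
    4 * K.ncard ≤ m.d K := by
  classical
  have _ := Fintype.ofFinite X
  have _ := Fintype.ofFinite V
  have hA : {x | x ∈ O ∧ m.v x ∈ K}.ncard = 2 * K.ncard := by
    have h1 : {x | x ∈ O ∧ m.v x ∈ K}.ncard =
        (Finset.univ.filter (fun x => x ∈ O ∧ m.v x ∈ K)).card := by
      rw [← Set.ncard_coe_finset]
      congr 1
      ext x
      simp
    have h2 : K.ncard = (Finset.univ.filter (fun a => a ∈ K)).card := by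
      rw [← Set.ncard_coe_finset]
      congr 1
      ext x
      simp
    rw [h1, h2]
    rw [Finset.card_eq_sum_card_fiberwise (f := m.v)
      (t := Finset.univ.filter (fun a => a ∈ K))]
    · rw [Finset.sum_congr rfl (g := fun _ => 2)]
      · rw [Finset.sum_const, smul_eq_mul, Nat.mul_comm]
      · intro a ha
        have h3 := hO.deg a
        rw [← h3]
        rw [← Set.ncard_coe_finset]
        congr 1
        ext x
        simp only [Finset.coe_filter, Finset.mem_filter, Finset.mem_univ, true_and,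
          Set.mem_ofPred_eq]
        constructor
        · rintro ⟨⟨h4, _⟩, h5⟩
          exact ⟨h4, h5⟩
        · rintro ⟨h4, h5⟩
          refine ⟨⟨h4, ?_⟩, h5⟩
          rw [h5]
          simpa using ha
    · intro x hx
      simp only [Finset.coe_filter, Finset.mem_univ, true_and, Set.mem_ofPred_eq] at hx ⊢
      exact hx.2
  have hinj : Function.Injective m.t := by
    intro x y h
    rw [← m.tt x, h, m.tt]
  have hB : (m.t '' {x | x ∈ O ∧ m.v x ∈ K}).ncard = 2 * K.ncard := by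
    rw [Set.ncard_image_of_injective _ hinj, hA]
  have hdis : Disjoint {x | x ∈ O ∧ m.v x ∈ K} (m.t '' {x | x ∈ O ∧ m.v x ∈ K}) := by
    rw [Set.disjoint_left]
    rintro x hx ⟨y, hy, rfl⟩
    exact (hO.ot y).mp hy.1 hx.1
  have hU := Set.ncard_union_eq hdis (Set.toFinite _) (Set.toFinite _)
  have hsub : {x | x ∈ O ∧ m.v x ∈ K} ∪ m.t '' {x | x ∈ O ∧ m.v x ∈ K} ⊆
      {x | m.v x ∈ K ∧ m.v (m.t x) ∈ K} := by
    rintro x (hx | ⟨y, hy, rfl⟩)
    · exact ⟨hx.2, hK x hx.1 hx.2⟩
    · refine ⟨hK y hy.1 hy.2, ?_⟩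
      rw [m.tt]
      exact hy.2
  have hle := Set.ncard_le_ncard hsub (Set.toFinite _)
  rw [hU, hA, hB] at hle
  unfold QMap.d
  omega

end KB_ODD

open KB_ODD in
/-- module ODD -/
theorem t_ODD (h : S_LE) : S_ODD := by
  classical
  intro X V F _ _ _ m O hO hT hB
  refine odd_set m O ?_
  by_contra hno
  have hno' : ∀ n u, Odd n → ¬ Wk m O n u u := fun n u h1 h2 => hno ⟨n, u, h1, h2⟩
  have hV : Nonempty V := by
    by_contra hV
    rw [not_nonempty_iff] at hV
    exact hB ⟨fun _ => true, fun x => (hV.false (m.v x)).elim⟩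
  have hex : ∃ n, ∃ K : Set V, K.Nonempty ∧ (∀ b, b ∈ O → m.v b ∈ K → m.v (m.t b) ∈ K) ∧
      K.ncard = n := by
    obtain ⟨v0⟩ := hV
    exact ⟨_, Set.univ, ⟨v0, Set.mem_univ _⟩, fun _ _ _ => Set.mem_univ _, rfl⟩
  obtain ⟨K, hKn, hKc, hKe⟩ := Nat.find_spec hex
  have hmin : ∀ L : Set V, L.Nonempty → (∀ b, b ∈ O → m.v b ∈ L → m.v (m.t b) ∈ L) →
      L ⊆ K → L = K := by
    intro L h1 h2 h3
    have h4 : Nat.find hex ≤ L.ncard := Nat.find_min' hex ⟨L, h1, h2, rfl⟩
    rw [← hKe] at h4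
    exact Set.eq_of_subset_of_ncard_le h3 h4 (Set.toFinite _)
  have hreach : ∀ u, u ∈ K → ∀ w, w ∈ K → ∃ n, Wk m O n u w := by
    intro u hu w hw
    have e := hmin {z | z ∈ K ∧ ∃ n, Wk m O n u z} ⟨u, hu, 0, rfl⟩ (by
      rintro b hb ⟨h1, n, h2⟩
      exact ⟨hKc b hb h1, n + 1, wk_add m O n 1 _ _ _ h2 (wk_one m O b hb)⟩)
      (fun z hz => hz.1)
    rw [← e] at hw
    exact hw.2
  obtain ⟨u, hu⟩ := hKn
  refine hB (h X V F m K ⟨u, hu⟩ (d_closed m O hO K hKc) (hT K ⟨u, hu⟩) ?_)
  have hpar : ∀ w, w ∈ K → ∀ n k, Wk m O n u w → Wk m O k u w → (Odd n ↔ Odd k) := by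
    intro w hw n k h1 h2
    obtain ⟨l, hl⟩ := hreach w hw u hu
    have h3 := hno' (n + l) u
    have h4 := hno' (k + l) u
    have h5 := wk_add m O n l u w u h1 hl
    have h6 := wk_add m O k l u w u h2 hl
    have h7 : ¬ Odd (n + l) := fun h => h3 h h5
    have h8 : ¬ Odd (k + l) := fun h => h4 h h6
    rw [Nat.not_odd_iff_even] at h7 h8
    rw [Nat.even_add] at h7 h8
    rw [← Nat.not_even_iff_odd, ← Nat.not_even_iff_odd, h7, h8]
  have hstep : ∀ x, x ∈ O → m.v x ∈ K →
      decide (∃ n, Odd n ∧ Wk m O n u (m.v x)) ≠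
        decide (∃ n, Odd n ∧ Wk m O n u (m.v (m.t x))) := by
    intro x hx hxK hc
    rw [decide_eq_decide] at hc
    obtain ⟨n, hn⟩ := hreach u hu _ hxK
    have hn1 := wk_add m O n 1 _ _ _ hn (wk_one m O x hx)
    have hyK := hKc x hx hxK
    rcases Nat.even_or_odd n with he | ho
    · have ho1 : Odd (n + 1) := he.add_one
      obtain ⟨k, hk1, hk2⟩ := hc.mpr ⟨n + 1, ho1, hn1⟩
      have h9 := (hpar _ hxK n k hn hk2).mpr hk1
      exact (Nat.not_even_iff_odd.mpr h9) he
    · obtain ⟨k, hk1, hk2⟩ := hc.mp ⟨n, ho, hn⟩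
      have h9 := (hpar _ hyK (n + 1) k hn1 hk2).mpr hk1
      exact (Nat.not_even_iff_odd.mpr h9) ho.add_one
  refine ⟨fun w => decide (∃ n, Odd n ∧ Wk m O n u w), ?_⟩
  intro x hx hy
  by_cases hxO : x ∈ O
  · exact hstep x hxO hx
  · have htx : m.t x ∈ O := by
      by_contra h1
      exact hxO ((hO.ot x).mpr h1)
    have h2 := hstep (m.t x) htx hy
    rw [m.tt] at h2
    exact fun h3 => h2 h3.symm

end KB
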