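import Pool.Agent.KB.Basic

/-!
# PC: the `Sim` classes of a region
-/

set_option autoImplicit false

namespace KB

open Function

namespace KB_PC

variable {X V F : Type} {m : QMap X V F} {O : Set X}

theorem iter_mem [Finite X] (h : m.Ori O) {b : X} (hb : b ∈ O) (n : ℕ) :
    (m.fn O)^[n] b ∈ O := by
  induction n with
  | zero => exact hb
  | succ n _ =>
    rw [Function.iterate_succ_apply']
    exact h.fn_mem _

theorem per_fn [Finite X] (h : m.Ori O) {b : X} (hb : b ∈ m.per O) : m.fn O b ∈ m.per O := by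
  refine ⟨h.fn_mem _, ?_⟩
  obtain ⟨n, hn, hp⟩ := hb.2
  exact ⟨n, hn, hp.apply⟩

theorem per_iter [Finite X] (h : m.Ori O) {b : X} (hb : b ∈ m.per O) (n : ℕ) :
    (m.fn O)^[n] b ∈ m.per O := by
  induction n with
  | zero => exact hb
  | succ n ih =>
    rw [Function.iterate_succ_apply']
    exact per_fn h ih

/-- eventually periodic -/
theorem ev_per [Finite X] (h : m.Ori O) {b : X} (hb : b ∈ O) : ∃ n, (m.fn O)^[n] b ∈ m.per O := by
  obtain ⟨i, j, hij, he⟩ := Finite.exists_ne_map_eq_of_infinite (fun n : ℕ => (m.fn O)^[n] b)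
  wlog hlt : i < j generalizing i j
  · exact this j i hij.symm he.symm (by omega)
  refine ⟨i, iter_mem h hb i, j - i, by omega, ?_⟩
  show (m.fn O)^[j - i] ((m.fn O)^[i] b) = (m.fn O)^[i] b
  rw [← Function.iterate_add_apply, Nat.sub_add_cancel hlt.le, ← he]

/-- a periodic dart in the region of `x` is an iterate of `x` -/
theorem per_reg {b x : X} (hb : b ∈ m.per O) (hr : m.Reg O b x) : ∃ i, (m.fn O)^[i] x = b := by
  obtain ⟨p, q, hpq⟩ := hr
  obtain ⟨n, hn, hper⟩ := hb.2
  refine ⟨(p * n - p) + q, ?_⟩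
  rw [Function.iterate_add_apply, ← hpq, ← Function.iterate_add_apply]
  have hle : p ≤ p * n := Nat.le_mul_of_pos_right p hn
  rw [Nat.sub_add_cancel hle]
  exact (hper.const_mul p)

theorem fn_injOn_per {b c : X} (hb : b ∈ m.per O) (hc : c ∈ m.per O)
    (he : m.fn O b = m.fn O c) : b = c := by
  obtain ⟨n, hn, hp⟩ := hb.2
  obtain ⟨k, hk, hq⟩ := hc.2
  have h1 : (m.fn O)^[n * k] b = b := hp.mul_const k
  have h2 : (m.fn O)^[n * k] c = c := hq.const_mul n
  have hpos : 0 < n * k := Nat.mul_pos hn hk
  obtain ⟨l, hl⟩ : ∃ l, n * k = l + 1 := ⟨n * k - 1, by omega⟩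
  rw [hl, Function.iterate_succ_apply] at h1 h2
  rw [← h1, ← h2, he]

/-- the half vertex is one `pr`-orbit -/
theorem pr_orbit [Finite X] (h : m.Ori O) (z : X) : ∃ i, (m.pr O)^[i] (m.out O z) = z := by
  refine h.out_induct (P := fun z => ∃ i, (m.pr O)^[i] (m.out O z) = z) ?_ ?_ z
  · intro y hy
    exact ⟨0, by simpa using QMap.out_of_mem hy⟩
  · intro y hy ih
    obtain ⟨i, hi⟩ := ih
    refine ⟨i + 1, ?_⟩
    rw [Function.iterate_succ_apply', h.out_step hy, hi, QMap.Ori.pr_s_of_notMem hy]

theorem out_iter [Finite X] (h : m.Ori O) (z : X) (i : ℕ) :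
    m.out O ((m.pr O)^[i] z) = m.out O z := by
  induction i with
  | zero => rfl
  | succ i ih => rw [Function.iterate_succ_apply', h.out_pr, ih]

theorem pr_periodic [Finite X] (h : m.Ori O) (b : X) : b ∈ periodicPts (m.pr O) := by
  exact Function.Injective.mem_periodicPts h.pr_inj b

/-- chain of `Sim` along `pr` -/
theorem chain {b : X} (i j : ℕ) (hij : i ≤ j)
    (hs : ∀ k, i ≤ k → k < j → m.Sim O ((m.pr O)^[k + 1] b) ((m.pr O)^[k] b)) :
    m.Sim O ((m.pr O)^[j] b) ((m.pr O)^[i] b) := by
  induction j with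
  | zero =>
    have : i = 0 := by omega
    subst this
    exact QMap.Sim.refl _
  | succ j ih =>
    rcases Nat.lt_or_ge j i with hlt | hge
    · have : i = j + 1 := by omega
      subst this
      exact QMap.Sim.refl _
    · exact (hs j hge (by omega)).trans (ih hge (fun k h1 h2 => hs k h1 (by omega)))

/-- if all non-out darts of the half vertex satisfy the step, so does the out dart -/
theorem close_up [Finite X] (h : m.Ori O) {b : X}
    (hs : ∀ z, m.out O z = m.out O b → z ≠ b → m.Sim O (m.pr O z) z) :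
    m.Sim O (m.pr O b) b := by
  have hp := pr_periodic h b
  set N := minimalPeriod (m.pr O) b with hN
  have hpos : 0 < N := minimalPeriod_pos_of_mem_periodicPts hp
  have hc := chain (m := m) (O := O) (b := b) 1 N hpos ?_
  · have e : (m.pr O)^[N] b = b := iterate_minimalPeriod
    rw [e] at hc
    exact hc.symm
  · intro k h1 h2
    rw [Function.iterate_succ_apply']
    apply hs
    · exact out_iter h b k
    · intro he
      have hper : IsPeriodicPt (m.pr O) k b := he
      exact not_isPeriodicPt_of_pos_of_lt_minimalPeriod (by omega) h2 hper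

theorem NP [Finite X] (h : m.Ori O) (z : X) (hz : m.out O z ∉ m.per O) :
    m.Sim O (m.pr O z) z := by
  -- the ancestor order
  let lt : X → X → Prop := fun c b => (∃ n, 0 < n ∧ (m.fn O)^[n] c = b) ∧
    b ∉ periodicPts (m.fn O)
  have htr : IsTrans X lt := ⟨by
    rintro a b c ⟨⟨n, hn, e1⟩, _⟩ ⟨⟨k, hk, e2⟩, h2⟩
    exact ⟨⟨k + n, by omega, by rw [Function.iterate_add_apply, e1, e2]⟩, h2⟩⟩
  have hir : Std.Irrefl lt := ⟨by
    rintro a ⟨⟨n, hn, e1⟩, h2⟩
    exact h2 ⟨n, hn, e1⟩⟩
  have hwf : WellFounded lt := Finite.wellFounded_of_trans_of_irrefl lt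
  have main : ∀ b : X, b ∈ O → b ∉ m.per O → ∀ z, m.out O z = b → m.Sim O (m.pr O z) z := by
    intro b
    induction b using hwf.induction with
    | _ b ih =>
      intro hbO hbp
      have hbp' : b ∉ periodicPts (m.fn O) := fun hh => hbp ⟨hbO, hh⟩
      have step : ∀ z, m.out O z = b → z ≠ b → m.Sim O (m.pr O z) z := by
        intro z hz hzb
        have hzO : z ∉ O := by
          intro hh
          rw [QMap.out_of_mem hh] at hz
          exact hzb hz
        have hfn : m.fn O (m.t z) = b := by
          unfold QMap.fn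
          rw [m.tt, hz]
        have hcper : m.t z ∉ m.per O := by
          intro hh
          exact hbp (hfn ▸ per_fn h hh)
        have := ih (m.t z) ⟨⟨1, one_pos, hfn⟩, hbp'⟩ (h.t_mem hzO) hcper (m.t z)
          (QMap.out_of_mem (h.t_mem hzO))
        exact ((QMap.Sim.pr z).trans this).trans (QMap.Sim.t z)
      intro z hz
      by_cases hzb : z = b
      · subst hzb
        apply close_up h
        intro y hy hyz
        exact step y (hy.trans hz) hyz
      · exact step z hz hzb
  exact main _ (h.out_mem z) hz z rfl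

/-- non special darts of a periodic half vertex -/
theorem P3 [Finite X] (h : m.Ori O) (z x : X) (hx : x ∈ m.per O) (hz : m.out O z = m.fn O x)
    (h1 : z ≠ m.fn O x) (h2 : z ≠ m.t x) : m.Sim O (m.pr O z) z := by
  have hzO : z ∉ O := by
    intro hh
    rw [QMap.out_of_mem hh] at hz
    exact h1 hz
  have hfn : m.fn O (m.t z) = m.fn O x := by
    unfold QMap.fn at hz ⊢
    rw [m.tt, hz]
  have hc : m.t z ∉ m.per O := by
    intro hh
    have := fn_injOn_per hh hx hfn
    apply h2
    rw [← this, m.tt]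
  have := NP h (m.t z) (by rw [QMap.out_of_mem (h.t_mem hzO)]; exact hc)
  exact ((QMap.Sim.pr z).trans this).trans (QMap.Sim.t z)

theorem P2 [Finite X] (h : m.Ori O) (x : X) (hx : x ∈ m.per O) :
    m.Sim O (m.pr O (m.fn O x)) x ∧ m.Sim O (m.pr O (m.t x)) (m.fn O x) := by
  set b := m.fn O x with hb
  have hbO : b ∈ O := h.fn_mem x
  have hp := pr_periodic h b
  set N := minimalPeriod (m.pr O) b with hN
  have hpos : 0 < N := minimalPeriod_pos_of_mem_periodicPts hp
  have eN : (m.pr O)^[N] b = b := iterate_minimalPeriod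
  have htx : m.t x ∉ O := h.t_notMem hx.1
  obtain ⟨j0, hj0⟩ := pr_orbit h (m.t x)
  have hout : m.out O (m.t x) = b := rfl
  rw [hout] at hj0
  set j := j0 % N with hj
  have hj' : (m.pr O)^[j] b = m.t x := by
    rw [hj, iterate_mod_minimalPeriod_eq, hj0]
  have hjN : j < N := Nat.mod_lt _ hpos
  have hj1 : 1 ≤ j := by
    rcases Nat.eq_zero_or_pos j with h0 | h0
    · exfalso
      rw [h0] at hj'
      apply htx
      rw [← hj']
      exact hbO
    · exact h0
  have inj : ∀ i k, i < N → k < N → (m.pr O)^[i] b = (m.pr O)^[k] b → i = k := by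
    intro i k hi hk he
    exact (iterate_injOn_Iio_minimalPeriod (f := m.pr O) (x := b)) hi hk he
  have stp : ∀ k, 1 ≤ k → k < N → k ≠ j →
      m.Sim O ((m.pr O)^[k + 1] b) ((m.pr O)^[k] b) := by
    intro k h1 h2 h3
    rw [Function.iterate_succ_apply']
    apply P3 h _ x hx
    · rw [out_iter h, QMap.out_of_mem hbO]
    · intro he
      have := inj k 0 h2 hpos (by simpa using he)
      omega
    · intro he
      rw [← hj'] at he
      exact h3 (inj k j h2 hjN he)
  constructor
  · have hc := chain (m := m) (O := O) (b := b) 1 j hj1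
      (fun k h1 h2 => stp k h1 (by omega) (by omega))
    rw [hj'] at hc
    exact (hc.symm).trans (QMap.Sim.t x)
  · have hc := chain (m := m) (O := O) (b := b) (j + 1) N hjN
      (fun k h1 h2 => stp k (by omega) h2 (by omega))
    rw [eN, Function.iterate_succ_apply', hj'] at hc
    exact hc.symm

/-- darts of a periodic half vertex -/
theorem half [Finite X] (h : m.Ori O) (x : X) (hx : x ∈ m.per O) (z : X) :
    m.out O z = m.fn O x → m.Sim O z x ∨ m.Sim O z (m.fn O x) := by
  refine h.out_induct (P := fun z => m.out O z = m.fn O x → m.Sim O z x ∨ m.Sim O z (m.fn O x))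
    ?_ ?_ z
  · intro y hy he
    rw [QMap.out_of_mem hy] at he
    right
    rw [he]
    exact QMap.Sim.refl _
  · intro y hy ih he
    have he' : m.out O (m.s y) = m.fn O x := by rw [← h.out_step hy]; exact he
    have ep : m.pr O (m.s y) = y := QMap.Ori.pr_s_of_notMem hy
    obtain ⟨p1, p2⟩ := P2 h x hx
    by_cases e1 : m.s y = m.fn O x
    · left
      rw [← e1, ep] at p1
      exact p1
    · by_cases e2 : m.s y = m.t x
      · right
        rw [← e2, ep] at p2
        exact p2
      · have := P3 h (m.s y) x hx he' e1 e2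
        rw [ep] at this
        rcases ih he' with h1 | h1
        · exact Or.inl (this.trans h1)
        · exact Or.inr (this.trans h1)

theorem P2' [Finite X] (h : m.Ori O) (x : X) (hx : x ∈ m.per O) :
    m.Sim O (m.fn O (m.fn O x)) x := by
  obtain ⟨p1, p2⟩ := P2 h x hx
  obtain ⟨q1, q2⟩ := P2 h (m.fn O x) (per_fn h hx)
  -- pr (fn x) ~ x, pr (fn x) ~ pr (t (fn x)) ~ fn (fn x)
  exact (q2.symm.trans (QMap.Sim.pr (m.fn O x)).symm).trans p1

theorem iter_class [Finite X] (h : m.Ori O) (x : X) (hx : x ∈ m.per O) (i : ℕ) :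
    (m.Sim O ((m.fn O)^[i] x) x ∧ m.Sim O ((m.fn O)^[i + 1] x) (m.fn O x)) ∨
    (m.Sim O ((m.fn O)^[i] x) (m.fn O x) ∧ m.Sim O ((m.fn O)^[i + 1] x) x) := by
  induction i with
  | zero => exact Or.inl ⟨QMap.Sim.refl _, QMap.Sim.refl _⟩
  | succ i ih =>
    have h2 : m.Sim O ((m.fn O)^[i + 1 + 1] x) ((m.fn O)^[i] x) := by
      rw [Function.iterate_succ_apply', Function.iterate_succ_apply']
      exact P2' h _ (per_iter h hx i)
    rcases ih with ⟨h3, h4⟩ | ⟨h3, h4⟩
    · exact Or.inr ⟨h4, h2.trans h3⟩
    · exact Or.inl ⟨h4, h2.trans h3⟩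

theorem P4 [Finite X] (h : m.Ori O) (x : X) (hx : x ∈ m.per O) (y : X)
    (hr : m.Reg O (m.out O y) x) : m.Sim O y x ∨ m.Sim O y (m.fn O x) := by
  obtain ⟨n, hn⟩ := ev_per h (h.out_mem y)
  induction n generalizing y with
  | zero =>
    have hp : m.out O y ∈ m.per O := hn
    obtain ⟨i, hi⟩ := per_reg (x := x) hp hr
    -- predecessor
    obtain ⟨N, hN, hNp⟩ := hx.2
    have hi' : (m.fn O)^[i + N - 1 + 1] x = m.out O y := by
      have e : i + N - 1 + 1 = i + N := by omega
      rw [e, Function.iterate_add_apply, hNp.eq, hi]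
    set x' := (m.fn O)^[i + N - 1] x with hx'
    have hx'p : x' ∈ m.per O := per_iter h hx _
    have hout : m.out O y = m.fn O x' := by
      rw [← hi', Function.iterate_succ_apply']
    have cls := iter_class h x hx (i + N - 1)
    rw [Function.iterate_succ_apply'] at cls
    rcases half h x' hx'p y hout with h1 | h1
    · rcases cls with ⟨h3, _⟩ | ⟨h3, _⟩
      · exact Or.inl (h1.trans h3)
      · exact Or.inr (h1.trans h3)
    · rcases cls with ⟨_, h3⟩ | ⟨_, h3⟩
      · exact Or.inr (h1.trans h3)
      · exact Or.inl (h1.trans h3)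
  | succ n ih =>
    by_cases hp : m.out O y ∈ m.per O
    · -- reduce to the periodic case by the same argument
      obtain ⟨i, hi⟩ := per_reg (x := x) hp hr
      obtain ⟨N, hN, hNp⟩ := hx.2
      have hi' : (m.fn O)^[i + N - 1 + 1] x = m.out O y := by
        have e : i + N - 1 + 1 = i + N := by omega
        rw [e, Function.iterate_add_apply, hNp.eq, hi]
      set x' := (m.fn O)^[i + N - 1] x with hx'
      have hx'p : x' ∈ m.per O := per_iter h hx _
      have hout : m.out O y = m.fn O x' := by
        rw [← hi', Function.iterate_succ_apply']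
      have cls := iter_class h x hx (i + N - 1)
      rw [Function.iterate_succ_apply'] at cls
      rcases half h x' hx'p y hout with h1 | h1
      · rcases cls with ⟨h3, _⟩ | ⟨h3, _⟩
        · exact Or.inl (h1.trans h3)
        · exact Or.inr (h1.trans h3)
      · rcases cls with ⟨_, h3⟩ | ⟨_, h3⟩
        · exact Or.inr (h1.trans h3)
        · exact Or.inl (h1.trans h3)
    · -- the half vertex is one class
      obtain ⟨i, hi⟩ := pr_orbit h y
      have hc := chain (m := m) (O := O) (b := m.out O y) 0 i (Nat.zero_le _) ?_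
      · rw [hi] at hc
        have hc' : m.Sim O y (m.out O y) := hc
        have hfn : m.out O (m.t (m.out O y)) = m.fn O (m.out O y) := rfl
        have := ih (m.t (m.out O y)) ?_ ?_
        · have h2 : m.Sim O y (m.t (m.out O y)) := hc'.trans (QMap.Sim.t _).symm
          rcases this with h3 | h3
          · exact Or.inl (h2.trans h3)
          · exact Or.inr (h2.trans h3)
        · rw [hfn]
          exact (QMap.Reg.fn _).trans hr
        · rw [hfn, ← Function.iterate_succ_apply]
          exact hn
      · intro k _ _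
        rw [Function.iterate_succ_apply']
        apply NP h
        rw [out_iter h, QMap.out_of_mem (h.out_mem y)]
        exact hp

end KB_PC

open KB_PC

theorem t_PC : S_PC := by
  intro X V F _ _ _ m O h
  refine ⟨fun z hz => NP h z hz, fun x hx => ⟨(P2 h x hx).1, (P2 h x hx).2, P2' h x hx⟩,
    fun z x hx h1 h2 h3 => P3 h z x hx h1 h2 h3, fun y x hx hr => P4 h x hx y hr⟩

end KB
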