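import Pool.Agent.KB.KB_PC
import Pool.Agent.KB.KB_K

/-!
# RL: the reversal lemma
-/

set_option autoImplicit false

namespace KB

open Function

namespace KB_RL

open KB_PC

variable {X V F : Type} {m : QMap X V F} {O : Set X}

/-- the cycle of the region of `x0` -/
def Gam (m : QMap X V F) (O : Set X) (x0 : X) : Set X := {x | x ∈ m.per O ∧ m.Reg O x x0}

section base

variable {x0 : X}

theorem gam_fn [Finite X] (h : m.Ori O) {x : X} (hx : x ∈ Gam m O x0) :
    m.fn O x ∈ Gam m O x0 :=
  ⟨per_fn h hx.1, (QMap.Reg.fn x).trans hx.2⟩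

theorem gam_iff [Finite X] (h : m.Ori O) (h0 : x0 ∈ m.per O) (x : X) :
    x ∈ Gam m O x0 ↔ ∃ i, (m.fn O)^[i] x0 = x := by
  constructor
  · rintro ⟨h1, h2⟩
    exact per_reg h1 h2
  · rintro ⟨i, rfl⟩
    exact ⟨per_iter h h0 i, ⟨0, i, rfl⟩⟩

theorem gam_pred [Finite X] (h : m.Ori O) (h0 : x0 ∈ m.per O) {b : X} (hb : b ∈ Gam m O x0) :
    ∃ z ∈ Gam m O x0, m.fn O z = b := by
  obtain ⟨i, hi⟩ := (gam_iff h h0 b).1 hb
  obtain ⟨N, hN, hp⟩ := h0.2
  refine ⟨(m.fn O)^[i + N - 1] x0, (gam_iff h h0 _).2 ⟨_, rfl⟩, ?_⟩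
  rw [← Function.iterate_succ_apply' (m.fn O)]
  have e : (i + N - 1).succ = i + N := by omega
  rw [e, Function.iterate_add_apply, hp.eq, hi]

theorem gam_inj {x y : X} (hx : x ∈ Gam m O x0) (hy : y ∈ Gam m O x0)
    (he : m.fn O x = m.fn O y) : x = y := fn_injOn_per hx.1 hy.1 he

theorem gam_ncard [Finite X] (h : m.Ori O) (h0 : x0 ∈ m.per O) :
    (Gam m O x0).ncard = minimalPeriod (m.fn O) x0 := by
  have e : Gam m O x0 = (fun i => (m.fn O)^[i] x0) '' (Set.Iio (minimalPeriod (m.fn O) x0)) := by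
    ext x
    rw [gam_iff h h0]
    constructor
    · rintro ⟨i, rfl⟩
      refine ⟨i % minimalPeriod (m.fn O) x0, ?_, ?_⟩
      · exact Nat.mod_lt _ (minimalPeriod_pos_of_mem_periodicPts h0.2)
      · exact iterate_mod_minimalPeriod_eq
    · rintro ⟨i, _, rfl⟩
      exact ⟨i, rfl⟩
  rw [e, iterate_injOn_Iio_minimalPeriod.ncard_image]
  simp [Set.ncard_eq_toFinset_card']

theorem gam_bal [Finite X] (h : m.Ori O) (h0 : x0 ∈ m.per O) : m.Bal (Gam m O x0) := by
  intro a
  symm
  apply Set.ncard_congr (fun x _ => m.fn O x)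
  · rintro x ⟨h1, h2⟩
    exact ⟨gam_fn h h1, by rw [h.v_fn]; exact h2⟩
  · rintro x y ⟨h1, _⟩ ⟨h2, _⟩ he
    exact gam_inj h1 h2 he
  · rintro b ⟨h1, h2⟩
    obtain ⟨z, hz, he⟩ := gam_pred h h0 h1
    refine ⟨z, ⟨hz, ?_⟩, he⟩
    rw [← h.v_fn, he]
    exact h2

/-- `Sim` respects regions -/
theorem RI [Finite X] (h : m.Ori O) {x y : X} (hs : m.Sim O x y) :
    m.Reg O (m.out O x) (m.out O y) := by
  have ht : ∀ z, m.Reg O (m.out O (m.t z)) (m.out O z) := by
    intro z
    by_cases hz : z ∈ O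
    · rw [QMap.out_of_mem hz]
      exact QMap.Reg.fn z
    · rw [QMap.out_of_mem (h.t_mem hz)]
      have := (QMap.Reg.fn (m := m) (O := O) (m.t z)).symm
      unfold QMap.fn at this
      rw [m.tt] at this
      exact this
  refine (hs (fun z => m.Reg O (m.out O z) (m.out O y)) ?_ ?_).2 (QMap.Reg.refl _)
  · intro z
    exact ⟨fun hh => (ht z).symm.trans hh, fun hh => (ht z).trans hh⟩
  · intro z
    simp only [h.out_pr]
    exact ⟨fun hh => (ht z).trans hh, fun hh => (ht z).symm.trans hh⟩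

theorem RI' [Finite X] (h : m.Ori O) {x y : X} (hx : x ∈ O) (hy : y ∈ O) (hs : m.Sim O x y) :
    m.Reg O x y := by
  have := RI h hs
  rwa [QMap.out_of_mem hx, QMap.out_of_mem hy] at this

/-- class alternation on the cycle -/
theorem alt [Finite X] (h : m.Ori O) (h0 : x0 ∈ m.per O) {z : X} (hz : z ∈ Gam m O x0) :
    m.Sim O z x0 ∨ m.Sim O (m.fn O z) x0 := by
  obtain ⟨i, hi⟩ := (gam_iff h h0 z).1 hz
  have := iter_class h x0 h0 i
  rw [Function.iterate_succ_apply', hi] at this
  rcases this with h1 | h1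
  · exact Or.inl h1.1
  · exact Or.inr h1.2

end base

/-- the data of the reversal -/
structure Dat (m : QMap X V F) (O : Set X) (x0 : X) (O' : Set X) : Prop where
  h : m.Ori O
  h' : m.Ori O'
  h0 : x0 ∈ m.per O
  hO' : O' = m.rev O (Gam m O x0)
  ca : ∀ c ∈ O, m.Sim O c x0 → ¬ m.Reg O (m.sg O c) x0

namespace Dat

variable {x0 : X} {O' : Set X} (D : Dat m O x0 O')
include D

theorem mem' (x : X) : x ∈ O' ↔ (x ∈ O ∧ x ∉ Gam m O x0) ∨ m.t x ∈ Gam m O x0 := by
  rw [D.hO']
  rfl

theorem t_gam_mem' {z : X} (hz : z ∈ Gam m O x0) : m.t z ∈ O' := by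
  rw [D.mem', m.tt]
  exact Or.inr hz

variable [Finite X]

theorem A (y : X) : m.out O y ∉ Gam m O x0 → m.out O' y = m.out O y := by
  refine D.h.out_induct (P := fun y => m.out O y ∉ Gam m O x0 → m.out O' y = m.out O y) ?_ ?_ y
  · intro y hy hn
    rw [QMap.out_of_mem hy] at hn ⊢
    exact QMap.out_of_mem ((D.mem' y).2 (Or.inl ⟨hy, hn⟩))
  · intro y hy ih hn
    have hy' : y ∉ O' := by
      rw [D.mem']
      rintro (hh | hh)
      · exact hy hh.1
      · apply hn
        have := gam_fn D.h hh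
        unfold QMap.fn at this
        rwa [m.tt] at this
    rw [D.h'.out_step hy', D.h.out_step hy]
    apply ih
    rw [← D.h.out_step hy]
    exact hn

/-- the half vertex of a dart of the cycle -/
theorem B {z : X} (hz : z ∈ Gam m O x0) : ∃ N j : ℕ, 1 ≤ j ∧ j < N ∧
    (m.pr O)^[N] (m.fn O z) = m.fn O z ∧ (m.pr O)^[j] (m.fn O z) = m.t z ∧
    (∀ y, m.out O y = m.fn O z → ∃ i, i < N ∧ (m.pr O)^[i] (m.fn O z) = y) ∧
    (∀ i, 1 ≤ i → i < j → m.Sim O ((m.pr O)^[i] (m.fn O z)) z ∧
      m.out O' ((m.pr O)^[i] (m.fn O z)) = m.out O' (m.fn O z)) ∧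
    (∀ i, j < i → i < N → m.Sim O ((m.pr O)^[i] (m.fn O z)) (m.fn O z) ∧
      m.out O' ((m.pr O)^[i] (m.fn O z)) = m.t z) := by
  have h := D.h
  have hzp := hz.1
  have hbG : m.fn O z ∈ Gam m O x0 := gam_fn h hz
  obtain ⟨p1, p2⟩ := P2 h z hzp
  set b := m.fn O z with hb
  have hbO : b ∈ O := h.fn_mem z
  have hp := pr_periodic h b
  set N := minimalPeriod (m.pr O) b with hN
  have hpos : 0 < N := minimalPeriod_pos_of_mem_periodicPts hp
  have eN : (m.pr O)^[N] b = b := iterate_minimalPeriod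
  have htx : m.t z ∉ O := h.t_notMem hzp.1
  obtain ⟨j0, hj0⟩ := pr_orbit h (m.t z)
  have hout : m.out O (m.t z) = b := rfl
  rw [hout] at hj0
  set j := j0 % N with hj
  have hj' : (m.pr O)^[j] b = m.t z := by
    rw [hj, iterate_mod_minimalPeriod_eq, hj0]
  have hjN : j < N := Nat.mod_lt _ hpos
  have hj1 : 1 ≤ j := by
    rcases Nat.eq_zero_or_pos j with h0 | h0
    · exfalso
      rw [h0] at hj'
      apply htx
      rw [← hj']
      exact hbO
    · exact h0
  have inj : ∀ i k, i < N → k < N → (m.pr O)^[i] b = (m.pr O)^[k] b → i = k := by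
    intro i k hi hk he
    exact (iterate_injOn_Iio_minimalPeriod (f := m.pr O) (x := b)) hi hk he
  have outi : ∀ i, m.out O ((m.pr O)^[i] b) = b := by
    intro i
    rw [out_iter h, QMap.out_of_mem hbO]
  have nob : ∀ i, 1 ≤ i → i < N → (m.pr O)^[i] b ∉ O := by
    intro i h1 h2 hh
    have := outi i
    rw [QMap.out_of_mem hh] at this
    have := inj i 0 h2 hpos (by simpa using this)
    omega
  have not' : ∀ i, 1 ≤ i → i < N → i ≠ j → (m.pr O)^[i] b ∉ O' := by
    intro i h1 h2 h3
    rw [D.mem']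
    rintro (hh | hh)
    · exact nob i h1 h2 hh.1
    · have e1 : m.fn O (m.t ((m.pr O)^[i] b)) = m.fn O z := by
        unfold QMap.fn
        rw [m.tt, outi i]
        rfl
      have e2 := gam_inj hh hz e1
      have e3 : (m.pr O)^[i] b = m.t z := by rw [← e2, m.tt]
      rw [← hj'] at e3
      exact h3 (inj i j h2 hjN e3)
  have back : ∀ i, 1 ≤ i → i < N → m.s ((m.pr O)^[i] b) = (m.pr O)^[i - 1] b := by
    intro i h1 h2
    obtain ⟨k, rfl⟩ : ∃ k, i = k + 1 := ⟨i - 1, by omega⟩
    have hn := nob (k + 1) h1 h2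
    rw [Function.iterate_succ_apply'] at hn ⊢
    simp only [Nat.add_sub_cancel]
    set y := (m.pr O)^[k] b with hy
    by_cases hs : m.s.symm y ∈ O
    · exfalso
      apply hn
      have : m.pr O y = m.sg O (m.s.symm y) := by
        have := QMap.Ori.pr_s_of_mem (m := m) hs
        simpa using this
      rw [this]
      exact h.sg_mem _
    · have : m.pr O y = m.s.symm y := by
        have := QMap.Ori.pr_s_of_notMem (m := m) hs
        simpa using this
      rw [this]
      simp
  have stp : ∀ k, 1 ≤ k → k < N → k ≠ j →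
      m.Sim O ((m.pr O)^[k + 1] b) ((m.pr O)^[k] b) := by
    intro k h1 h2 h3
    rw [Function.iterate_succ_apply']
    apply P3 h _ z hzp
    · exact outi k
    · intro he
      have := inj k 0 h2 hpos (by simpa using he)
      omega
    · intro he
      rw [← hj'] at he
      exact h3 (inj k j h2 hjN he)
  refine ⟨N, j, hj1, hjN, eN, hj', ?_, ?_, ?_⟩
  · intro y hy
    obtain ⟨i0, hi0⟩ := pr_orbit h y
    rw [hy] at hi0
    exact ⟨i0 % N, Nat.mod_lt _ hpos, by rw [iterate_mod_minimalPeriod_eq, hi0]⟩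
  · intro i h1 h2
    constructor
    · have hc := chain (m := m) (O := O) (b := b) 1 i h1
        (fun k h3 h4 => stp k h3 (by omega) (by omega))
      exact hc.trans p1
    · induction i with
      | zero => omega
      | succ i ih =>
        rw [D.h'.out_step (not' (i + 1) h1 (by omega) (by omega)),
          back (i + 1) h1 (by omega)]
        simp only [Nat.add_sub_cancel]
        rcases Nat.eq_zero_or_pos i with hi | hi
        · subst hi
          rfl
        · exact ih hi (by omega)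
  · intro i h1 h2
    constructor
    · have hc := chain (m := m) (O := O) (b := b) (j + 1) i h1
        (fun k h3 h4 => stp k (by omega) (by omega) (by omega))
      rw [Function.iterate_succ_apply' (m.pr O) j b, hj'] at hc
      exact hc.trans p2
    · induction i with
      | zero => omega
      | succ i ih =>
        rw [D.h'.out_step (not' (i + 1) (by omega) h2 (by omega)),
          back (i + 1) (by omega) h2]
        simp only [Nat.add_sub_cancel]
        rcases Nat.eq_or_lt_of_le (Nat.lt_succ_iff.1 h1) with hi | hi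
        · subst hi
          rw [hj']
          exact QMap.out_of_mem (D.t_gam_mem' hz)
        · exact ih hi (by omega)

/-- the next dart after a reversed one -/
theorem C {b : X} (hb : b ∈ Gam m O x0) :
    (m.sg O b ∉ Gam m O x0 → m.out O' b = m.sg O b) ∧
    (∀ z ∈ Gam m O x0, m.fn O z = m.sg O b → m.out O' b = m.t z) := by
  have h := D.h
  have hb' : b ∉ O' := by
    rw [D.mem']
    rintro (hh | hh)
    · exact hh.2 hb
    · exact h.t_notMem hb.1.1 hh.1.1
  constructor
  · intro hn
    rw [D.h'.out_step hb']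
    exact D.A (m.s b) hn
  · intro z hz he
    obtain ⟨N, j, hj1, hjN, eN, hj, hall, _, hd⟩ := D.B hz
    rw [D.h'.out_step hb']
    -- `s b = pr^[N-1] (fn z)`
    have e : m.s b = (m.pr O)^[N - 1] (m.fn O z) := by
      apply h.pr_inj
      rw [← Function.iterate_succ_apply' (m.pr O)]
      have e1 : (N - 1).succ = N := by omega
      rw [e1, eN, he]
      exact QMap.Ori.pr_s_of_mem hb.1.1
    rcases Nat.lt_or_ge j (N - 1) with hlt | hge
    · rw [e]
      exact (hd (N - 1) hlt (by omega)).2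
    · have : N - 1 = j := by omega
      rw [e, this, hj]
      exact QMap.out_of_mem (D.t_gam_mem' hz)

omit [Finite X] D in
theorem outside_notMem {c : X} (hc : ¬ m.Reg O c x0) : c ∉ Gam m O x0 := fun hh => hc hh.2

/-- outside the region nothing changes -/
theorem step_out {c : X} (hr : ¬ m.Reg O c x0) :
    m.fn O' c = m.fn O c ∧ ¬ m.Reg O (m.fn O c) x0 := by
  have h1 : ¬ m.Reg O (m.fn O c) x0 := fun hh => hr ((QMap.Reg.fn c).symm.trans hh)
  exact ⟨D.A (m.t c) (outside_notMem h1), h1⟩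

/-- the predicate: the trajectory leaves the region -/
def E (_ : Dat m O x0 O') (c : X) : Prop :=
  ∃ n, (m.fn O')^[n] c ∈ O ∧ ¬ m.Reg O ((m.fn O')^[n] c) x0

omit [Finite X] in
theorem E_step {c : X} (he : D.E (m.fn O' c)) : D.E c := by
  obtain ⟨n, h1, h2⟩ := he
  rw [← Function.iterate_succ_apply] at h1 h2
  exact ⟨n + 1, h1, h2⟩

omit [Finite X] D in
theorem fn'_t (b : X) : m.fn O' (m.t b) = m.out O' b := by
  unfold QMap.fn
  rw [m.tt]

/-- a white dart of the cycle leads out -/
theorem white {b : X} (hb : b ∈ Gam m O x0) (hw : m.Sim O b x0) : D.E (m.out O' b) := by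
  have hc := D.ca b hb.1.1 hw
  rw [(D.C hb).1 (outside_notMem hc)]
  exact ⟨0, D.h.sg_mem b, hc⟩

theorem E2 (n : ℕ) : ∀ c, c ∈ O → c ∉ Gam m O x0 → m.Reg O c x0 → ¬ m.Sim O c x0 →
    (m.fn O)^[n] c ∈ m.per O → D.E c := by
  have h := D.h
  induction n with
  | zero =>
    intro c hc hn hr _ hp
    exact absurd ⟨hp, hr⟩ hn
  | succ n ih =>
    intro c hc hn hr hs hp
    have hrb : m.Reg O (m.fn O c) x0 := (QMap.Reg.fn c).trans hr
    by_cases hb : m.fn O c ∈ Gam m O x0
    · obtain ⟨z, hz, hzb⟩ := gam_pred h D.h0 hb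
      obtain ⟨N, j, hj1, hjN, eN, hj, hall, hB, hd⟩ := D.B hz
      obtain ⟨i, hiN, hi⟩ := hall (m.t c) hzb.symm
      have hi0 : i ≠ 0 := by
        intro h0
        subst h0
        have : m.fn O z = m.t c := hi
        exact h.t_notMem hc (this ▸ h.fn_mem z)
      have hij : i ≠ j := by
        intro h0
        subst h0
        rw [hj] at hi
        have := m.t_inj hi
        exact hn (this ▸ hz)
      rcases Nat.lt_or_ge i j with hlt | hge
      · obtain ⟨s1, s2⟩ := hB i (by omega) hlt
        rw [hi] at s1 s2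
        have hzs : ¬ m.Sim O z x0 := fun hh =>
          hs (((QMap.Sim.t c).symm.trans s1).trans hh)
        have hw : m.Sim O (m.fn O z) x0 := (alt h D.h0 hz).resolve_left hzs
        apply D.E_step
        show D.E (m.out O' (m.t c))
        rw [s2]
        exact D.white (gam_fn h hz) hw
      · obtain ⟨s1, s2⟩ := hd i (by omega) hiN
        rw [hi] at s1 s2
        have hzs : ¬ m.Sim O (m.fn O z) x0 := fun hh =>
          hs (((QMap.Sim.t c).symm.trans s1).trans hh)
        have hw : m.Sim O z x0 := (alt h D.h0 hz).resolve_right hzs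
        apply D.E_step
        show D.E (m.out O' (m.t c))
        rw [s2]
        apply D.E_step
        rw [fn'_t]
        exact D.white hz hw
    · have hA : m.fn O' c = m.fn O c := D.A (m.t c) hb
      apply D.E_step
      rw [hA]
      apply ih _ (h.fn_mem c) hb hrb
      · -- the class does not change along the tree
        intro hh
        apply hs
        have hnp : m.out O (m.t c) ∉ m.per O := fun hp' => hb ⟨hp', hrb⟩
        obtain ⟨i, hi⟩ := pr_orbit h (m.t c)
        have hcc := chain (m := m) (O := O) (b := m.out O (m.t c)) 0 i (Nat.zero_le _) ?_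
        · rw [hi] at hcc
          have h3 : m.Sim O (m.t c) (m.fn O c) := hcc
          exact ((QMap.Sim.t c).symm.trans h3).trans hh
        · intro k _ _
          rw [Function.iterate_succ_apply']
          apply NP h
          rw [out_iter h, QMap.out_of_mem (h.out_mem _)]
          exact hnp
      · rw [← Function.iterate_succ_apply]
        exact hp

theorem E3 {b : X} (hb : b ∈ Gam m O x0) : D.E (m.out O' b) := by
  have h := D.h
  by_cases hw : m.Sim O b x0
  · exact D.white hb hw
  · by_cases hr : m.Reg O (m.sg O b) x0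
    · have hns : ¬ m.Sim O (m.sg O b) x0 := by
        intro hh
        have := D.ca _ (h.sg_mem b) hh
        rw [h.sg_sg hb.1.1] at this
        exact this hb.2
      by_cases ha : m.sg O b ∈ Gam m O x0
      · obtain ⟨z, hz, he⟩ := gam_pred h D.h0 ha
        rw [(D.C hb).2 z hz he]
        apply D.E_step
        rw [fn'_t]
        apply D.white hz
        rw [← he] at hns
        exact (alt h D.h0 hz).resolve_right hns
      · rw [(D.C hb).1 ha]
        obtain ⟨n, hn⟩ := ev_per h (h.sg_mem b)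
        exact D.E2 n _ (h.sg_mem b) ha hr hns hn
    · rw [(D.C hb).1 (outside_notMem hr)]
      exact ⟨0, h.sg_mem b, hr⟩

theorem E4 (n : ℕ) : ∀ c, c ∈ O → c ∉ Gam m O x0 → m.Reg O c x0 →
    (m.fn O)^[n] c ∈ m.per O → D.E c := by
  have h := D.h
  induction n with
  | zero =>
    intro c hc hn hr hp
    exact absurd ⟨hp, hr⟩ hn
  | succ n ih =>
    intro c hc hn hr hp
    have hrb : m.Reg O (m.fn O c) x0 := (QMap.Reg.fn c).trans hr
    by_cases hb : m.fn O c ∈ Gam m O x0
    · obtain ⟨z, hz, hzb⟩ := gam_pred h D.h0 hb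
      obtain ⟨N, j, hj1, hjN, eN, hj, hall, hB, hd⟩ := D.B hz
      obtain ⟨i, hiN, hi⟩ := hall (m.t c) hzb.symm
      have hi0 : i ≠ 0 := by
        intro h0
        subst h0
        have : m.fn O z = m.t c := hi
        exact h.t_notMem hc (this ▸ h.fn_mem z)
      have hij : i ≠ j := by
        intro h0
        subst h0
        rw [hj] at hi
        have := m.t_inj hi
        exact hn (this ▸ hz)
      rcases Nat.lt_or_ge i j with hlt | hge
      · obtain ⟨_, s2⟩ := hB i (by omega) hlt
        rw [hi] at s2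
        apply D.E_step
        show D.E (m.out O' (m.t c))
        rw [s2]
        exact D.E3 (gam_fn h hz)
      · obtain ⟨_, s2⟩ := hd i (by omega) hiN
        rw [hi] at s2
        apply D.E_step
        show D.E (m.out O' (m.t c))
        rw [s2]
        apply D.E_step
        rw [fn'_t]
        exact D.E3 hz
    · have hA : m.fn O' c = m.fn O c := D.A (m.t c) hb
      apply D.E_step
      rw [hA]
      apply ih _ (h.fn_mem c) hb hrb
      rw [← Function.iterate_succ_apply]
      exact hp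

theorem Eall {c : X} (hc : c ∈ O') : D.E c := by
  rcases (D.mem' c).1 hc with ⟨h1, h2⟩ | h1
  · by_cases hr : m.Reg O c x0
    · obtain ⟨n, hn⟩ := ev_per D.h h1
      exact D.E4 n c h1 h2 hr hn
    · exact ⟨0, h1, hr⟩
  · apply D.E_step
    have e : m.fn O' c = m.out O' (m.t c) := rfl
    rw [e]
    exact D.E3 h1

theorem stay {c : X} (hr : ¬ m.Reg O c x0) (n : ℕ) :
    (m.fn O')^[n] c = (m.fn O)^[n] c ∧ ¬ m.Reg O ((m.fn O)^[n] c) x0 := by
  induction n with
  | zero => exact ⟨rfl, hr⟩
  | succ n ih =>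
    obtain ⟨h1, h2⟩ := ih
    obtain ⟨h3, h4⟩ := D.step_out h2
    rw [Function.iterate_succ_apply', Function.iterate_succ_apply', h1]
    exact ⟨h3, h4⟩

theorem per_sub {c : X} (hc : c ∈ m.per O') : c ∈ m.per O ∧ ¬ m.Reg O c x0 := by
  obtain ⟨n, h1, h2⟩ := D.Eall hc.1
  obtain ⟨p, hp, hper⟩ := hc.2
  -- go around until back at `c`
  have hle : n ≤ n * p := Nat.le_mul_of_pos_right n hp
  have e : (m.fn O')^[n * p - n] ((m.fn O')^[n] c) = c := by
    rw [← Function.iterate_add_apply, Nat.sub_add_cancel hle]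
    exact hper.const_mul n
  obtain ⟨s1, s2⟩ := D.stay h2 (n * p - n)
  rw [e] at s1
  rw [← s1] at s2
  have hcO : c ∈ O := by
    rw [s1]
    exact iter_mem D.h h1 _
  refine ⟨⟨hcO, p, hp, ?_⟩, s2⟩
  have := (D.stay s2 p).1
  show (m.fn O)^[p] c = c
  rw [← this]
  exact hper

end Dat

end KB_RL

open KB_RL in
theorem t_RL (hRV : S_RV) : S_RL := by
  intro X V F _ _ _ m O h x0 h0 hσ
  have hsub : Gam m O x0 ⊆ O := fun x hx => hx.1.1
  obtain ⟨h', hpar⟩ := hRV X V F m O (Gam m O x0) h hsub (gam_bal h h0)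
  have ca : ∀ c ∈ O, m.Sim O c x0 → ¬ m.Reg O (m.sg O c) x0 := by
    intro c hc hs hr
    have hcomp := t_K2 X V F m O h c x0 hs
    rw [QMap.Ori.w_of_mem hc, QMap.Ori.w_of_mem h0.1] at hcomp
    rcases t_K1 X V F m O h c hc x0 h0.1 hcomp with h1 | h1
    · exact hσ ((RI' h (h.sg_mem x0) (h.sg_mem c) h1.2).trans hr)
    · have := RI' h (h.sg_mem x0) hc h1.2
      exact hσ (this.trans (RI' h hc h0.1 hs))
  have D : Dat m O x0 (m.rev O (Gam m O x0)) := ⟨h, h', h0, rfl, ca⟩
  refine ⟨_, h', ?_, ?_⟩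
  · apply Set.ncard_lt_ncard _ (Set.toFinite _)
    refine ⟨fun c hc => (D.per_sub hc).1, fun hh => ?_⟩
    exact (D.per_sub (hh h0)).2 (QMap.Reg.refl _)
  · intro T hT
    rw [hpar T hT, gam_ncard h h0]

end KB
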