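import Mathlib
import Pool.Agent.KB.St

/-!
# Reversal of a balanced set and existence of a transversal
-/

set_option autoImplicit false

namespace KB

open Function

namespace KB_RV

variable {X V F : Type} (m : QMap X V F)

theorem t_inj : Injective m.t := by
  intro x y h
  rw [← m.tt x, h, m.tt]

theorem rr (x : X) : m.r (m.r x) = x := by
  change m.s.symm (m.t (m.s (m.s.symm (m.t (m.s x))))) = x
  rw [Equiv.apply_symm_apply, m.tt, Equiv.symm_apply_apply]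

theorem r_ne (x : X) : m.r x ≠ x := by
  intro h
  have h1 : m.t (m.s x) = m.s x := by
    have h2 : m.s (m.s.symm (m.t (m.s x))) = m.s x := congrArg m.s h
    rwa [Equiv.apply_symm_apply] at h2
  exact m.tne _ h1

theorem r_ne_t (x : X) : m.r x ≠ m.t x := m.rne x

theorem tr_ne (x : X) : m.t (m.r x) ≠ x := by
  intro h
  apply r_ne_t m x
  rw [← m.tt (m.r x), h]

theorem f_t (x : X) : m.f (m.t x) = m.f x := ((m.ff x (m.t x)).2 (Or.inr (Or.inl rfl))).symm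

theorem f_r (x : X) : m.f (m.r x) = m.f x :=
  ((m.ff x (m.r x)).2 (Or.inr (Or.inr (Or.inl rfl)))).symm

theorem tr_exists : ∃ T, m.Tr T := by
  obtain ⟨g, hg⟩ : ∃ g : F → X, ∀ y, m.f (g y) = y := ⟨surjInv m.fs, surjInv_eq m.fs⟩
  refine ⟨{x | x = g (m.f x) ∨ x = m.r (g (m.f x))}, ?_, ?_⟩
  · intro x
    simp only [Set.mem_ofPred_eq, f_t]
    have hz : m.f (g (m.f x)) = m.f x := hg _
    generalize g (m.f x) = z at hz
    rcases (m.ff z x).1 hz with h | h | h | h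
    · subst h
      constructor
      · rintro _ (h | h)
        · exact m.tne _ h
        · exact r_ne_t m _ h.symm
      · intro _
        exact Or.inl rfl
    · subst h
      rw [m.tt]
      constructor
      · rintro (h | h)
        · exact absurd h (m.tne _)
        · exact absurd h.symm (r_ne_t m _)
      · intro h
        exact absurd (Or.inl rfl) h
    · change x = m.r z at h
      subst h
      constructor
      · rintro _ (h | h)
        · exact tr_ne m _ h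
        · exact m.tne _ h
      · intro _
        exact Or.inr rfl
    · change x = m.t (m.r z) at h
      subst h
      rw [m.tt]
      constructor
      · rintro (h | h)
        · exact absurd h (tr_ne m _)
        · exact absurd h (m.tne _)
      · intro h
        exact absurd (Or.inr rfl) h
  · intro x
    simp only [Set.mem_ofPred_eq, f_r]
    constructor
    · rintro (h | h)
      · right
        rw [← h, rr]
      · left
        have h1 := congrArg m.r h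
        rwa [rr, rr] at h1
    · rintro (h | h)
      · right
        rw [← h]
      · left
        have h1 := congrArg m.r h
        rwa [rr] at h1

theorem rev_ori [Finite X] {O Γ : Set X} (hO : m.Ori O) (hΓ : Γ ⊆ O) (hB : m.Bal Γ) :
    m.Ori (m.rev O Γ) := by
  constructor
  · intro x
    have h1 := hO.ot x
    have h2 : x ∈ Γ → x ∈ O := fun h => hΓ h
    have h3 : m.t x ∈ Γ → m.t x ∈ O := fun h => hΓ h
    change ((x ∈ O ∧ x ∉ Γ) ∨ m.t x ∈ Γ) ↔ ¬ ((m.t x ∈ O ∧ m.t x ∉ Γ) ∨ m.t (m.t x) ∈ Γ)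
    rw [m.tt]
    tauto
  · intro a
    have h1 : {x | x ∈ m.rev O Γ ∧ m.v x = a} =
        {x | (x ∈ O ∧ x ∉ Γ) ∧ m.v x = a} ∪ {x | m.t x ∈ Γ ∧ m.v x = a} := by
      ext x
      simp only [QMap.rev, Set.mem_ofPred_eq, Set.mem_union]
      tauto
    have h2 : Disjoint {x | (x ∈ O ∧ x ∉ Γ) ∧ m.v x = a} {x | m.t x ∈ Γ ∧ m.v x = a} := by
      rw [Set.disjoint_left]
      rintro x ⟨⟨hx, _⟩, _⟩ ⟨hx', _⟩
      exact (hO.ot x).1 hx (hΓ hx')
    have h3 : {x | x ∈ O ∧ m.v x = a} =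
        {x | (x ∈ O ∧ x ∉ Γ) ∧ m.v x = a} ∪ {x | x ∈ Γ ∧ m.v x = a} := by
      ext x
      have h4 : x ∈ Γ → x ∈ O := fun h => hΓ h
      simp only [Set.mem_ofPred_eq, Set.mem_union]
      tauto
    have h4 : Disjoint {x | (x ∈ O ∧ x ∉ Γ) ∧ m.v x = a} {x | x ∈ Γ ∧ m.v x = a} := by
      rw [Set.disjoint_left]
      rintro x ⟨⟨_, hx⟩, _⟩ ⟨hx', _⟩
      exact hx hx'
    have h5 : {x | m.t x ∈ Γ ∧ m.v x = a} = m.t '' {x | x ∈ Γ ∧ m.v (m.t x) = a} := by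
      ext x
      simp only [Set.mem_ofPred_eq, Set.mem_image]
      constructor
      · rintro ⟨h, h'⟩
        exact ⟨m.t x, ⟨h, by rw [m.tt]; exact h'⟩, m.tt x⟩
      · rintro ⟨y, ⟨h, h'⟩, rfl⟩
        exact ⟨by rw [m.tt]; exact h, h'⟩
    have h6 := hO.deg a
    rw [h3, Set.ncard_union_eq h4 (Set.toFinite _) (Set.toFinite _), hB a] at h6
    rw [h1, Set.ncard_union_eq h2 (Set.toFinite _) (Set.toFinite _), h5,
      Set.ncard_image_of_injective _ (t_inj m)]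
    exact h6

theorem rev_par [Finite X] {O Γ : Set X} (hO : m.Ori O) (hΓ : Γ ⊆ O) {T : Set X}
    (hT : m.Tr T) : (m.rev O Γ ∩ T).ncard % 2 = ((O ∩ T).ncard + Γ.ncard) % 2 := by
  have h1 : m.rev O Γ ∩ T = {x | (x ∈ O ∧ x ∉ Γ) ∧ x ∈ T} ∪ {x | m.t x ∈ Γ ∧ x ∈ T} := by
    ext x
    simp only [QMap.rev, Set.mem_ofPred_eq, Set.mem_union, Set.mem_inter_iff]
    tauto
  have h2 : Disjoint {x | (x ∈ O ∧ x ∉ Γ) ∧ x ∈ T} {x | m.t x ∈ Γ ∧ x ∈ T} := by
    rw [Set.disjoint_left]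
    rintro x ⟨⟨hx, _⟩, _⟩ ⟨hx', _⟩
    exact (hO.ot x).1 hx (hΓ hx')
  have h3 : O ∩ T = {x | (x ∈ O ∧ x ∉ Γ) ∧ x ∈ T} ∪ {x | x ∈ Γ ∧ x ∈ T} := by
    ext x
    have h4 : x ∈ Γ → x ∈ O := fun h => hΓ h
    simp only [Set.mem_ofPred_eq, Set.mem_union, Set.mem_inter_iff]
    tauto
  have h4 : Disjoint {x | (x ∈ O ∧ x ∉ Γ) ∧ x ∈ T} {x | x ∈ Γ ∧ x ∈ T} := by
    rw [Set.disjoint_left]
    rintro x ⟨⟨_, hx⟩, _⟩ ⟨hx', _⟩
    exact hx hx'
  have h5 : {x | m.t x ∈ Γ ∧ x ∈ T} = m.t '' {x | x ∈ Γ ∧ x ∉ T} := by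
    ext x
    simp only [Set.mem_ofPred_eq, Set.mem_image]
    constructor
    · rintro ⟨h, h'⟩
      exact ⟨m.t x, ⟨h, (hT.tT x).1 h'⟩, m.tt x⟩
    · rintro ⟨y, ⟨h, h'⟩, rfl⟩
      refine ⟨by rw [m.tt]; exact h, ?_⟩
      rw [hT.tT, m.tt]
      exact h'
  have h6 : Γ = {x | x ∈ Γ ∧ x ∈ T} ∪ {x | x ∈ Γ ∧ x ∉ T} := by
    ext x
    simp only [Set.mem_ofPred_eq, Set.mem_union]
    tauto
  have h7 : Disjoint {x | x ∈ Γ ∧ x ∈ T} {x | x ∈ Γ ∧ x ∉ T} := by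
    rw [Set.disjoint_left]
    rintro x ⟨_, hx⟩ ⟨_, hx'⟩
    exact hx' hx
  have e1 : (m.rev O Γ ∩ T).ncard = {x | (x ∈ O ∧ x ∉ Γ) ∧ x ∈ T}.ncard +
      {x | x ∈ Γ ∧ x ∉ T}.ncard := by
    rw [h1, Set.ncard_union_eq h2 (Set.toFinite _) (Set.toFinite _), h5,
      Set.ncard_image_of_injective _ (t_inj m)]
  have e2 : (O ∩ T).ncard = {x | (x ∈ O ∧ x ∉ Γ) ∧ x ∈ T}.ncard +
      {x | x ∈ Γ ∧ x ∈ T}.ncard := by
    rw [h3, Set.ncard_union_eq h4 (Set.toFinite _) (Set.toFinite _)]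
  have e3 : Γ.ncard = {x | x ∈ Γ ∧ x ∈ T}.ncard + {x | x ∈ Γ ∧ x ∉ T}.ncard := by
    conv_lhs => rw [h6]
    rw [Set.ncard_union_eq h7 (Set.toFinite _) (Set.toFinite _)]
  rw [e1, e2, e3]
  omega

end KB_RV

theorem t_RV : S_RV := by
  intro X V F _ _ _ m O Γ hO hΓ hB
  exact ⟨KB_RV.rev_ori m hO hΓ hB, fun T hT => KB_RV.rev_par m hO hΓ hT⟩

theorem t_TR : S_TR := by
  intro X V F _ _ _ m
  exact KB_RV.tr_exists m

end KB
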