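import Pool.Agent.KB.St

/-!
# Module KB_TC: 4-connected graphs of the class are tough
-/

set_option autoImplicit false

namespace KB

open Function

namespace KB_TC

variable {X V F : Type}

theorem f_t (m : QMap X V F) (x : X) : m.f (m.t x) = m.f x :=
  ((m.ff x (m.t x)).2 (Or.inr (Or.inl rfl))).symm

theorem v_s (m : QMap X V F) (x : X) : m.v (m.s x) = m.v x :=
  (m.vv _ _).2 (Equiv.Perm.sameCycle_apply_left.2 (Equiv.Perm.SameCycle.refl _ _))

theorem nat_pow [Finite X] (m : QMap X V F) {x y : X} (h : m.v x = m.v y) :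
    ∃ n : ℕ, (m.s ^ n) x = y := by
  have h1 := (m.vv x y).1 h
  have := Fintype.ofFinite X
  classical
  have h2 := h1.exists_pow_eq''
  obtain ⟨n, -, -, hn⟩ := h2
  exact ⟨n, hn⟩

/-- region of a corner -/
def rg (m : QMap X V F) (Y : Set V) (x : X) : Quot (m.J Y) := Quot.mk _ (m.f x)

theorem rg_s (m : QMap X V F) (Y : Set V) (x : X) (h : ¬ (m.v x ∈ Y ∧ m.v (m.t x) ∈ Y)) :
    rg m Y x = rg m Y (m.s.symm x) := Quot.sound ⟨x, h, rfl, rfl⟩

theorem rg_s' (m : QMap X V F) (Y : Set V) (x : X)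
    (h : ¬ (m.v (m.s x) ∈ Y ∧ m.v (m.t (m.s x)) ∈ Y)) :
    rg m Y (m.s x) = rg m Y x := by
  have := rg_s m Y (m.s x) h
  rwa [Equiv.symm_apply_apply] at this

theorem rg_t (m : QMap X V F) (Y : Set V) (x : X) : rg m Y (m.t x) = rg m Y x :=
  congrArg (Quot.mk _) (f_t m x)

theorem step [Finite X] (m : QMap X V F) (g : X → Prop) (a : V) (x : X) (hx : m.v x = a)
    (h0 : g x) (hs : ∀ y, m.v y = a → g y → g (m.s y)) : ∀ y, m.v y = a → g y := by
  intro y hy
  obtain ⟨n, hn⟩ := nat_pow m (hx.trans hy.symm)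
  have key : ∀ n : ℕ, m.v ((m.s ^ n) x) = a ∧ g ((m.s ^ n) x) := by
    intro n
    induction n with
    | zero => exact ⟨by simpa using hx, by simpa using h0⟩
    | succ k ih =>
      have e : (m.s ^ (k + 1)) x = m.s ((m.s ^ k) x) := by
        rw [pow_succ', Equiv.Perm.mul_apply]
      rw [e]
      exact ⟨(v_s m _).trans ih.1, hs _ ih.1 ih.2⟩
  rw [← hn]
  exact (key n).2

theorem rg_out [Finite X] (m : QMap X V F) (Y : Set V) {x y : X} (h : m.v x = m.v y)
    (hx : m.v x ∉ Y) : rg m Y y = rg m Y x := by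
  refine step m (fun y => rg m Y y = rg m Y x) (m.v x) x rfl rfl ?_ y h.symm
  intro z hz hg
  refine (rg_s' m Y z ?_).trans hg
  rintro ⟨h1, -⟩
  rw [v_s, hz] at h1
  exact hx h1

/-- vertices of `Y` at a region -/
def N (m : QMap X V F) (Y : Set V) (ρ : Quot (m.J Y)) : Set V :=
  {a | a ∈ Y ∧ ∃ x, m.v x = a ∧ rg m Y x = ρ}

theorem four [Finite X] [Fintype V] [Fintype F] (m : QMap X V F) (G : SimpleGraph (V ⊕ F))
    (hG : m.Btw G) (h4 : FourConn G) (Y : Set V) (hR : 2 ≤ m.R Y) (ρ : Quot (m.J Y)) :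
    4 ≤ (N m Y ρ).ncard := by
  classical
  by_contra hlt
  push Not at hlt
  have hnt : Nontrivial (Quot (m.J Y)) := by
    apply Finite.one_lt_card_iff_nontrivial.1
    exact hR
  obtain ⟨ρ1, hρ1⟩ := exists_ne ρ
  let S : Finset (V ⊕ F) := (Set.toFinset (N m Y ρ)).image Sum.inl
  have hS : S.card < 4 := by
    refine lt_of_le_of_lt Finset.card_image_le ?_
    rwa [← Set.ncard_eq_toFinset_card']
  have hc := h4.2 S hS
  have memS : ∀ a, Sum.inl a ∈ S ↔ a ∈ N m Y ρ := by
    intro a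
    simp [S]
  have memS' : ∀ b : F, (Sum.inr b : V ⊕ F) ∉ S := by
    intro b
    simp [S]
  let Q : V ⊕ F → Prop := fun z =>
    (∃ b, z = Sum.inr b ∧ (Quot.mk _ b : Quot (m.J Y)) = ρ) ∨
      (∃ a, z = Sum.inl a ∧ a ∉ Y ∧ ∃ x, m.v x = a ∧ rg m Y x = ρ)
  have hcl : ∀ z z' : V ⊕ F, z' ∉ S → G.Adj z z' → Q z → Q z' := by
    intro z z' hz' hadj hQ
    rcases hQ with ⟨b, rfl, hb⟩ | ⟨a, rfl, ha, x, hx, hxρ⟩
    · rcases z' with a | b'
      · obtain ⟨x, hx, hxb⟩ := (hG.vf a b).1 hadj.symm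
        have hxρ : rg m Y x = ρ := by
          unfold rg
          rw [hxb, hb]
        by_cases haY : a ∈ Y
        · exact absurd ((memS a).2 ⟨haY, x, hx, hxρ⟩) hz'
        · exact Or.inr ⟨a, rfl, haY, x, hx, hxρ⟩
      · exact absurd hadj (hG.ff b b')
    · rcases z' with a' | b
      · obtain ⟨y, hy, hy'⟩ := hG.vv a a' hadj
        have h1 : rg m Y y = ρ := by
          rw [← hxρ]
          exact rg_out m Y (hx.trans hy.symm) (hx ▸ ha)
        have h2 : rg m Y (m.t y) = ρ := (rg_t m Y y).trans h1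
        by_cases haY : a' ∈ Y
        · exact absurd ((memS a').2 ⟨haY, m.t y, hy', h2⟩) hz'
        · exact Or.inr ⟨a', rfl, haY, m.t y, hy', h2⟩
      · obtain ⟨y, hy, hyb⟩ := (hG.vf a b).1 hadj
        have h1 : rg m Y y = ρ := by
          rw [← hxρ]
          exact rg_out m Y (hx.trans hy.symm) (hx ▸ ha)
        refine Or.inl ⟨b, rfl, ?_⟩
        rw [← h1, ← hyb]
        rfl
  obtain ⟨b0, hb0⟩ := Quot.exists_rep ρ
  obtain ⟨b1, hb1⟩ := Quot.exists_rep ρ1
  have hreach := hc.preconnected ⟨Sum.inr b0, by simpa using memS' b0⟩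
    ⟨Sum.inr b1, by simpa using memS' b1⟩
  have hwalk : ∀ (z z' : ((S : Set (V ⊕ F))ᶜ : Set (V ⊕ F))),
      (G.induce ((S : Set (V ⊕ F))ᶜ)).Walk z z' → Q z.1 → Q z'.1 := by
    intro z z' p
    induction p with
    | nil => exact id
    | cons hadj _ ih =>
      intro hQ
      apply ih
      refine hcl _ _ ?_ hadj hQ
      rename_i u v w p
      exact fun hv => v.2 (Finset.mem_coe.2 hv)
  obtain ⟨p⟩ := hreach
  have hQ1 := hwalk _ _ p (Or.inl ⟨b0, rfl, hb0⟩)
  rcases hQ1 with ⟨b, hb, hbρ⟩ | ⟨a, ha, -⟩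
  · have : b1 = b := Sum.inr_injective hb
    subst this
    exact hρ1 (hb1.symm.trans hbρ)
  · exact absurd ha (by simp)

theorem count [Finite X] [Fintype V] [Fintype F] (m : QMap X V F) (Y : Set V)
    (h4 : ∀ ρ, 4 ≤ (N m Y ρ).ncard) :
    4 * m.R Y ≤ m.d Y + (Y \ {a | ∃ x, (m.v x ∈ Y ∧ m.v (m.t x) ∈ Y) ∧ m.v x = a}).ncard := by
  classical
  have := Fintype.ofFinite X
  have := Fintype.ofFinite (Quot (m.J Y))
  let P : V → Quot (m.J Y) → Prop := fun a ρ => a ∈ N m Y ρ
  let D : Finset X := Finset.univ.filter (fun x => m.v x ∈ Y ∧ m.v (m.t x) ∈ Y)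
  let I : Finset V := Finset.univ.filter
    (fun a => a ∈ Y ∧ ¬ ∃ x, (m.v x ∈ Y ∧ m.v (m.t x) ∈ Y) ∧ m.v x = a)
  have hd : m.d Y = D.card := by
    unfold QMap.d
    rw [← Set.ncard_coe_finset]
    congr 1
    ext x
    simp [D]
  have hI : (Y \ {a | ∃ x, (m.v x ∈ Y ∧ m.v (m.t x) ∈ Y) ∧ m.v x = a}).ncard = I.card := by
    rw [← Set.ncard_coe_finset]
    congr 1
    ext x
    simp [I]
  rw [hd, hI]
  have hsum := Finset.sum_card_bipartiteAbove_eq_sum_card_bipartiteBelow
    (s := (Finset.univ : Finset V)) (t := (Finset.univ : Finset (Quot (m.J Y)))) P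
  have hlow : 4 * m.R Y ≤ ∑ ρ : Quot (m.J Y),
      ((Finset.univ : Finset V).bipartiteBelow P ρ).card := by
    have : ∀ ρ ∈ (Finset.univ : Finset (Quot (m.J Y))),
        4 ≤ ((Finset.univ : Finset V).bipartiteBelow P ρ).card := by
      intro ρ _
      refine le_of_le_of_eq (h4 ρ) ?_
      rw [← Set.ncard_coe_finset]
      congr 1
      ext a
      simp [P]
    have h5 := Finset.card_nsmul_le_sum _ _ _ this
    rw [Finset.card_univ, smul_eq_mul, mul_comm] at h5
    unfold QMap.R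
    rw [Nat.card_eq_fintype_card]
    exact h5
  have hup : ∑ a : V, ((Finset.univ : Finset (Quot (m.J Y))).bipartiteAbove P a).card ≤
      ∑ a : V, ((D.filter (fun x => m.v x = a)).card + if a ∈ I then 1 else 0) := by
    refine Finset.sum_le_sum ?_
    intro a _
    by_cases haY : a ∈ Y
    swap
    · have : ((Finset.univ : Finset (Quot (m.J Y))).bipartiteAbove P a) = ∅ := by
        ext ρ
        simp only [Finset.mem_bipartiteAbove, Finset.mem_univ, true_and, Finset.notMem_empty,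
          iff_false]
        exact fun h => haY h.1
      rw [this]
      simp
    by_cases hx : ∃ x, (m.v x ∈ Y ∧ m.v (m.t x) ∈ Y) ∧ m.v x = a
    · obtain ⟨x0, hx0, hx0a⟩ := hx
      have hsub : ((Finset.univ : Finset (Quot (m.J Y))).bipartiteAbove P a) ⊆
          (D.filter (fun x => m.v x = a)).image (rg m Y) := by
        intro ρ hρ
        simp only [Finset.mem_bipartiteAbove, Finset.mem_univ, true_and] at hρ
        obtain ⟨-, y, hy, hyρ⟩ := hρ
        have key := step m (fun y => rg m Y y ∈ (D.filter (fun x => m.v x = a)).image (rg m Y))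
          a x0 hx0a ?_ ?_ y hy
        · rwa [← hyρ]
        · exact Finset.mem_image_of_mem _ (Finset.mem_filter.2
            ⟨Finset.mem_filter.2 ⟨Finset.mem_univ _, hx0⟩, hx0a⟩)
        · intro z hz hg
          by_cases hJ : m.v (m.s z) ∈ Y ∧ m.v (m.t (m.s z)) ∈ Y
          · refine Finset.mem_image_of_mem _ ?_
            simp only [D, Finset.mem_filter, Finset.mem_univ, true_and]
            exact ⟨hJ, (v_s m z).trans hz⟩
          · simp only [rg_s' m Y z hJ]
            exact hg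
      refine le_trans (Finset.card_le_card hsub) (le_trans Finset.card_image_le ?_)
      exact Nat.le_add_right _ _
    · have haI : a ∈ I := by
        simp only [I, Finset.mem_filter, Finset.mem_univ, true_and]
        exact ⟨haY, hx⟩
      rw [if_pos haI]
      refine le_trans ?_ (Nat.le_add_left _ _)
      rw [Finset.card_le_one]
      intro ρ hρ ρ' hρ'
      simp only [Finset.mem_bipartiteAbove, Finset.mem_univ, true_and] at hρ hρ'
      obtain ⟨-, y, hy, hyρ⟩ := hρ
      obtain ⟨-, y', hy', hyρ'⟩ := hρ'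
      have key := step m (fun z => rg m Y z = rg m Y y) a y hy rfl ?_ y' hy'
      · rw [← hyρ, ← hyρ']
        exact key.symm
      · intro z hz hg
        refine (rg_s' m Y z ?_).trans hg
        intro hJ
        exact hx ⟨m.s z, hJ, (v_s m z).trans hz⟩
  have hfin : ∑ a : V, ((D.filter (fun x => m.v x = a)).card + if a ∈ I then 1 else 0) =
      D.card + I.card := by
    rw [Finset.sum_add_distrib]
    congr 1
    · exact (Finset.card_eq_sum_card_fiberwise (fun x _ => Finset.mem_univ (m.v x))).symm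
    · simp
  calc 4 * m.R Y ≤ _ := hlow
    _ = _ := hsum.symm
    _ ≤ _ := hup
    _ = _ := hfin

end KB_TC

theorem t_TC (h : S_LA) : S_TC := by
  classical
  intro X V F _ _ _ m G hG h4 Y hY
  by_cases hR : 2 ≤ m.R Y
  swap
  · have : 1 ≤ Y.ncard := (Set.ncard_pos (Set.toFinite Y)).2 hY
    omega
  have hc := KB_TC.count m Y (KB_TC.four m G hG h4 Y hR)
  set E : Set V := {a | ∃ x, (m.v x ∈ Y ∧ m.v (m.t x) ∈ Y) ∧ m.v x = a} with hE
  have hEY : E ⊆ Y := by
    rintro a ⟨x, hx, rfl⟩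
    exact hx.1
  have hcard : (Y \ E).ncard + E.ncard = Y.ncard := Set.ncard_sdiff_add_ncard_of_subset hEY
  have hin : ∀ x, (m.v x ∈ E ∧ m.v (m.t x) ∈ E) ↔ (m.v x ∈ Y ∧ m.v (m.t x) ∈ Y) := by
    intro x
    constructor
    · rintro ⟨h1, h2⟩
      exact ⟨hEY h1, hEY h2⟩
    · rintro ⟨h1, h2⟩
      refine ⟨⟨x, ⟨h1, h2⟩, rfl⟩, ⟨m.t x, ⟨h2, ?_⟩, rfl⟩⟩
      rw [m.tt]
      exact h1
  have hd : m.d E = m.d Y := by
    unfold QMap.d
    simp only [hin]
  have hJ : m.J E = m.J Y := by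
    funext a b
    unfold QMap.J
    simp only [hin]
  have hRR : m.R E = m.R Y := by
    unfold QMap.R
    rw [hJ]
  by_cases hne : E.Nonempty
  · have h1 := h X V F m E hne
    rw [hd, hRR] at h1
    omega
  · have hE0 : E = ∅ := Set.not_nonempty_iff_eq_empty.1 hne
    have hd0 : m.d Y = 0 := by
      rw [← hd]
      unfold QMap.d
      rw [hE0]
      simp
    have hE1 : E.ncard = 0 := by
      rw [hE0]
      simp
    omega

end KB
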