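import Pool.Agent.KB.KB_F
import Pool.Agent.KB.KB_LA
import Pool.Agent.KB.KB_TC
import Pool.Agent.KB.KB_HALL
import Pool.Agent.KB.KB_ODD
import Pool.Agent.KB.KB_RV
import Pool.Agent.KB.KB_HC
import Pool.Agent.KB.KB_COL

/-!
# Assembly
-/

set_option autoImplicit false

namespace KB

/-- the toughness inequality gives a 2-orientation -/
theorem exOri (X V F : Type) [Finite X] [Finite V] [Finite F] (m : QMap X V F) (hT : m.Tough) :
    ∃ O, m.Ori O := by
  apply t_HALL X V F m
  intro Y hY
  have h1 := t_LA X V F m Y hY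
  have h2 := hT Y hY
  omega

/-- one component -/
theorem oneComp (X V F : Type) [Finite X] [Finite V] [Finite F] (m : QMap X V F)
    (hT : m.Tough) : ∃ O, m.Ori O ∧ ∀ b ∈ O, ∀ c ∈ O, m.Comp O b c := by
  by_cases hb : m.Bip
  · exact t_F1 t_RV t_COL X V F m hb (exOri X V F m hT)
  · exact t_F2 t_RV t_TR (t_ODD t_LE) (t_HOL t_COL) X V F m hT hb (exOri X V F m hT)

/-- main theorem -/
theorem hamiltonian (X V F : Type) [Finite X] [Fintype V] [Fintype F] [DecidableEq V]
    [DecidableEq F] (m : QMap X V F) (G : SimpleGraph (V ⊕ F)) (hG : m.Btw G)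
    (h4 : FourConn G) : G.IsHamiltonian := by
  have hT : m.Tough := t_TC t_LA X V F m G hG h4
  obtain ⟨O, h, hc⟩ := oneComp X V F m hT
  exact t_HC t_COL X V F m G O h hG h4.1 hc

end KB
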